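import Pool.Agent.TH262.SawL.Equiv

/-!
The correlation length as a function of the fugacity.
-/

set_option autoImplicit false

namespace Pool.Agent.TH262.SawL

open Pool.Agent.TH795.EP Pool.Agent.TH262.SawE H981 Finset Filter Topology

/-- the correlation length -/
noncomputable def xi (z : ℝ) : ℝ := 1 / mass (-Real.log (z * mu))

theorem ev_small {α β : ℝ} (C : ℝ) (h : β < α) :
    ∀ᶠ t in 𝓝[>] (0 : ℝ), C * t ^ α ≤ t ^ β := by
  have h1 : Tendsto (fun t : ℝ => C * t ^ (α - β)) (𝓝[>] 0) (𝓝 (C * 0)) := by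
    apply Tendsto.const_mul
    have h2 : ContinuousAt (fun t : ℝ => t ^ (α - β)) 0 :=
      Real.continuousAt_rpow_const 0 (α - β) (Or.inr (by linarith))
    have h3 := h2.tendsto
    rw [Real.zero_rpow (by linarith)] at h3
    exact h3.mono_left nhdsWithin_le_nhds
  rw [mul_zero] at h1
  filter_upwards [h1.eventually (gt_mem_nhds zero_lt_one), self_mem_nhdsWithin] with t ht1 ht2
  have ht0 : 0 < t := ht2
  have h4 : t ^ α = t ^ (α - β) * t ^ β := by
    rw [← Real.rpow_add ht0]
    congr 1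
    ring
  have h5 : 0 < t ^ β := Real.rpow_pos_of_pos ht0 _
  rw [h4, ← mul_assoc]
  nlinarith

/-- `e (z) → 0+` as `z ↑ z_c` -/
theorem tendsto_e : Tendsto (fun z : ℝ => -Real.log (z * mu)) (𝓝[<] (1 / mu)) (𝓝[>] 0) := by
  have hmu := mu_pos
  rw [tendsto_nhdsWithin_iff]
  constructor
  · have h1 : ContinuousAt (fun z : ℝ => -Real.log (z * mu)) (1 / mu) := by
      apply ContinuousAt.neg
      apply ContinuousAt.log
      · exact continuousAt_id.mul continuousAt_const
      · rw [one_div, inv_mul_cancel₀ hmu.ne']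
        exact one_ne_zero
    have h2 := h1.tendsto
    rw [one_div, inv_mul_cancel₀ hmu.ne', Real.log_one, neg_zero] at h2
    rw [one_div]
    exact h2.mono_left nhdsWithin_le_nhds
  · have h3 : Set.Ioo 0 (1 / mu) ∈ 𝓝[<] (1 / mu) := Ioo_mem_nhdsLT (by positivity)
    filter_upwards [h3] with z hz
    have h4 : z * mu < 1 := by
      have := hz.2
      rwa [lt_div_iff₀ hmu] at this
    have := Real.log_neg (mul_pos hz.1 hmu) h4
    show 0 < -Real.log (z * mu)
    linarith

/-- `z_c - z → 0+` -/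
theorem tendsto_t : Tendsto (fun z : ℝ => 1 / mu - z) (𝓝[<] (1 / mu)) (𝓝[>] 0) := by
  rw [tendsto_nhdsWithin_iff]
  constructor
  · have h1 : ContinuousAt (fun z : ℝ => 1 / mu - z) (1 / mu) := by fun_prop
    have h2 := h1.tendsto
    rw [sub_self] at h2
    exact h2.mono_left nhdsWithin_le_nhds
  · filter_upwards [self_mem_nhdsWithin] with z hz
    have : z < 1 / mu := hz
    show 0 < 1 / mu - z
    linarith

/-- the inverse map -/
theorem tendsto_z : Tendsto (fun e : ℝ => Real.exp (-e) / mu) (𝓝[>] 0) (𝓝[<] (1 / mu)) := by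
  have hmu := mu_pos
  rw [tendsto_nhdsWithin_iff]
  constructor
  · have h1 : ContinuousAt (fun e : ℝ => Real.exp (-e) / mu) 0 := by fun_prop
    have h2 := h1.tendsto
    rw [neg_zero, Real.exp_zero] at h2
    exact h2.mono_left nhdsWithin_le_nhds
  · filter_upwards [self_mem_nhdsWithin] with e he
    have he0 : 0 < e := he
    show Real.exp (-e) / mu < 1 / mu
    apply div_lt_div_of_pos_right _ hmu
    rw [Real.exp_lt_one_iff]
    linarith

theorem e_z (e : ℝ) : -Real.log (Real.exp (-e) / mu * mu) = e := by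
  rw [div_mul_cancel₀ _ mu_pos.ne', Real.log_exp, neg_neg]

theorem t_le_e {z : ℝ} (hz : 0 < z) (hz1 : z < 1 / mu) : 1 / mu - z ≤ -Real.log (z * mu) := by
  have hmu := mu_pos
  have h1 := one_le_mu
  have h2 := Real.log_le_sub_one_of_pos (mul_pos hz hmu)
  have h3 : 1 / mu - z ≤ (1 / mu - z) * mu := by
    have : 0 < 1 / mu - z := by linarith
    nlinarith
  have h4 : (1 / mu - z) * mu = 1 - z * mu := by field_simp
  linarith

theorem e_le_t {z : ℝ} (hz : 0 < z) (hz1 : 1 / 2 ≤ z * mu) (hz2 : z * mu ≤ 1) :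
    -Real.log (z * mu) ≤ 2 * mu * (1 / mu - z) := by
  have hmu := mu_pos
  have hp := mul_pos hz hmu
  have h2 := Real.log_le_sub_one_of_pos (inv_pos.2 hp)
  rw [Real.log_inv] at h2
  have h4 : 2 * mu * (1 / mu - z) = 2 * (1 - z * mu) := by field_simp
  rw [h4]
  have h5 : (z * mu)⁻¹ - 1 = (1 - z * mu) * (z * mu)⁻¹ := by
    rw [sub_mul, mul_inv_cancel₀ hp.ne', one_mul]
  have h6 : (z * mu)⁻¹ ≤ 2 := by
    rw [inv_le_comm₀ hp (by norm_num)]
    linarith
  have h7 : (1 - z * mu) * (z * mu)⁻¹ ≤ (1 - z * mu) * 2 :=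
    mul_le_mul_of_nonneg_left h6 (by linarith)
  linarith

theorem xi_upper (θ : ℝ) (hθ : 0 < θ) : MassLow θ ↔
    ∀ ε : ℝ, 0 < ε → ∀ᶠ z in 𝓝[<] (1 / mu), xi z ≤ (1 / mu - z) ^ (-(θ + ε)) := by
  have hmu := mu_pos
  constructor
  · intro M ε hε
    have h3 : Set.Ioo 0 (1 / mu) ∈ 𝓝[<] (1 / mu) := Ioo_mem_nhdsLT (by positivity)
    filter_upwards [tendsto_e.eventually (M (ε / 2) (by linarith)),
      tendsto_t.eventually (ev_small 1 (show θ + ε / 2 < θ + ε by linarith)), h3] with z h1 h2 hz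
    have ht : 0 < 1 / mu - z := by linarith [hz.2]
    have h4 := t_le_e hz.1 hz.2
    have h5 : (1 / mu - z) ^ (θ + ε) ≤ mass (-Real.log (z * mu)) := by
      calc (1 / mu - z) ^ (θ + ε) ≤ (1 / mu - z) ^ (θ + ε / 2) := by linarith
        _ ≤ (-Real.log (z * mu)) ^ (θ + ε / 2) := Real.rpow_le_rpow ht.le h4 (by linarith)
        _ ≤ _ := h1
    rw [Real.rpow_neg ht.le]
    unfold xi
    rw [one_div]
    exact inv_anti₀ (Real.rpow_pos_of_pos ht _) h5
  · intro X ε hε
    have hC := ev_small ((2 * mu) ^ (θ + ε / 2)) (show θ + ε / 2 < θ + ε by linarith)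
    have h1e : Set.Ioo (0 : ℝ) 1 ∈ 𝓝[>] (0 : ℝ) := Ioo_mem_nhdsGT zero_lt_one
    filter_upwards [tendsto_z.eventually (X (ε / 2) (by linarith)), hC, h1e] with e h1 h2 he
    have he0 : 0 < e := he.1
    have h3 : xi (Real.exp (-e) / mu) = 1 / mass e := by unfold xi; rw [e_z]
    rw [h3] at h1
    have hm := mass_pos he0
    have ht : 0 < 1 / mu - Real.exp (-e) / mu := by
      rw [← sub_div]
      apply div_pos _ hmu
      have : Real.exp (-e) < 1 := by rw [Real.exp_lt_one_iff]; linarith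
      linarith
    have ht2 : e / (2 * mu) ≤ 1 / mu - Real.exp (-e) / mu := by
      rw [← sub_div, div_le_div_iff₀ (by positivity) hmu]
      have h5 : Real.exp (-e) ≤ 1 - e / 2 := by
        have h6 := Real.add_one_le_exp e
        have h7 : Real.exp (-e) = (Real.exp e)⁻¹ := Real.exp_neg e
        rw [h7, inv_le_iff_one_le_mul₀ (Real.exp_pos e)]
        have := he.2
        nlinarith
      nlinarith
    rw [Real.rpow_neg ht.le, one_div] at h1
    have h4 : (1 / mu - Real.exp (-e) / mu) ^ (θ + ε / 2) ≤ mass e :=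
      (inv_le_inv₀ hm (Real.rpow_pos_of_pos ht _)).1 h1
    refine le_trans ?_ h4
    refine le_trans ?_ (Real.rpow_le_rpow (by positivity) ht2 (by linarith))
    rw [Real.div_rpow he0.le (by positivity), le_div_iff₀ (Real.rpow_pos_of_pos (by positivity) _)]
    linarith

theorem xi_lower (θ : ℝ) (hθ : 0 < θ) : MassUp θ ↔
    ∀ ε : ℝ, 0 < ε → ∀ᶠ z in 𝓝[<] (1 / mu), (1 / mu - z) ^ (-(θ - ε)) ≤ xi z := by
  have hmu := mu_pos
  constructor
  · intro M ε hε
    obtain ⟨η, hη⟩ : ∃ η, η = min ε θ := ⟨_, rfl⟩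
    have h0 : 0 < η := by rw [hη]; exact lt_min hε hθ
    have hηθ : η ≤ θ := by rw [hη]; exact min_le_right _ _
    have hηε : η ≤ ε := by rw [hη]; exact min_le_left _ _
    have h3 : Set.Ioo (1 / (2 * mu)) (1 / mu) ∈ 𝓝[<] (1 / mu) := by
      apply Ioo_mem_nhdsLT
      apply one_div_lt_one_div_of_lt hmu
      linarith
    have hC := ev_small ((2 * mu) ^ (θ - η / 2)) (show θ - η < θ - η / 2 by linarith)
    filter_upwards [tendsto_e.eventually (M (η / 2) (by linarith)),
      tendsto_t.eventually hC, tendsto_t.eventually (Ioo_mem_nhdsGT zero_lt_one), h3] with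
      z h1 h2 h2' hz
    have hz0 : 0 < z := lt_trans (by positivity) hz.1
    have hzm : 1 / 2 ≤ z * mu := by
      have := hz.1
      rw [div_lt_iff₀ (by positivity)] at this
      linarith
    have hzm2 : z * mu ≤ 1 := by
      have := hz.2
      rw [lt_div_iff₀ hmu] at this
      linarith
    have ht : 0 < 1 / mu - z := h2'.1
    have h4 := e_le_t hz0 hzm hzm2
    have he0 : 0 < -Real.log (z * mu) := lt_of_lt_of_le ht (t_le_e hz0 hz.2)
    have hm := mass_pos he0
    have h5 : mass (-Real.log (z * mu)) ≤ (1 / mu - z) ^ (θ - η) := by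
      calc mass (-Real.log (z * mu)) ≤ (-Real.log (z * mu)) ^ (θ - η / 2) := h1
        _ ≤ (2 * mu * (1 / mu - z)) ^ (θ - η / 2) := Real.rpow_le_rpow he0.le h4 (by linarith)
        _ = (2 * mu) ^ (θ - η / 2) * (1 / mu - z) ^ (θ - η / 2) :=
            Real.mul_rpow (by positivity) ht.le
        _ ≤ _ := h2
    have h6 : (1 / mu - z) ^ (θ - η) ≤ (1 / mu - z) ^ (θ - ε) :=
      Real.rpow_le_rpow_of_exponent_ge ht h2'.2.le (by linarith)
    rw [Real.rpow_neg ht.le]
    have h7 : xi z = (mass (-Real.log (z * mu)))⁻¹ := by unfold xi; rw [one_div]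
    rw [h7]
    exact inv_anti₀ hm (h5.trans h6)
  · intro X ε hε
    obtain ⟨η, hη⟩ : ∃ η, η = min ε θ := ⟨_, rfl⟩
    have h0 : 0 < η := by rw [hη]; exact lt_min hε hθ
    have hηθ : η ≤ θ := by rw [hη]; exact min_le_right _ _
    have hηε : η ≤ ε := by rw [hη]; exact min_le_left _ _
    have h1e : Set.Ioo (0 : ℝ) 1 ∈ 𝓝[>] (0 : ℝ) := Ioo_mem_nhdsGT zero_lt_one
    filter_upwards [tendsto_z.eventually (X η h0), h1e] with e h1 he
    have he0 : 0 < e := he.1
    have h3 : xi (Real.exp (-e) / mu) = 1 / mass e := by unfold xi; rw [e_z]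
    rw [h3] at h1
    have hm := mass_pos he0
    have ht : 0 < 1 / mu - Real.exp (-e) / mu := by
      rw [← sub_div]
      apply div_pos _ hmu
      have : Real.exp (-e) < 1 := by rw [Real.exp_lt_one_iff]; linarith
      linarith
    have ht2 : 1 / mu - Real.exp (-e) / mu ≤ e := by
      rw [← sub_div, div_le_iff₀ hmu]
      have h6 := Real.add_one_le_exp (-e)
      have := one_le_mu
      nlinarith
    rw [Real.rpow_neg ht.le, one_div (mass e)] at h1
    have h4 : mass e ≤ (1 / mu - Real.exp (-e) / mu) ^ (θ - η) :=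
      (inv_le_inv₀ (Real.rpow_pos_of_pos ht _) hm).1 h1
    refine h4.trans ((Real.rpow_le_rpow ht.le ht2 (by linarith)).trans ?_)
    exact Real.rpow_le_rpow_of_exponent_ge he0 he.2.le (by linarith)

end Pool.Agent.TH262.SawL
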