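import Pool.Agent.TH262.SawL.PolyW

/-!
The enclosed area of a loop: crossing numbers, the bounding box, and insertion of arches.
-/

set_option autoImplicit false

namespace Pool.Agent.TH262.SawL

open Pool.Agent.TH795.EP Pool.Agent.TH262.SawE H981 Finset

/-- the edge from `f k` to `f (k+1)` is horizontal, joins the columns `a` and `a + 1`, and has
height larger than `b` -/
def Above (m : ℕ) (f : ZMod m → ℤ × ℤ) (a b : ℤ) (k : ZMod m) : Prop :=
  (((f k).1 = a ∧ (f (k + 1)).1 = a + 1) ∨ ((f k).1 = a + 1 ∧ (f (k + 1)).1 = a)) ∧ b < (f k).2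

/-- the unit cell `[a, a+1] × [b, b+1]` is enclosed by the loop -/
def Encl (m : ℕ) (f : ZMod m → ℤ × ℤ) (c : ℤ × ℤ) : Prop :=
  Odd (Nat.card {k : ZMod m // Above m f c.1 c.2 k})

/-- the number of unit cells enclosed by the loop -/
noncomputable def area (m : ℕ) (f : ZMod m → ℤ × ℤ) : ℕ := Nat.card {c : ℤ × ℤ // Encl m f c}

/-! ### the bounding box -/

section

variable {m : ℕ} [NeZero m] {f : ZMod m → ℤ × ℤ}

theorem even_cross (f : ZMod m → ℤ × ℤ)
    (hs : ∀ i : ZMod m, |(f (i+1)).1 - (f i).1| + |(f (i+1)).2 - (f i).2| = 1) (a : ℤ) :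
    Even (Nat.card {k : ZMod m // (((f k).1 = a ∧ (f (k + 1)).1 = a + 1) ∨
      ((f k).1 = a + 1 ∧ (f (k + 1)).1 = a))}) := by
  classical
  rw [Nat.card_eq_fintype_card, Fintype.card_subtype, ← ZMod.natCast_eq_zero_iff_even,
    Finset.card_filter, Nat.cast_sum]
  let φ : ZMod m → ZMod 2 := fun k => if (f k).1 ≤ a then 1 else 0
  have h1 : ∀ k, (((if (((f k).1 = a ∧ (f (k + 1)).1 = a + 1) ∨
      ((f k).1 = a + 1 ∧ (f (k + 1)).1 = a)) then 1 else 0 : ℕ)) : ZMod 2) = φ k + φ (k + 1) := by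
    intro k
    have h2 := hs k
    have h3 : |(f (k+1)).1 - (f k).1| ≤ 1 := by
      have := abs_nonneg ((f (k+1)).2 - (f k).2)
      omega
    rw [abs_le] at h3
    simp only [φ]
    by_cases h4 : (f k).1 ≤ a <;> by_cases h5 : (f (k + 1)).1 ≤ a
    · rw [if_neg (by omega), if_pos h4, if_pos h5]
      decide
    · rw [if_pos (by left; omega), if_pos h4, if_neg h5]
      decide
    · rw [if_pos (by right; omega), if_neg h4, if_pos h5]
      decide
    · rw [if_neg (by omega), if_neg h4, if_neg h5]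
      decide
  rw [Finset.sum_congr rfl fun k _ => h1 k, Finset.sum_add_distrib]
  have h2 : ∑ k, φ (k + 1) = ∑ k, φ k := Equiv.sum_comp (Equiv.addRight (1 : ZMod m)) φ
  rw [h2]
  exact CharTwo.add_self_eq_zero _

/-- enclosed cells lie in the bounding box -/
theorem encl_box (hs : ∀ i : ZMod m, |(f (i+1)).1 - (f i).1| + |(f (i+1)).2 - (f i).2| = 1)
    {x0 x1 y0 y1 : ℤ} (hx : ∀ i, x0 ≤ (f i).1 ∧ (f i).1 ≤ x1)
    (hy : ∀ i, y0 ≤ (f i).2 ∧ (f i).2 ≤ y1) {c : ℤ × ℤ} (hc : Encl m f c) :
    (x0 ≤ c.1 ∧ c.1 < x1) ∧ (y0 ≤ c.2 ∧ c.2 < y1) := by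
  classical
  unfold Encl at hc
  have hne : ∃ k, Above m f c.1 c.2 k := by
    by_contra hcon
    push Not at hcon
    have : IsEmpty {k : ZMod m // Above m f c.1 c.2 k} := ⟨fun k => hcon k.1 k.2⟩
    rw [Nat.card_of_isEmpty] at hc
    exact absurd hc (by decide)
  obtain ⟨k, hk1, hk2⟩ := hne
  have h1 := hx k
  have h2 := hx (k + 1)
  have h3 := hy k
  refine ⟨⟨by omega, by omega⟩, ?_, by omega⟩
  by_contra hlt
  push Not at hlt
  have h4 : Nat.card {k : ZMod m // Above m f c.1 c.2 k} =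
      Nat.card {k : ZMod m // (((f k).1 = c.1 ∧ (f (k + 1)).1 = c.1 + 1) ∨
      ((f k).1 = c.1 + 1 ∧ (f (k + 1)).1 = c.1))} := by
    apply Nat.card_congr
    apply Equiv.subtypeEquivRight
    intro k
    unfold Above
    have h5 := hy k
    constructor
    · rintro ⟨h, _⟩
      exact h
    · intro h
      exact ⟨h, by omega⟩
  rw [h4] at hc
  exact (Nat.not_odd_iff_even.2 (even_cross f hs c.1)) hc

theorem area_le_box (hs : ∀ i : ZMod m, |(f (i+1)).1 - (f i).1| + |(f (i+1)).2 - (f i).2| = 1)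
    {x0 x1 y0 y1 : ℤ} (hx : ∀ i, x0 ≤ (f i).1 ∧ (f i).1 ≤ x1)
    (hy : ∀ i, y0 ≤ (f i).2 ∧ (f i).2 ≤ y1) :
    area m f ≤ (x1 - x0).toNat * (y1 - y0).toNat := by
  classical
  let S : Finset (ℤ × ℤ) := Finset.Ico x0 x1 ×ˢ Finset.Ico y0 y1
  have hS : ∀ c : {c : ℤ × ℤ // Encl m f c}, c.1 ∈ S := by
    intro c
    have := encl_box hs hx hy c.2
    rw [Finset.mem_product, Finset.mem_Ico, Finset.mem_Ico]
    exact this
  have h1 : Nat.card {c : ℤ × ℤ // Encl m f c} ≤ Nat.card S :=
    Nat.card_le_card_of_injective (fun c => (⟨c.1, hS c⟩ : S)) (by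
      intro c d h
      have := congrArg Subtype.val h
      exact Subtype.ext this)
  unfold area
  refine h1.trans (le_of_eq ?_)
  rw [Nat.card_eq_fintype_card, Fintype.card_coe, Finset.card_product, Int.card_Ico, Int.card_Ico]

theorem finite_encl (hs : ∀ i : ZMod m, |(f (i+1)).1 - (f i).1| + |(f (i+1)).2 - (f i).2| = 1) :
    {c : ℤ × ℤ | Encl m f c}.Finite := by
  obtain ⟨i1, h1⟩ := Finite.exists_max (fun k : ZMod m => (f k).1)
  obtain ⟨i2, h2⟩ := Finite.exists_max (fun k : ZMod m => (f k).2)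
  obtain ⟨j1, h3⟩ := Finite.exists_min (fun k : ZMod m => (f k).1)
  obtain ⟨j2, h4⟩ := Finite.exists_min (fun k : ZMod m => (f k).2)
  apply Set.Finite.subset ((Set.finite_Ico (f j1).1 (f i1).1).prod
    (Set.finite_Ico (f j2).2 (f i2).2))
  intro c hc
  have := encl_box hs (fun i => ⟨h3 i, h1 i⟩) (fun i => ⟨h4 i, h2 i⟩) hc
  exact ⟨this.1, this.2⟩

/-- the area is at most the square of the largest extent -/
theorem wide_of_area (hs : ∀ i : ZMod m, |(f (i+1)).1 - (f i).1| + |(f (i+1)).2 - (f i).2| = 1)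
    {k : ℕ} (hk : 1 ≤ k) (ha : k ^ 2 ≤ area m f) :
    (∃ i j, (k : ℤ) ≤ (f i).1 - (f j).1) ∨ ∃ i j, (k : ℤ) ≤ (f i).2 - (f j).2 := by
  by_contra hcon
  push Not at hcon
  obtain ⟨g1, g2⟩ := hcon
  obtain ⟨i1, h1⟩ := Finite.exists_max (fun k : ZMod m => (f k).1)
  obtain ⟨i2, h2⟩ := Finite.exists_max (fun k : ZMod m => (f k).2)
  obtain ⟨j1, h3⟩ := Finite.exists_min (fun k : ZMod m => (f k).1)
  obtain ⟨j2, h4⟩ := Finite.exists_min (fun k : ZMod m => (f k).2)
  have h5 := area_le_box hs (fun i => ⟨h3 i, h1 i⟩) (fun i => ⟨h4 i, h2 i⟩)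
  have h6 := g1 i1 j1
  have h7 := g2 i2 j2
  have h8 : ((f i1).1 - (f j1).1).toNat ≤ k - 1 := by omega
  have h9 : ((f i2).2 - (f j2).2).toNat ≤ k - 1 := by omega
  have h10 := Nat.mul_le_mul h8 h9
  have h11 : (k - 1) * (k - 1) < k ^ 2 := by
    rw [sq]
    exact Nat.mul_lt_mul_of_lt_of_le (by omega) (by omega) (by omega)
  omega

/-- a square of enclosed cells -/
theorem area_ge (hs : ∀ i : ZMod m, |(f (i+1)).1 - (f i).1| + |(f (i+1)).2 - (f i).2| = 1)
    {k : ℕ} {a0 b0 : ℤ} (h : ∀ a b : ℤ, 0 ≤ a → a < k → 0 ≤ b → b < k →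
      Encl m f (a0 + a, b0 + b)) : k ^ 2 ≤ area m f := by
  classical
  unfold area
  have hfin := finite_encl hs
  have e1 : Nat.card {c : ℤ × ℤ // Encl m f c} = {c : ℤ × ℤ | Encl m f c}.ncard :=
    Nat.card_coe_set_eq _
  rw [e1]
  have h2 : ((Finset.Ico a0 (a0 + k) ×ˢ Finset.Ico b0 (b0 + k) : Finset (ℤ × ℤ)) : Set (ℤ × ℤ)).ncard
      ≤ {c : ℤ × ℤ | Encl m f c}.ncard := by
    apply Set.ncard_le_ncard _ hfin
    intro c hc
    rw [Finset.mem_coe, Finset.mem_product, Finset.mem_Ico, Finset.mem_Ico] at hc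
    have := h (c.1 - a0) (c.2 - b0) (by omega) (by omega) (by omega) (by omega)
    rw [add_sub_cancel, add_sub_cancel] at this
    exact this
  refine le_trans (le_of_eq ?_) h2
  rw [Set.ncard_coe_finset, Finset.card_product, Int.card_Ico, Int.card_Ico]
  have e2 : (a0 + (k : ℤ) - a0).toNat = k := by omega
  have e3 : (b0 + (k : ℤ) - b0).toNat = k := by omega
  rw [e2, e3, sq]

end

/-! ### crossing numbers of words -/

/-- indicator of an edge crossing the column `a` above `b` -/
noncomputable def ix (a b : ℤ) (p q : ℤ × ℤ) : ℕ := by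
  classical
  exact if ((p.1 = a ∧ q.1 = a + 1) ∨ (p.1 = a + 1 ∧ q.1 = a)) ∧ b < p.2 then 1 else 0

theorem ix_zero {a b : ℤ} {p q : ℤ × ℤ} (h : p.2 ≤ b) : ix a b p q = 0 := by
  unfold ix
  rw [if_neg (by rintro ⟨-, h2⟩; omega)]

/-- crossings of the ray above the cell `(a, b)` by the closed word -/
noncomputable def ccr (a b : ℤ) (V : List St) : ℕ :=
  ∑ j ∈ range V.length, ix a b (path V j) (path V (j + 1)) + ix a b (path V V.length) (0, 0)

theorem card_above (V : List St) (a b : ℤ) :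
    Nat.card {k : ZMod (V.length + 1) //
      Above (V.length + 1) (fun i : ZMod (V.length + 1) => path V i.val) a b k} = ccr a b V := by
  classical
  have e1 : Nat.card {k : ZMod (V.length + 1) //
      Above (V.length + 1) (fun i : ZMod (V.length + 1) => path V i.val) a b k} =
      ∑ k : ZMod (V.length + 1), ix a b (path V k.val) (path V (k + 1).val) := by
    rw [Nat.card_eq_fintype_card, Fintype.card_subtype, Finset.card_filter]
    apply Finset.sum_congr rfl
    intro k _
    unfold ix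
    by_cases h : Above (V.length + 1) (fun i : ZMod (V.length + 1) => path V i.val) a b k
    · rw [if_pos h, if_pos (show (((path V k.val).1 = a ∧ (path V (k + 1).val).1 = a + 1) ∨
        ((path V k.val).1 = a + 1 ∧ (path V (k + 1).val).1 = a)) ∧ b < (path V k.val).2 from h)]
    · rw [if_neg h, if_neg (show ¬ ((((path V k.val).1 = a ∧ (path V (k + 1).val).1 = a + 1) ∨
        ((path V k.val).1 = a + 1 ∧ (path V (k + 1).val).1 = a)) ∧ b < (path V k.val).2) from h)]
  have e2 : ∑ k : ZMod (V.length + 1), ix a b (path V k.val) (path V (k + 1).val) =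
      ∑ k : Fin (V.length + 1), ix a b (path V k.val) (path V (k + 1).val) := rfl
  rw [e1, e2, Fin.sum_univ_castSucc]
  unfold ccr
  rw [Finset.sum_range]
  congr 1
  · apply Finset.sum_congr rfl
    intro j _
    have h3 : ((Fin.castSucc j : Fin (V.length + 1)) + 1) = Fin.succ j := by
      ext
      simp
    rw [h3]
    rfl
  · have h3 : (Fin.last V.length) + 1 = 0 := by simp
    rw [h3]
    have h4 : path V ((0 : Fin (V.length + 1)) : ℕ) = (0, 0) := by simp [path]
    rw [h4]
    rfl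

/-- insertion of an arch below the bottom row does not change the crossings above it -/
theorem ccr_ins {V : List St} {i : ℕ} (hi : i < V.length) {t' : List St}
    (hx : dx t' = (V[i]).x) (hy : dy t' = (V[i]).y) (hneg : ∀ k, (path t' k).2 ≤ 0)
    {a b : ℤ} (hb : (path V i).2 ≤ b) : ccr a b (ins V i t') = ccr a b V := by
  unfold ccr
  rw [length_ins hi]
  have hd := disp_ins hi hx hy
  have hlast : path (ins V i t') (V.length + t'.length + 1) = path V V.length := by
    have h1 : V.length + t'.length + 1 = (ins V i t').length := (length_ins hi t').symm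
    rw [h1, path_len, path_len, hd.1, hd.2]
  rw [hlast]
  congr 1
  -- split the sums
  have hsplit : V.length + t'.length + 1 = i + ((t'.length + 2) + (V.length - (i + 1))) := by omega
  have hsplit2 : V.length = i + (1 + (V.length - (i + 1))) := by omega
  rw [hsplit, Finset.sum_range_add, Finset.sum_range_add]
  conv_rhs => rw [hsplit2, Finset.sum_range_add, Finset.sum_range_add]
  have hA : ∑ j ∈ range i, ix a b (path (ins V i t') j) (path (ins V i t') (j + 1)) =
      ∑ j ∈ range i, ix a b (path V j) (path V (j + 1)) := by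
    apply Finset.sum_congr rfl
    intro j hj
    rw [Finset.mem_range] at hj
    rw [path_ins_left hi t' (by omega), path_ins_left hi t' (by omega)]
  have hB : ∑ j ∈ range (t'.length + 2), ix a b (path (ins V i t') (i + j))
      (path (ins V i t') (i + j + 1)) = 0 := by
    apply Finset.sum_eq_zero
    intro j hj
    rw [Finset.mem_range] at hj
    apply ix_zero
    rcases Nat.eq_zero_or_pos j with h | h
    · subst h
      rw [add_zero, path_ins_left hi t' le_rfl]
      exact hb
    · obtain ⟨l, rfl⟩ : ∃ l, j = l + 1 := ⟨j - 1, by omega⟩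
      rw [path_ins_mid hi t' (by omega)]
      have := hneg l
      simp only
      omega
  have hC : ∑ j ∈ range 1, ix a b (path V (i + j)) (path V (i + j + 1)) = 0 := by
    rw [Finset.sum_range_one, add_zero]
    exact ix_zero hb
  have hD : ∑ j ∈ range (V.length - (i + 1)),
      ix a b (path (ins V i t') (i + (t'.length + 2 + j)))
        (path (ins V i t') (i + (t'.length + 2 + j) + 1)) =
      ∑ j ∈ range (V.length - (i + 1)), ix a b (path V (i + (1 + j))) (path V (i + (1 + j) + 1)) := by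
    apply Finset.sum_congr rfl
    intro j _
    have e1 : i + (t'.length + 2 + j) = i + (t'.length + (j + 1) + 1) := by ring
    have e2 : i + (t'.length + 2 + j) + 1 = i + (t'.length + ((j + 1) + 1) + 1) := by ring
    rw [e2, path_ins_right hi hx hy, e1, path_ins_right hi hx hy]
    congr 1
    · congr 1; ring
    · congr 1; ring
  rw [hA, hB, hC, hD]

end Pool.Agent.TH262.SawL
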