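import Pool.Agent.TH262.SawL.Half

/-!
Self-avoiding words in a half plane with any end point of the half plane.
-/

set_option autoImplicit false

namespace Pool.Agent.TH262.SawL

open Pool.Agent.TH795.EP Pool.Agent.TH262.SawE H981 Finset

/-- words in the lower half plane with a horizontal edge in the bottom row -/
noncomputable def lb (m : ℕ) (x y : ℤ) : ℕ :=
  (fs (fun w => (Saw w ∧ dx w = x ∧ dy w = y) ∧ Lo w ∧ Bot w) m).card

theorem path_snd_S (v : List St) (k : ℕ) :
    path (St.S :: v) (k + 1) = ((path v k).1, (path v k).2 - 1) := by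
  rw [path_cons_succ, St.x_S, St.y_S]
  ext
  · simp
  · simp only; ring

theorem path_zero' (w : List St) : path w 0 = (0, 0) := by simp [path]

theorem saw_S_cons {v : List St} (hv : Saw v) (hlo : Lo v) : Saw (St.S :: v) := by
  rw [saw_iff']
  intro i j hij hj
  obtain ⟨l, rfl⟩ : ∃ l, j = l + 1 := ⟨j - 1, by omega⟩
  rw [path_snd_S]
  rw [List.length_cons] at hj
  rcases Nat.eq_zero_or_pos i with h | h
  · subst h
    rw [path_zero']
    intro he
    have h1 := congrArg Prod.snd he
    simp only at h1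
    have := hlo l
    omega
  · obtain ⟨i', rfl⟩ : ∃ i', i = i' + 1 := ⟨i - 1, by omega⟩
    rw [path_snd_S]
    intro he
    obtain ⟨h1, h2⟩ := Prod.mk.inj he
    exact saw_iff'.1 hv i' l (by omega) (by omega) (Prod.ext h1 (by omega))

theorem lo_S_cons {v : List St} (hlo : Lo v) : Lo (St.S :: v) := by
  intro k
  rcases Nat.eq_zero_or_pos k with h | h
  · subst h; rw [path_zero']
  · obtain ⟨l, rfl⟩ : ∃ l, k = l + 1 := ⟨k - 1, by omega⟩
    rw [path_snd_S]
    have := hlo l
    simp only
    omega

theorem bot_S_cons {v : List St} (hlo : Lo v) (hb : Bot v) : Bot (St.S :: v) := by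
  obtain ⟨i, hi, hs, hmin⟩ := hb
  refine ⟨i + 1, by rw [List.length_cons]; omega, ?_, ?_⟩
  · rw [List.getElem_cons_succ]; exact hs
  · intro k
    rw [path_snd_S]
    rcases Nat.eq_zero_or_pos k with h | h
    · subst h
      rw [path_zero']
      have := hlo i
      simp only
      omega
    · obtain ⟨l, rfl⟩ : ∃ l, k = l + 1 := ⟨k - 1, by omega⟩
      rw [path_snd_S]
      have := hmin l
      simp only
      omega

theorem reps {v : List St} (j : ℕ) (hv : Saw v) (hlo : Lo v) :
    Saw (List.replicate j St.S ++ v) ∧ Lo (List.replicate j St.S ++ v) ∧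
    (Bot v → Bot (List.replicate j St.S ++ v)) := by
  induction j with
  | zero => simpa using ⟨hv, hlo⟩
  | succ j ih =>
    rw [List.replicate_succ, List.cons_append]
    exact ⟨saw_S_cons ih.1 ih.2.1, lo_S_cons ih.2.1, fun hb => bot_S_cons ih.2.1 (ih.2.2 hb)⟩

theorem lo_prefix {u v : List St} (h : Lo (u ++ v)) : Lo u := by
  intro k
  rcases le_or_gt k u.length with h1 | h1
  · rw [← path_append_left (v := v) h1]; exact h k
  · rw [path_ge h1.le, ← path_append_left (v := v) le_rfl]; exact h _

theorem tail_exists (m : ℕ) : ∀ w : List St, w.length = m → Saw w → Lo w →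
    ∃ j u, w = u ++ List.replicate j St.S ∧ (u = [] ∨ Bot u) := by
  induction m with
  | zero =>
    intro w hl _ _
    exact ⟨0, [], by simpa using List.length_eq_zero_iff.1 hl, Or.inl rfl⟩
  | succ m ih =>
    intro w hl hw hlo
    by_cases hb : Bot w
    · exact ⟨0, w, by simp, Or.inr hb⟩
    · rcases not_bot hw (by omega) hb with h | h
      · exfalso
        have h0 : 0 < w.length := by omega
        have h1 := path_succ h0
        rw [h] at h1
        have h2 := hlo 1
        have h3 : (path w 0).2 = 0 := by rw [path_zero']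
        simp only [zero_add, St.y_N] at h1
        have h4 := h1.2
        omega
      · have hne : w ≠ [] := by
          intro h0
          rw [h0] at hl
          simp at hl
        have hw1 : w.dropLast ++ [St.S] = w := by
          have h1 := List.dropLast_append_getLast hne
          rw [List.getLast_eq_getElem, h] at h1
          exact h1
        obtain ⟨j, u, hu, hb'⟩ := ih w.dropLast (by rw [List.length_dropLast]; omega)
          (hw.subw (List.dropLast_prefix w).isInfix)
          (lo_prefix (v := [St.S]) (by rw [hw1]; exact hlo))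
        refine ⟨j + 1, u, ?_, hb'⟩
        rw [List.replicate_succ', ← List.append_assoc, ← hu, hw1]

theorem disp_reps (j : ℕ) : dx (List.replicate j St.S) = 0 ∧ dy (List.replicate j St.S) = -j := by
  induction j with
  | zero => simp
  | succ j ih =>
    rw [List.replicate_succ, dx_cons, dy_cons, ih.1, ih.2, St.x_S, St.y_S]
    constructor
    · ring
    · push_cast; ring

theorem la_le_lb (m : ℕ) {x y : ℤ} (h : ¬ (x = 0 ∧ y = -m)) : la m x y ≤ (m + 1) * lb m x y := by
  classical
  unfold la lb
  have e : (m + 1) * (fs (fun w => (Saw w ∧ dx w = x ∧ dy w = y) ∧ Lo w ∧ Bot w) m).card =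
      (range (m + 1) ×ˢ fs (fun w => (Saw w ∧ dx w = x ∧ dy w = y) ∧ Lo w ∧ Bot w) m).card := by
    rw [Finset.card_product, Finset.card_range]
  rw [e]
  apply card_le_of_decode (fun q => q.2.drop q.1 ++ List.replicate q.1 St.S)
  intro w hw
  rw [mem_fs] at hw
  obtain ⟨⟨⟨hw1, hwx, hwy⟩, hlo⟩, hwl⟩ := hw
  obtain ⟨j, u, hu, hb⟩ := tail_exists m w hwl hw1 hlo
  have hj : u.length + j = m := by
    rw [hu, List.length_append, List.length_replicate] at hwl
    exact hwl
  obtain ⟨hd1, hd2⟩ := disp_reps j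
  have hdx : dx u = x := by
    rw [hu, dx_append, hd1] at hwx
    omega
  have hdy : dy u + -(j : ℤ) = y := by
    rw [hu, dy_append, hd2] at hwy
    exact hwy
  rcases hb with hb | hb
  · exfalso
    apply h
    subst hb
    rw [List.length_nil, zero_add] at hj
    simp only [dx_nil, dy_nil] at hdx hdy
    omega
  · have hsu : Saw u := hw1.subw (by rw [hu]; exact (List.prefix_append _ _).isInfix)
    have hlu : Lo u := lo_prefix (v := List.replicate j St.S) (by rw [← hu]; exact hlo)
    obtain ⟨r1, r2, r3⟩ := reps j hsu hlu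
    refine ⟨(j, List.replicate j St.S ++ u), ?_, ?_⟩
    · rw [Finset.mem_product, mem_fs, Finset.mem_range]
      refine ⟨by omega, ⟨⟨r1, ?_, ?_⟩, r2, r3 hb⟩, ?_⟩
      · simp only
        rw [dx_append, hd1]; omega
      · simp only
        rw [dy_append, hd2]; omega
      · simp only [List.length_append, List.length_replicate]
        omega
    · simp only
      rw [hu]
      congr 1
      have := List.drop_left (l₁ := List.replicate j St.S) (l₂ := u)
      rwa [List.length_replicate] at this

theorem lb_mul_ar (m L : ℕ) (x y : ℤ) :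
    lb m x y * ar L ≤ m * la (m + L + 1) x y := by
  classical
  unfold lb la ar
  have e : m * (fs (fun w => (Saw w ∧ dx w = x ∧ dy w = y) ∧ Lo w) (m + L + 1)).card =
      (range m ×ˢ fs (fun w => (Saw w ∧ dx w = x ∧ dy w = y) ∧ Lo w) (m + L + 1)).card := by
    rw [Finset.card_product, Finset.card_range]
  rw [← Finset.card_product, e]
  apply card_le_of_decode (fun q => (q.2.take q.1 ++
    ((if dx ((q.2.drop (q.1 + 1)).take L) = 1 then St.E else St.W) ::
      q.2.drop (q.1 + 1 + L + 1)),
    (if dx ((q.2.drop (q.1 + 1)).take L) = 1 then (q.2.drop (q.1 + 1)).take L else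
      sg ((q.2.drop (q.1 + 1)).take L))))
  rintro ⟨w, t⟩ h
  rw [Finset.mem_product, mem_fs, mem_fs] at h
  obtain ⟨⟨⟨⟨hw, hwx, hwy⟩, hlo, hbot⟩, hwl⟩, ⟨ht, htx, hty, htn⟩, htl⟩ := h
  simp only at hw hwx hwy hlo hbot hwl ht htx hty htn htl
  obtain ⟨i, hi, hs, hmin⟩ := hbot
  have hx : dx (tw w[i] t) = (w[i]).x := dx_tw hs htx
  have hy : dy (tw w[i] t) = (w[i]).y := by
    rw [dy_tw, hty]
    rcases hs with h | h <;> rw [h] <;> rfl
  have hlt : (tw w[i] t).length = L := by rw [length_tw, htl]
  have hd := disp_ins hi hx hy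
  have hneg : ∀ k, (path (tw w[i] t) k).2 ≤ 0 := fun k => by rw [path_tw_snd]; exact htn k
  refine ⟨(i, ins w i (tw w[i] t)), ?_, ?_⟩
  · rw [Finset.mem_product, mem_fs, Finset.mem_range]
    refine ⟨by omega, ⟨⟨saw_ins hw hi (saw_tw ht) hx hy hmin hneg, ?_, ?_⟩,
      lo_ins hi hx hy hlo hneg⟩, ?_⟩
    · rw [hd.1, hwx]
    · rw [hd.2, hwy]
    · simp only
      rw [length_ins hi, hlt, hwl]
  · simp only
    have hlen : (w.take i).length = i := by rw [List.length_take]; omega
    have g1 : (ins w i (tw w[i] t)).take i = w.take i := by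
      unfold ins
      have := List.take_left (l₁ := w.take i)
        (l₂ := St.S :: (tw w[i] t ++ (St.N :: w.drop (i + 1))))
      rwa [hlen] at this
    have g2 : (ins w i (tw w[i] t)).drop (i + 1) = tw w[i] t ++ (St.N :: w.drop (i + 1)) := by
      unfold ins
      have := List.drop_left (l₁ := w.take i)
        (l₂ := St.S :: (tw w[i] t ++ (St.N :: w.drop (i + 1))))
      rw [hlen] at this
      rw [← List.drop_drop, this, List.drop_succ_cons, List.drop_zero]
    have g3 : ((ins w i (tw w[i] t)).drop (i + 1)).take L = tw w[i] t := by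
      rw [g2]
      have := List.take_left (l₁ := tw w[i] t) (l₂ := St.N :: w.drop (i + 1))
      rwa [hlt] at this
    have g4 : (ins w i (tw w[i] t)).drop (i + 1 + L + 1) = w.drop (i + 1) := by
      have := List.drop_left (l₁ := tw w[i] t) (l₂ := St.N :: w.drop (i + 1))
      rw [hlt] at this
      rw [show i + 1 + L + 1 = (i + 1) + L + 1 by ring, ← List.drop_drop, ← List.drop_drop, g2,
        this, List.drop_succ_cons, List.drop_zero]
    rw [g1, g3, g4, hx]
    have hw2 : w.take i ++ (w[i] :: w.drop (i + 1)) = w := by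
      rw [← List.drop_eq_getElem_cons hi, List.take_append_drop]
    rcases hs with h | h
    · rw [h, St.x_E, if_pos rfl, if_pos rfl]
      rw [h] at hw2
      simp only [hw2, tw, if_true]
    · rw [h, St.x_W, if_neg (by norm_num), if_neg (by norm_num)]
      rw [h] at hw2
      have : tw St.W t = sg t := by simp [tw]
      rw [hw2, this, sg_sg]

theorem lb_le_la (m : ℕ) (x y : ℤ) : lb m x y ≤ la m x y := by
  unfold lb la
  apply Finset.card_le_card
  intro w hw
  rw [mem_fs] at hw ⊢
  exact ⟨⟨hw.1.1, hw.1.2.1⟩, hw.2⟩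

theorem la_le_a (m : ℕ) (x y : ℤ) : la m x y ≤ a m x y := by
  unfold la a
  apply Finset.card_le_card
  intro w hw
  rw [mem_fs] at hw ⊢
  exact ⟨hw.1.1, hw.2⟩

theorem lb_lengthen {n : ℕ} (hn : 2 ≤ n) {K : ℝ} (hK0 : 0 ≤ K)
    (hlow : ∀ j : ℕ, 2 ≤ j → j ≤ n → mu ^ (2 * j) * q n (-K) ≤ ar (2 * j - 1))
    {m j : ℕ} (hmn : m + 2 * j ≤ n) (x y : ℤ) :
    (lb m x y : ℝ) * mu ^ (2 * j) ≤ q n (K + 21) * la (m + 2 * j) x y := by
  have hmu := mu_pos
  have hn0 : (2 : ℝ) ≤ n := by exact_mod_cast hn
  have hmn' : (m : ℝ) ≤ n := by exact_mod_cast (by omega : m ≤ n)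
  rcases Nat.eq_zero_or_pos j with h0 | h0
  · subst h0
    simp only [mul_zero, pow_zero, mul_one, add_zero]
    have h1 := one_le_q hn (by linarith : (0 : ℝ) ≤ K + 21)
    have h2 : (lb m x y : ℝ) ≤ la m x y := by exact_mod_cast lb_le_la m x y
    have h3 : (0 : ℝ) ≤ la m x y := Nat.cast_nonneg _
    nlinarith
  · rcases Nat.lt_or_ge j 2 with h1 | h1
    · obtain rfl : j = 1 := by omega
      have h2 := lb_mul_ar m 1 x y
      have h3 := one_le_ar (j := 1) le_rfl
      norm_num at h3
      have h4 : (lb m x y : ℝ) ≤ m * la (m + 2) x y := by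
        have : lb m x y ≤ m * la (m + 2) x y := by
          calc lb m x y = lb m x y * 1 := (mul_one _).symm
            _ ≤ lb m x y * ar 1 := Nat.mul_le_mul_left _ h3
            _ ≤ _ := h2
        exact_mod_cast this
      have h5 : mu ^ 2 ≤ 16 := by
        have := mu_le_four
        nlinarith
      have h6 : (n : ℝ) ^ 7 ≤ q n (K + 21) := by
        have h7 := pow_le_q hn 7
        norm_num at h7
        exact h7.trans (q_mono hn (by linarith))
      have hA : (0 : ℝ) ≤ la (m + 2) x y := Nat.cast_nonneg _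
      have h8 : (16 : ℝ) * m ≤ (n : ℝ) ^ 7 := by
        have h9 : (16 : ℝ) ≤ (n : ℝ) ^ 6 := by
          calc (16 : ℝ) ≤ 2 ^ 6 := by norm_num
            _ ≤ (n : ℝ) ^ 6 := pow_le_pow_left₀ (by norm_num) hn0 6
        calc (16 : ℝ) * m ≤ (n : ℝ) ^ 6 * n := mul_le_mul h9 hmn' (Nat.cast_nonneg _) (by positivity)
          _ = (n : ℝ) ^ 7 := by ring
      calc (lb m x y : ℝ) * mu ^ (2 * 1) ≤ (m * la (m + 2) x y) * 16 := by
            rw [mul_one]
            exact mul_le_mul h4 h5 (by positivity) (by positivity)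
        _ = (16 * m) * la (m + 2) x y := by ring
        _ ≤ q n (K + 21) * la (m + 2) x y := mul_le_mul_of_nonneg_right (h8.trans h6) hA
        _ = _ := by norm_num
    · have h2 := hlow j h1 (by omega)
      have h3 := lb_mul_ar m (2 * j - 1) x y
      rw [show m + (2 * j - 1) + 1 = m + 2 * j by omega] at h3
      have h4 : (lb m x y : ℝ) * ar (2 * j - 1) ≤ m * la (m + 2 * j) x y := by exact_mod_cast h3
      have hA : (0 : ℝ) ≤ la (m + 2 * j) x y := Nat.cast_nonneg _
      have hA' : (0 : ℝ) ≤ lb m x y := Nat.cast_nonneg _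
      have hq := q_pos n K
      have h5 : (lb m x y : ℝ) * (mu ^ (2 * j) * q n (-K)) ≤ m * la (m + 2 * j) x y :=
        (mul_le_mul_of_nonneg_left h2 hA').trans h4
      have h6 : (m : ℝ) ≤ q n 9 := by
        have h7 := pow_le_q hn 3
        norm_num at h7
        refine le_trans ?_ h7
        nlinarith [sq_nonneg ((n : ℝ) - 1)]
      calc (lb m x y : ℝ) * mu ^ (2 * j)
          = ((lb m x y : ℝ) * (mu ^ (2 * j) * q n (-K))) * q n K := by
            rw [show (lb m x y : ℝ) * (mu ^ (2 * j) * q n (-K)) * q n K =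
              (lb m x y : ℝ) * mu ^ (2 * j) * (q n K * q n (-K)) by ring, q_cancel, mul_one]
        _ ≤ (m * la (m + 2 * j) x y) * q n K := mul_le_mul_of_nonneg_right h5 hq.le
        _ ≤ (q n 9 * la (m + 2 * j) x y) * q n K := by gcongr
        _ = (q n K * q n 9) * la (m + 2 * j) x y := by ring
        _ = q n (K + 9) * la (m + 2 * j) x y := by rw [q_mul]
        _ ≤ _ := mul_le_mul_of_nonneg_right (q_mono hn (by linarith)) hA

/-- the word `E S^m W` -/
theorem one_le_lb {m : ℕ} (hm : 1 ≤ m) : 1 ≤ lb (m + 2) 0 (-m) := by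
  unfold lb
  rw [Nat.succ_le_iff, Finset.card_pos]
  have hW : Saw [St.W] ∧ Lo [St.W] ∧ Bot [St.W] := by
    refine ⟨?_, ?_, ?_⟩
    · rw [saw_iff']
      intro i j hij hj
      simp only [List.length_cons, List.length_nil] at hj
      obtain rfl : j = 1 := by omega
      obtain rfl : i = 0 := by omega
      simp [path]
    · intro k
      rcases Nat.eq_zero_or_pos k with h | h
      · subst h; simp [path]
      · rw [path_ge (by simp; omega)]; simp [path]
    · refine ⟨0, by simp, by simp, ?_⟩
      intro k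
      rcases Nat.eq_zero_or_pos k with h | h
      · subst h; simp [path]
      · have := path_ge (w := [St.W]) (k := k) (by simp; omega)
        rw [this]; simp [path]
  obtain ⟨r1, r2, r3⟩ := reps m hW.1 hW.2.1
  obtain ⟨hd1, hd2⟩ := disp_reps m
  obtain ⟨v, hv⟩ : ∃ v, v = List.replicate m St.S ++ [St.W] := ⟨_, rfl⟩
  rw [← hv] at r1 r2 r3
  have hdxv : dx v = -1 := by rw [hv, dx_append, hd1]; simp
  have hdyv : dy v = -m := by rw [hv, dy_append, hd2]; simp
  have hlv : v.length = m + 1 := by rw [hv]; simp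
  -- positions of `v` in the top row
  have htop : ∀ k ≤ m, path v k = (0, -(k : ℤ)) := by
    intro k hk
    rw [hv, path_append_left (by rw [List.length_replicate]; exact hk)]
    unfold path
    rw [List.take_replicate, min_eq_left hk, (disp_reps k).1, (disp_reps k).2]
  have hend : path v (m + 1) = (-1, -(m : ℤ)) := by
    rw [← hlv, path_len, hdxv, hdyv]
  refine ⟨St.E :: v, mem_fs.2 ⟨⟨⟨?_, ?_, ?_⟩, ?_, ?_⟩, ?_⟩⟩
  · rw [saw_iff']
    intro i j hij hj
    rw [List.length_cons, hlv] at hj
    obtain ⟨l, rfl⟩ : ∃ l, j = l + 1 := ⟨j - 1, by omega⟩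
    rw [path_cons_succ, St.x_E, St.y_E]
    rcases Nat.eq_zero_or_pos i with h | h
    · subst h
      rw [path_zero']
      intro he
      obtain ⟨h1, h2⟩ := Prod.mk.inj he
      rcases Nat.lt_or_ge m l with h3 | h3
      · obtain rfl : l = m + 1 := by omega
        rw [hend] at h2
        simp only at h2
        omega
      · rw [htop l h3] at h1
        simp only at h1
        omega
    · obtain ⟨i', rfl⟩ : ∃ i', i = i' + 1 := ⟨i - 1, by omega⟩
      rw [path_cons_succ, St.x_E, St.y_E]
      intro he
      obtain ⟨h1, h2⟩ := Prod.mk.inj he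
      exact saw_iff'.1 r1 i' l (by omega) (by omega) (Prod.ext (by omega) (by omega))
  · rw [dx_cons, hdxv, St.x_E]; norm_num
  · rw [dy_cons, hdyv, St.y_E]; ring
  · intro k
    rcases Nat.eq_zero_or_pos k with h | h
    · subst h; rw [path_zero']
    · obtain ⟨l, rfl⟩ : ∃ l, k = l + 1 := ⟨k - 1, by omega⟩
      rw [path_cons_succ, St.y_E]
      have := r2 l
      simp only
      omega
  · obtain ⟨i, hi, hs, hmin⟩ := r3 hW.2.2
    refine ⟨i + 1, by rw [List.length_cons]; omega, ?_, ?_⟩
    · rw [List.getElem_cons_succ]; exact hs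
    · intro k
      rw [path_cons_succ, St.y_E]
      rcases Nat.eq_zero_or_pos k with h | h
      · subst h
        rw [path_zero']
        have := r2 i
        simp only
        omega
      · obtain ⟨l, rfl⟩ : ∃ l, k = l + 1 := ⟨k - 1, by omega⟩
        rw [path_cons_succ, St.y_E]
        have := hmin l
        simp only
        omega
  · rw [List.length_cons, hlv]

/-- lengthening of walks in a half plane -/
theorem la_lengthen' {n : ℕ} (hn : 2 ≤ n) {K : ℝ} (hK0 : 0 ≤ K)
    (hlow : ∀ j : ℕ, 2 ≤ j → j ≤ n → mu ^ (2 * j) * q n (-K) ≤ ar (2 * j - 1))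
    {m j : ℕ} (hm : 1 ≤ m) (hmn : m + 2 * j ≤ n) (x y : ℤ) :
    (la m x y : ℝ) * mu ^ (2 * j) ≤ q n (K + 42) * la (m + 2 * j) x y := by
  have hmu := mu_pos
  have hn0 : (2 : ℝ) ≤ n := by exact_mod_cast hn
  have hA : (0 : ℝ) ≤ la (m + 2 * j) x y := Nat.cast_nonneg _
  have hQ21 : ∀ B : ℝ, 0 ≤ B → B ≤ (n : ℝ) ^ 7 → B * q n (K + 21) ≤ q n (K + 42) := by
    intro B hB hB'
    have h7 := pow_le_q hn 7
    norm_num at h7
    calc B * q n (K + 21) ≤ q n 21 * q n (K + 21) :=
          mul_le_mul_of_nonneg_right (hB'.trans h7) (q_pos _ _).le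
      _ = q n (K + 42) := by rw [q_mul]; congr 1; ring
  by_cases hs : x = 0 ∧ y = -m
  · obtain ⟨rfl, rfl⟩ := hs
    rcases Nat.eq_zero_or_pos j with h0 | h0
    · subst h0
      simp only [mul_zero, pow_zero, mul_one, add_zero] at hA ⊢
      have h1 := one_le_q hn (by linarith : (0 : ℝ) ≤ K + 42)
      nlinarith
    · have h1 : la m 0 (-m) ≤ 1 := by
        unfold la
        rw [Finset.card_le_one]
        have key : ∀ w ∈ fs (fun w => (Saw w ∧ dx w = 0 ∧ dy w = -(m : ℤ)) ∧ Lo w) m,
            w = List.replicate m St.S := by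
          intro w hw
          rw [mem_fs] at hw
          obtain ⟨⟨⟨-, -, h3⟩, -⟩, h4⟩ := hw
          rw [List.eq_replicate_iff]
          refine ⟨h4, ?_⟩
          clear hA hmn
          revert m
          induction w with
          | nil => intro m _ _ _ b hb; simp at hb
          | cons s w ih =>
            intro m hm h4 h3 b hb
            rw [dy_cons] at h3
            rw [List.length_cons] at h4
            have h5 := abs_add_abs_le w
            have h6 := abs_nonneg (dx w)
            have h7 := neg_abs_le (dy w)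
            have hsy : s = St.S := by
              cases s with
              | E => exfalso; rw [St.y_E] at h3; omega
              | W => exfalso; rw [St.y_W] at h3; omega
              | N => exfalso; rw [St.y_N] at h3; omega
              | S => rfl
            subst hsy
            rw [St.y_S] at h3
            rcases List.mem_cons.1 hb with hb | hb
            · exact hb
            · rcases Nat.eq_zero_or_pos w.length with h8 | h8
              · rw [List.length_eq_zero_iff.1 h8] at hb
                simp at hb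
              · exact ih (m := m - 1) (by omega) (by omega)
                  (by push_cast [Nat.cast_sub hm]; omega) b hb
        intro w hw w' hw'
        rw [key w hw, key w' hw']
      have h2 := one_le_lb hm
      have h3 := lb_lengthen hn hK0 hlow (m := m + 2) (j := j - 1) (by omega) 0 (-(m : ℤ))
      rw [show m + 2 + 2 * (j - 1) = m + 2 * j by omega] at h3
      have h1' : (la m 0 (-m) : ℝ) ≤ 1 := by exact_mod_cast h1
      have h2' : (1 : ℝ) ≤ lb (m + 2) 0 (-m) := by exact_mod_cast h2
      have h5 : mu ^ 2 ≤ 16 := by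
        have := mu_le_four
        nlinarith
      have e : mu ^ (2 * j) = mu ^ 2 * mu ^ (2 * (j - 1)) := by
        rw [← pow_add]; congr 1; omega
      have hp : 0 < mu ^ (2 * (j - 1)) := pow_pos hmu _
      have h16 : (16 : ℝ) ≤ (n : ℝ) ^ 7 := by
        calc (16 : ℝ) ≤ 2 ^ 7 := by norm_num
          _ ≤ _ := pow_le_pow_left₀ (by norm_num) hn0 7
      calc (la m 0 (-m) : ℝ) * mu ^ (2 * j) ≤ 1 * (16 * mu ^ (2 * (j - 1))) := by
            rw [e]
            exact mul_le_mul h1' (mul_le_mul_of_nonneg_right h5 hp.le) (by positivity) (by norm_num)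
        _ ≤ 16 * (lb (m + 2) 0 (-m) * mu ^ (2 * (j - 1))) := by nlinarith
        _ ≤ 16 * (q n (K + 21) * la (m + 2 * j) 0 (-m)) := by linarith
        _ = (16 * q n (K + 21)) * la (m + 2 * j) 0 (-m) := by ring
        _ ≤ _ := mul_le_mul_of_nonneg_right (hQ21 16 (by norm_num) h16) hA
  · have h1 := la_le_lb m hs
    have h1' : (la m x y : ℝ) ≤ (m + 1) * lb m x y := by exact_mod_cast h1
    have h3 := lb_lengthen hn hK0 hlow hmn x y
    have hp : 0 < mu ^ (2 * j) := pow_pos hmu _
    have hm7 : (m : ℝ) + 1 ≤ (n : ℝ) ^ 7 := by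
      have h4 : (m : ℝ) ≤ n := by exact_mod_cast (by omega : m ≤ n)
      have h5 : (1 : ℝ) ≤ (n : ℝ) ^ 6 := one_le_pow₀ (by linarith)
      have h6 : (2 : ℝ) ≤ (n : ℝ) ^ 6 := by
        calc (2 : ℝ) ≤ 2 ^ 6 := by norm_num
          _ ≤ _ := pow_le_pow_left₀ (by norm_num) hn0 6
      calc (m : ℝ) + 1 ≤ 2 * n := by linarith
        _ ≤ (n : ℝ) ^ 6 * n := mul_le_mul_of_nonneg_right h6 (by linarith)
        _ = _ := by ring
    calc (la m x y : ℝ) * mu ^ (2 * j) ≤ ((m + 1) * lb m x y) * mu ^ (2 * j) :=
          mul_le_mul_of_nonneg_right h1' hp.le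
      _ = (m + 1) * (lb m x y * mu ^ (2 * j)) := by ring
      _ ≤ (m + 1) * (q n (K + 21) * la (m + 2 * j) x y) :=
          mul_le_mul_of_nonneg_left h3 (by positivity)
      _ = ((m + 1) * q n (K + 21)) * la (m + 2 * j) x y := by ring
      _ ≤ _ := mul_le_mul_of_nonneg_right (hQ21 _ (by positivity) hm7) hA

end Pool.Agent.TH262.SawL
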