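import Pool.Agent.TH262.SawL.Area1
import Pool.Agent.TH262.SawL.HalfY

/-!
Four arches around a square make a polygon enclosing it.
-/

set_option autoImplicit false

namespace Pool.Agent.TH262.SawL

open Pool.Agent.TH795.EP Pool.Agent.TH262.SawE H981 Finset

/-! ### two arches make a corner -/

/-- self-avoiding word from `(0,0)` to `(k,k)` that stays in `{y ≤ 0} ∪ {x ≥ k}` -/
def LL (k : ℤ) (w : List St) : Prop :=
  Saw w ∧ dx w = k ∧ dy w = k ∧ ∀ i, (path w i).2 ≤ 0 ∨ k ≤ (path w i).1

noncomputable def ll (k : ℤ) (m : ℕ) : ℕ := (fs (LL k) m).card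

/-- rotation by a right angle -/
def ro (w : List St) : List St := sg (sw w)

theorem path_ro (w : List St) (i : ℕ) : path (ro w) i = (-(path w i).2, (path w i).1) := by
  have h1 : (ro w).take i = sg (sw (w.take i)) := by
    unfold ro sg sw
    rw [← List.map_take, ← List.map_take]
  unfold path
  rw [h1, dx_sg, dy_sg, dx_sw, dy_sw]

theorem length_ro (w : List St) : (ro w).length = w.length := by
  unfold ro; rw [length_sg, length_sw]

theorem dx_ro (w : List St) : dx (ro w) = -dy w := by unfold ro; rw [dx_sg, dx_sw]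
theorem dy_ro (w : List St) : dy (ro w) = dx w := by unfold ro; rw [dy_sg, dy_sw]

theorem sq_la_le (m : ℕ) (k : ℤ) :
    la m k 0 * la m k 0 ≤ ∑ p ∈ range (m + 1) ×ˢ range (m + 1),
      ll k (p.1 + (m - p.2)) * (c (m - p.1) * c p.2) := by
  classical
  unfold la ll c
  have e : ∀ p : ℕ × ℕ,
      (fs (LL k) (p.1 + (m - p.2))).card * ((fs Saw (m - p.1)).card * (fs Saw p.2).card) =
      (fs (LL k) (p.1 + (m - p.2)) ×ˢ (fs Saw (m - p.1) ×ˢ fs Saw p.2)).card := by
    intro p
    rw [Finset.card_product, Finset.card_product]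
  simp only [e]
  rw [← Finset.card_product, ← Finset.card_sigma]
  apply card_le_of_decode (fun q : (_ : ℕ × ℕ) × (List St × (List St × List St)) =>
    (q.2.1.take q.1.1 ++ q.2.2.1, sw (sg (q.2.2.2 ++ q.2.1.drop q.1.1))))
  rintro ⟨u, b⟩ h
  rw [Finset.mem_product, mem_fs, mem_fs] at h
  obtain ⟨⟨⟨⟨hu, hux, huy⟩, hulo⟩, hul⟩, ⟨⟨hb, hbx, hby⟩, hblo⟩, hbl⟩ := h
  simp only at hu hux huy hulo hul hb hbx hby hblo hbl
  obtain ⟨v, hv⟩ : ∃ v, v = ro b := ⟨_, rfl⟩
  have hvs : Saw v := by rw [hv]; exact (saw_sw hb).sg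
  have hvl : v.length = m := by rw [hv, length_ro, hbl]
  have hvx : dx v = 0 := by rw [hv, dx_ro, hby]; rfl
  have hvy : dy v = k := by rw [hv, dy_ro, hbx]
  obtain ⟨i, j, hi, hj, h1, h2, h3⟩ := glue_exists hu hvs
  have hlen : (u.take i).length = i := by rw [List.length_take]; omega
  refine ⟨⟨(i, j), (u.take i ++ v.drop j, (u.drop i, v.take j))⟩, ?_, ?_⟩
  · rw [Finset.mem_sigma, Finset.mem_product, Finset.mem_product, Finset.mem_product,
      mem_fs, mem_fs, mem_fs, Finset.mem_range, Finset.mem_range]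
    simp only
    refine ⟨⟨by omega, by omega⟩, ⟨⟨h1, by omega, by omega, ?_⟩, ?_⟩, ⟨?_, ?_⟩, ?_, ?_⟩
    · intro l
      rcases le_or_gt l i with h4 | h4
      · rw [path_append_left (by omega), path_take h4]
        exact Or.inl (hulo l)
      · right
        obtain ⟨s, rfl⟩ : ∃ s, l = i + s := ⟨l - i, by omega⟩
        have g := path_append_right (u.take i) (v.drop j) s
        rw [hlen] at g
        rw [g]
        simp only
        have g1 := congrArg Prod.fst (path_drop v j s)
        simp only at g1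
        have g2 : (path v j).1 = dx (v.take j) := rfl
        have f2 : dx v = dx (v.take j) + dx (v.drop j) := by
          rw [← dx_append, List.take_append_drop]
        rw [dx_append] at h2
        have g3 : 0 ≤ (path v (j + s)).1 := by
          rw [hv, path_ro]
          have := hblo (j + s)
          simp only
          omega
        omega
    · rw [List.length_append, hlen, List.length_drop, hvl]
    · exact hu.subw (List.drop_suffix _ _).isInfix
    · rw [List.length_drop, hul]
    · exact hvs.subw (List.take_prefix _ _).isInfix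
    · rw [List.length_take]; omega
  · simp only
    have g1 : (u.take i ++ v.drop j).take i = u.take i := by
      have := List.take_left (l₁ := u.take i) (l₂ := v.drop j)
      rwa [hlen] at this
    have g2 : (u.take i ++ v.drop j).drop i = v.drop j := by
      have := List.drop_left (l₁ := u.take i) (l₂ := v.drop j)
      rwa [hlen] at this
    rw [g1, g2, List.take_append_drop, List.take_append_drop, hv]
    unfold ro
    rw [sg_sg, sw_sw]

/-! ### two corners make a loop -/

theorem bot_of_min {w : List St} (hw : Saw w) {i : ℕ} (h0 : 0 < i) (hi : i < w.length)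
    (hmin : ∀ k, (path w i).2 ≤ (path w k).2) : Bot w := by
  obtain ⟨j, rfl⟩ : ∃ j, i = j + 1 := ⟨i - 1, by omega⟩
  have h1 := path_succ hi
  have h2 := path_succ (w := w) (i := j) (by omega)
  have hs := saw_iff'.1 hw j (j + 2) (by omega) (by omega)
  rcases hc : w[j + 1] with _ | _ | _ | _
  · exact ⟨j + 1, hi, Or.inl hc, hmin⟩
  · exact ⟨j + 1, hi, Or.inr hc, hmin⟩
  · -- `N`
    rcases hd : (w[j]'(by omega)) with _ | _ | _ | _
    · refine ⟨j, by omega, Or.inl hd, fun k => ?_⟩
      rw [hd] at h2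
      have := hmin k
      have h3 := h2.2
      simp only [St.y_E] at h3
      omega
    · refine ⟨j, by omega, Or.inr hd, fun k => ?_⟩
      rw [hd] at h2
      have := hmin k
      have h3 := h2.2
      simp only [St.y_W] at h3
      omega
    · exfalso
      rw [hd] at h2
      have h3 := h2.2
      simp only [St.y_N] at h3
      have := hmin j
      omega
    · exfalso
      rw [hd] at h2
      rw [hc] at h1
      simp only [St.x_N, St.y_N] at h1
      simp only [St.x_S, St.y_S] at h2
      apply hs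
      apply Prod.ext
      · rw [show j + 2 = j + 1 + 1 by ring]; omega
      · rw [show j + 2 = j + 1 + 1 by ring]; omega
  · exfalso
    rw [hc] at h1
    have h3 := h1.2
    simp only [St.y_S] at h3
    have := hmin (j + 1 + 1)
    omega

/-- the closed word encloses a square of side `k`, not below its bottom row -/
def Enc (k : ℕ) (V : List St) : Prop := ∃ a0 b0 : ℤ, (∃ i, (path V i).2 ≤ b0) ∧
  ∀ a b : ℤ, 0 ≤ a → a < k → 0 ≤ b → b < k → Odd (ccr (a0 + a) (b0 + b) V)

/-- the words of the polygons that enclose a square of side `k` -/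
def Cs (k : ℕ) (V : List St) : Prop := Saw V ∧ |dx V| + |dy V| = 1 ∧ Bot V ∧ Enc k V

noncomputable def cs (k m : ℕ) : ℕ := (fs (Cs k) m).card

theorem ix_shift (a b : ℤ) (z p q : ℤ × ℤ) :
    ix (-z.1 + a) (-z.2 + b) (p.1 - z.1, p.2 - z.2) (q.1 - z.1, q.2 - z.2) = ix a b p q := by
  unfold ix
  by_cases h : ((p.1 = a ∧ q.1 = a + 1) ∨ (p.1 = a + 1 ∧ q.1 = a)) ∧ b < p.2
  · rw [if_pos h, if_pos]
    refine ⟨?_, by simp only; omega⟩
    rcases h.1 with h1 | h1
    · left; simp only; omega
    · right; simp only; omega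
  · rw [if_neg h, if_neg]
    rintro ⟨h1, h2⟩
    apply h
    simp only at h1 h2
    refine ⟨?_, by omega⟩
    rcases h1 with h1 | h1
    · left; omega
    · right; omega

/-- edges in the region of the corner do not cross above the square -/
theorem ix_low {k : ℕ} {p q : ℤ × ℤ} (hp : p.2 ≤ 0 ∨ (k : ℤ) ≤ p.1) (hq : q.2 ≤ 0 ∨ (k : ℤ) ≤ q.1)
    (hadj : |q.1 - p.1| + |q.2 - p.2| = 1) {a b : ℤ} (ha : a < k) (hb : 0 ≤ b) :
    ix a b p q = 0 := by
  unfold ix
  rw [if_neg]
  rintro ⟨h1, h2⟩
  have h3 : |q.1 - p.1| = 1 := by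
    rcases h1 with h | h
    · rw [h.1, h.2]; simp
    · rw [h.1, h.2]; simp
  have h4 : |q.2 - p.2| = 0 := by omega
  rw [abs_eq_zero] at h4
  rcases h1 with h | h
  · rcases hp with h5 | h5 <;> omega
  · rcases hq with h5 | h5 <;> omega

/-- edges of the opposite corner that cross are above the square -/
theorem ix_high {k : ℕ} {p q : ℤ × ℤ} (hp : (k : ℤ) ≤ p.2 ∨ p.1 ≤ 0)
    (hq : (k : ℤ) ≤ q.2 ∨ q.1 ≤ 0) (hadj : |q.1 - p.1| + |q.2 - p.2| = 1) {a b : ℤ} (ha : 0 ≤ a)
    (hb : b < k) : ((ix a b p q : ℕ) : ZMod 2) =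
      (if p.1 ≤ a then 1 else 0) + (if q.1 ≤ a then 1 else 0) := by
  have h3 : |q.1 - p.1| ≤ 1 := by
    have := abs_nonneg (q.2 - p.2)
    omega
  rw [abs_le] at h3
  unfold ix
  by_cases h4 : p.1 ≤ a <;> by_cases h5 : q.1 ≤ a
  · rw [if_neg (by rintro ⟨h1, h2⟩; omega), if_pos h4, if_pos h5]
    decide
  · have e1 : p.1 = a := by omega
    have e2 : q.1 = a + 1 := by omega
    have e3 : |q.1 - p.1| = 1 := by rw [e1, e2]; simp
    have e4 : |q.2 - p.2| = 0 := by omega
    rw [abs_eq_zero] at e4
    rw [if_pos ⟨Or.inl ⟨e1, e2⟩, by rcases hq with h | h <;> omega⟩, if_pos h4, if_neg h5]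
    decide
  · have e1 : p.1 = a + 1 := by omega
    have e2 : q.1 = a := by omega
    rw [if_pos ⟨Or.inr ⟨e1, e2⟩, by rcases hp with h | h <;> omega⟩, if_neg h4, if_pos h5]
    decide
  · rw [if_neg (by rintro ⟨h1, h2⟩; omega), if_neg h4, if_neg h5]
    decide

theorem tele (φ : ℕ → ZMod 2) (M : ℕ) :
    ∑ j ∈ range M, (φ j + φ (j + 1)) = φ 0 + φ M := by
  induction M with
  | zero => simp [CharTwo.add_self_eq_zero]
  | succ M ih =>
    rw [Finset.sum_range_succ, ih]
    have : φ M + φ M = 0 := CharTwo.add_self_eq_zero _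
    calc φ 0 + φ M + (φ M + φ (M + 1)) = φ 0 + (φ M + φ M) + φ (M + 1) := by ring
      _ = _ := by rw [this, add_zero]

theorem adj_path {w : List St} {i : ℕ} (hi : i < w.length) :
    |(path w (i + 1)).1 - (path w i).1| + |(path w (i + 1)).2 - (path w i).2| = 1 := by
  obtain ⟨h1, h2⟩ := path_succ hi
  rw [h1, h2]
  cases (w[i]) <;> simp

/-- the loop made of two corners -/
theorem loop_exists {k : ℕ} (hk : 1 ≤ k) {u v : List St} (hu : LL k u) (hv : LL k v) :
    ∃ j1 m2 j3 m1, j1 + m2 ≤ u.length ∧ j3 + m1 ≤ v.length ∧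
      Cs k (ng (sg ((v.drop j3).take m1)) ++ (u.drop j1).take m2) := by
  classical
  obtain ⟨hu1, hux, huy, hur⟩ := hu
  obtain ⟨hv1, hvx, hvy, hvr⟩ := hv
  have hk' : (1 : ℤ) ≤ k := by exact_mod_cast hk
  have hP : ∃ i, (k : ℤ) ≤ (path u i).1 ∧ (k : ℤ) ≤ (path u i).2 ∧
      ∃ j, j ≤ v.length ∧ path u i = ((k : ℤ) - (path v j).1, (k : ℤ) - (path v j).2) := by
    refine ⟨u.length, ?_, ?_, 0, Nat.zero_le _, ?_⟩
    · rw [path_len, hux]
    · rw [path_len, huy]
    · rw [path_len, hux, huy, path_zero']; simp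
  obtain ⟨i2, hi2⟩ : ∃ i2, i2 = Nat.find hP := ⟨_, rfl⟩
  have hspec := Nat.find_spec hP
  rw [← hi2] at hspec
  obtain ⟨n1, n2, j3, hj3, hj3e⟩ := hspec
  have hmin2 : ∀ i, (k : ℤ) ≤ (path u i).1 → (k : ℤ) ≤ (path u i).2 →
      (∃ j, j ≤ v.length ∧ path u i = ((k : ℤ) - (path v j).1, (k : ℤ) - (path v j).2)) →
      i2 ≤ i := by
    intro i g1 g2 g3
    rw [hi2]
    exact Nat.find_min' hP ⟨g1, g2, g3⟩
  have hi2l : i2 ≤ u.length := by
    apply hmin2
    · rw [path_len, hux]
    · rw [path_len, huy]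
    · exact ⟨0, Nat.zero_le _, by rw [path_len, hux, huy, path_zero']; simp⟩
  have hj3l : j3 < v.length := by
    rcases Nat.lt_or_ge j3 v.length with h | h
    · exact h
    · exfalso
      have h1 : j3 = v.length := le_antisymm hj3 h
      rw [h1, path_len, hvx, hvy] at hj3e
      have h2 := congrArg Prod.fst hj3e
      simp only at h2
      omega
  have hQ : ∃ j, j3 < j ∧ j ≤ v.length ∧
      ∃ i, i ≤ i2 ∧ path u i = ((k : ℤ) - (path v j).1, (k : ℤ) - (path v j).2) :=
    ⟨v.length, hj3l, le_rfl, 0, Nat.zero_le _, by rw [path_zero', path_len, hvx, hvy]; simp⟩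
  obtain ⟨i4, hi4⟩ : ∃ i4, i4 = Nat.find hQ := ⟨_, rfl⟩
  have hspec4 := Nat.find_spec hQ
  rw [← hi4] at hspec4
  obtain ⟨q1, q2, j1, hj1, hj1e⟩ := hspec4
  have hmin4 : ∀ j, j3 < j → j < i4 → ∀ i ≤ i2,
      path u i ≠ ((k : ℤ) - (path v j).1, (k : ℤ) - (path v j).2) := by
    intro j g1 g2 i g3 g4
    rw [hi4] at g2
    exact Nat.find_min hQ g2 ⟨g1, by omega, i, g3, g4⟩
  -- the second corner is at the origin
  have hnear : (path u j1).1 ≤ 0 ∧ (path u j1).2 ≤ 0 := by
    have e1 := congrArg Prod.fst hj1e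
    have e2 := congrArg Prod.snd hj1e
    simp only at e1 e2
    rcases hur j1 with h | h <;> rcases hvr i4 with h' | h'
    · omega
    · exact ⟨by omega, h⟩
    · exfalso
      have h3 := hmin2 j1 h (by omega) ⟨i4, q2, hj1e⟩
      have h4 : j1 = i2 := le_antisymm hj1 h3
      rw [h4] at e1 e2
      have e3 := congrArg Prod.fst hj3e
      have e4 := congrArg Prod.snd hj3e
      simp only at e3 e4
      exact saw_iff'.1 hv1 j3 i4 q1 q2 (Prod.ext (by omega) (by omega))
    · omega
  have hj12 : j1 + 2 ≤ i2 := by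
    by_contra hcon
    rcases Nat.lt_or_ge j1 i2 with h | h
    · have h1 : i2 = j1 + 1 := by omega
      have h2 := adj_path (w := u) (i := j1) (by omega)
      rw [← h1] at h2
      have h3 := le_abs_self ((path u i2).1 - (path u j1).1)
      have h4 := le_abs_self ((path u i2).2 - (path u j1).2)
      omega
    · have h1 : i2 = j1 := le_antisymm h hj1
      rw [h1] at n1
      omega
  obtain ⟨m2, hm2⟩ : ∃ m2, m2 = i2 - 1 - j1 := ⟨_, rfl⟩
  obtain ⟨m1, hm1⟩ : ∃ m1, m1 = i4 - j3 := ⟨_, rfl⟩
  refine ⟨j1, m2, j3, m1, by omega, by omega, ?_⟩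
  obtain ⟨P1, hP1⟩ : ∃ P1, P1 = ng (sg ((v.drop j3).take m1)) := ⟨_, rfl⟩
  obtain ⟨P2, hP2⟩ : ∃ P2, P2 = (u.drop j1).take m2 := ⟨_, rfl⟩
  rw [← hP1, ← hP2]
  have hl1 : P1.length = m1 := by
    rw [hP1, length_ng, length_sg, List.length_take, List.length_drop]; omega
  have hl2 : P2.length = m2 := by
    rw [hP2, List.length_take, List.length_drop]; omega
  obtain ⟨z, hz⟩ : ∃ z, z = path u i2 := ⟨_, rfl⟩
  rw [← hz] at n1 n2 hj3e
  have hz1 := congrArg Prod.fst hj3e
  have hz2 := congrArg Prod.snd hj3e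
  simp only at hz1 hz2
  -- positions
  have pos1 : ∀ s ≤ m1, path (P1 ++ P2) s =
      ((k : ℤ) - (path v (j3 + s)).1 - z.1, (k : ℤ) - (path v (j3 + s)).2 - z.2) := by
    intro s hs
    rw [path_append_left (by omega), hP1, path_rot, path_take hs]
    have h1 := path_drop v j3 s
    rw [h1]
    apply Prod.ext
    · simp only; omega
    · simp only; omega
  have hd1 : dx P1 = (path u j1).1 - z.1 ∧ dy P1 = (path u j1).2 - z.2 := by
    have h1 := pos1 m1 le_rfl
    rw [path_append_left (by omega), ← hl1, path_len, hl1] at h1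
    have e1 := congrArg Prod.fst hj1e
    have e2 := congrArg Prod.snd hj1e
    simp only at e1 e2
    have h2 := congrArg Prod.fst h1
    have h3 := congrArg Prod.snd h1
    simp only at h2 h3
    rw [show j3 + m1 = i4 by omega] at h2 h3
    omega
  have pos2 : ∀ t ≤ m2, path (P1 ++ P2) (m1 + t) =
      ((path u (j1 + t)).1 - z.1, (path u (j1 + t)).2 - z.2) := by
    intro t ht
    have h1 := path_append_right P1 P2 t
    rw [hl1] at h1
    rw [h1, hP2, path_take ht]
    have h2 := path_drop u j1 t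
    rw [h2]
    apply Prod.ext
    · simp only; omega
    · simp only; omega
  have hlen : (P1 ++ P2).length = m1 + m2 := by rw [List.length_append, hl1, hl2]
  have hend : (dx (P1 ++ P2), dy (P1 ++ P2)) =
      ((path u (i2 - 1)).1 - z.1, (path u (i2 - 1)).2 - z.2) := by
    have h1 := pos2 m2 le_rfl
    rw [← hlen, path_len, show j1 + m2 = i2 - 1 by omega] at h1
    exact h1
  have hadj := adj_path (w := u) (i := i2 - 1) (by omega)
  rw [show i2 - 1 + 1 = i2 by omega, ← hz] at hadj
  have hsaw : Saw (P1 ++ P2) := by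
    rw [saw_iff']
    intro i j hij hj
    rw [hlen] at hj
    rcases le_or_gt j m1 with h1 | h1
    · rw [pos1 i (by omega), pos1 j h1]
      intro he
      obtain ⟨e1, e2⟩ := Prod.mk.inj he
      exact saw_iff'.1 hv1 (j3 + i) (j3 + j) (by omega) (by omega) (Prod.ext (by omega) (by omega))
    · obtain ⟨t, rfl⟩ : ∃ t, j = m1 + t := ⟨j - m1, by omega⟩
      rw [pos2 t (by omega)]
      rcases Nat.lt_or_ge i m1 with h2 | h2
      · rw [pos1 i h2.le]
        intro he
        obtain ⟨e1, e2⟩ := Prod.mk.inj he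
        rcases Nat.eq_zero_or_pos i with h3 | h3
        · subst h3
          rw [add_zero] at e1 e2
          exact saw_iff'.1 hu1 (j1 + t) i2 (by omega) hi2l
            (Prod.ext (by rw [← hz]; omega) (by rw [← hz]; omega))
        · exact hmin4 (j3 + i) (by omega) (by omega) (j1 + t) (by omega)
            (Prod.ext (by simp only; omega) (by simp only; omega))
      · obtain ⟨s, rfl⟩ : ∃ s, i = m1 + s := ⟨i - m1, by omega⟩
        rw [pos2 s (by omega)]
        intro he
        obtain ⟨e1, e2⟩ := Prod.mk.inj he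
        exact saw_iff'.1 hu1 (j1 + s) (j1 + t) (by omega) (by omega)
          (Prod.ext (by omega) (by omega))
  refine ⟨hsaw, ?_, ?_, ?_⟩
  · have e1 := congrArg Prod.fst hend
    have e2 := congrArg Prod.snd hend
    simp only at e1 e2
    rw [e1, e2]
    have h1 : |(path u (i2 - 1)).1 - z.1| = |z.1 - (path u (i2 - 1)).1| := abs_sub_comm _ _
    have h2 : |(path u (i2 - 1)).2 - z.2| = |z.2 - (path u (i2 - 1)).2| := abs_sub_comm _ _
    rw [h1, h2]
    exact hadj
  · -- a bottom edge
    obtain ⟨i0, hi0, hmax⟩ : ∃ i ∈ range ((P1 ++ P2).length + 1),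
        ∀ k ∈ range ((P1 ++ P2).length + 1), (path (P1 ++ P2) i).2 ≤ (path (P1 ++ P2) k).2 :=
      Finset.exists_min_image (range ((P1 ++ P2).length + 1))
        (fun k => (path (P1 ++ P2) k).2) ⟨0, by simp⟩
    have hmin' : ∀ k, (path (P1 ++ P2) i0).2 ≤ (path (P1 ++ P2) k).2 := by
      intro k
      rcases le_or_gt k (P1 ++ P2).length with h | h
      · exact hmax k (by rw [Finset.mem_range]; omega)
      · rw [path_ge h.le]
        exact hmax _ (by rw [Finset.mem_range]; omega)
    rw [Finset.mem_range, hlen] at hi0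
    have hM := congrArg Prod.snd (pos2 0 (Nat.zero_le _))
    simp only [add_zero] at hM
    rcases le_or_gt (path (P1 ++ P2) m1).2 (path (P1 ++ P2) i0).2 with h | h
    · exact bot_of_min hsaw (i := m1) (by omega) (by omega) (fun k => h.trans (hmin' k))
    · apply bot_of_min hsaw (i := i0) _ _ hmin'
      · rcases Nat.eq_zero_or_pos i0 with h0 | h0
        · exfalso
          subst h0
          rw [path_zero'] at h
          simp only at h
          omega
        · exact h0
      · rcases Nat.lt_or_ge i0 (P1 ++ P2).length with h0 | h0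
        · exact h0
        · exfalso
          have h1 : i0 = (P1 ++ P2).length := by omega
          rw [h1, path_len] at h
          simp only at h
          have e2 := congrArg Prod.snd hend
          simp only at e2
          have h3 := le_abs_self (z.2 - (path u (i2 - 1)).2)
          have h4 := abs_nonneg (z.1 - (path u (i2 - 1)).1)
          omega
  · refine ⟨-z.1, -z.2, ⟨m1, ?_⟩, ?_⟩
    · have hM := congrArg Prod.snd (pos2 0 (Nat.zero_le _))
      simp only [add_zero] at hM
      omega
    · intro a b ha0 ha1 hb0 hb1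
      unfold ccr
      rw [hlen, Finset.sum_range_add]
      have hS2 : ∑ t ∈ range m2, ix (-z.1 + a) (-z.2 + b) (path (P1 ++ P2) (m1 + t))
          (path (P1 ++ P2) (m1 + t + 1)) = 0 := by
        apply Finset.sum_eq_zero
        intro t ht
        rw [Finset.mem_range] at ht
        rw [pos2 t ht.le, show m1 + t + 1 = m1 + (t + 1) by ring, pos2 (t + 1) (by omega), ix_shift]
        exact ix_low (hur _) (hur _) (adj_path (w := u) (i := j1 + t) (by omega)) ha1 hb0
      have hS3 : ix (-z.1 + a) (-z.2 + b) (path (P1 ++ P2) (m1 + m2)) (0, 0) = 0 := by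
        rw [pos2 m2 le_rfl, show j1 + m2 = i2 - 1 by omega]
        have h0 : ((0, 0) : ℤ × ℤ) = (z.1 - z.1, z.2 - z.2) := by simp
        rw [h0, ix_shift]
        apply ix_low (hur _) _ hadj ha1 hb0
        rw [hz]
        exact hur _
      rw [hS2, hS3, add_zero, add_zero, ← ZMod.natCast_eq_one_iff_odd]
      have hS1 : ((∑ s ∈ range m1, ix (-z.1 + a) (-z.2 + b) (path (P1 ++ P2) s)
          (path (P1 ++ P2) (s + 1)) : ℕ) : ZMod 2) =
          ∑ s ∈ range m1, ((if (k : ℤ) - (path v (j3 + s)).1 ≤ a then 1 else 0 : ZMod 2) +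
            (if (k : ℤ) - (path v (j3 + (s + 1))).1 ≤ a then 1 else 0)) := by
        rw [Nat.cast_sum]
        apply Finset.sum_congr rfl
        intro s hs
        rw [Finset.mem_range] at hs
        rw [pos1 s hs.le, pos1 (s + 1) (by omega)]
        have h1 := ix_shift a b z ((k : ℤ) - (path v (j3 + s)).1, (k : ℤ) - (path v (j3 + s)).2)
          ((k : ℤ) - (path v (j3 + (s + 1))).1, (k : ℤ) - (path v (j3 + (s + 1))).2)
        simp only at h1
        rw [h1]
        have h2 := adj_path (w := v) (i := j3 + s) (by omega)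
        have r1 := hvr (j3 + s)
        have r2 := hvr (j3 + (s + 1))
        apply ix_high (k := k) (by simp only; omega) (by simp only; omega) _ ha0 hb1
        simp only
        rw [show j3 + (s + 1) = j3 + s + 1 by ring]
        have e1 : (k : ℤ) - (path v (j3 + s + 1)).1 - ((k : ℤ) - (path v (j3 + s)).1) =
          -((path v (j3 + s + 1)).1 - (path v (j3 + s)).1) := by ring
        have e2 : (k : ℤ) - (path v (j3 + s + 1)).2 - ((k : ℤ) - (path v (j3 + s)).2) =
          -((path v (j3 + s + 1)).2 - (path v (j3 + s)).2) := by ring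
        rw [e1, e2, abs_neg, abs_neg]
        exact h2
      rw [hS1, tele (fun s => if (k : ℤ) - (path v (j3 + s)).1 ≤ a then 1 else 0) m1]
      simp only [add_zero]
      have e1 := congrArg Prod.fst hj1e
      simp only at e1
      rw [if_neg (by omega), if_pos (by rw [show j3 + m1 = i4 by omega]; omega)]
      decide

end Pool.Agent.TH262.SawL
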