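import Pool.Agent.TH262.SawL.Equiv

/-!
The exponents of the correlation length in terms of the rate function on the axis.
-/

set_option autoImplicit false

namespace Pool.Agent.TH262.SawL

open Pool.Agent.TH795.EP Pool.Agent.TH262.SawE H981 Finset Filter Topology

/-- the upper half of the exponent, in terms of the rate function -/
def RUp (θ : ℝ) : Prop := ∀ ε : ℝ, 0 < ε → ∃ δ : ℝ, 0 < δ ∧ ∀ᶠ n : ℕ in atTop,
  ∀ k : ℕ, (n : ℝ) ^ (θ + ε) ≤ k → k < n → (n : ℝ) ^ δ ≤ n * R ((k : ℝ) / n)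

/-- the lower half of the exponent, in terms of the rate function -/
def RLow (θ : ℝ) : Prop := ∀ ε : ℝ, 0 < ε → ∀ δ : ℝ, 0 < δ → ∀ᶠ n : ℕ in atTop,
  ∃ k : ℕ, (n : ℝ) ^ (θ - ε) ≤ k ∧ k < n ∧ n * R ((k : ℝ) / n) ≤ (n : ℝ) ^ δ

theorem massLow_rUp {θ : ℝ} (M : MassLow θ) : RUp θ := by
  intro ε hε
  refine ⟨ε / 4, by linarith, ?_⟩
  filter_upwards [ev_inv (M (ε / 2) (by linarith)), ev_pow 4 (show ε / 4 < ε / 2 by linarith),
    ev_pow 2 (show (0 : ℝ) < ε / 2 by linarith), ev_pow 4 (show (0 : ℝ) < ε / 2 by linarith),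
    eventually_ge_atTop 2] with n hn1 hn2 hn3 hn3' hn4
  intro k hk hkn
  have hn0 : (0 : ℝ) < n := by exact_mod_cast (by omega : 0 < n)
  have hm : 0 < mass (1 / (n : ℝ)) := mass_pos (by positivity)
  obtain ⟨h, hh⟩ : ∃ h, h = mass (1 / (n : ℝ)) / 2 := ⟨_, rfl⟩
  have h0 : 0 ≤ h := by rw [hh]; linarith
  have h1 : psi h ≤ 1 / n := psi_le_of_lt (by positivity) h0 (by rw [hh]; linarith)
  have hkn' : (k : ℝ) / n ≤ 1 := by
    rw [div_le_one hn0]
    exact_mod_cast hkn.le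
  have h2 := young (by positivity) hkn' h
  have h3 : (n : ℝ) * psi h ≤ 1 := by
    rw [le_div_iff₀ hn0] at h1
    linarith
  have h4 : h * k ≤ n * R ((k : ℝ) / n) + 1 := by
    have h5 := mul_le_mul_of_nonneg_left h2 hn0.le
    have h6 : (n : ℝ) * (h * (k / n)) = h * k := by field_simp
    rw [h6] at h5
    linarith
  have h5 : (n : ℝ) ^ (ε / 2) / 2 ≤ h * k := by
    have h6 : (1 / (n : ℝ)) ^ (θ + ε / 2) * (n : ℝ) ^ (θ + ε) = (n : ℝ) ^ (ε / 2) := by
      rw [one_div, Real.inv_rpow hn0.le, ← Real.rpow_neg hn0.le, ← Real.rpow_add hn0]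
      congr 1
      ring
    have h7 : (1 / (n : ℝ)) ^ (θ + ε / 2) / 2 ≤ h := by rw [hh]; linarith
    have h8 : 0 ≤ (n : ℝ) ^ (θ + ε) := Real.rpow_nonneg hn0.le _
    calc (n : ℝ) ^ (ε / 2) / 2 = (1 / (n : ℝ)) ^ (θ + ε / 2) / 2 * (n : ℝ) ^ (θ + ε) := by
          rw [← h6]; ring
      _ ≤ h * k := mul_le_mul h7 hk h8 h0
  rw [Real.rpow_zero, mul_one] at hn3'
  linarith

theorem rUp_massLow {θ : ℝ} (hθ0 : 0 < θ) (hθ1 : θ < 1) (A : RUp θ) : MassLow θ := by
  intro η hη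
  obtain ⟨η', hη'⟩ : ∃ η', η' = min η ((1 - θ) / 2) := ⟨_, rfl⟩
  have h0 : 0 < η' := by rw [hη']; exact lt_min hη (by linarith)
  have h1 : θ + η' < 1 := by
    have : η' ≤ (1 - θ) / 2 := by rw [hη']; exact min_le_right _ _
    linarith
  obtain ⟨δ, hδ, hA⟩ := A (η' / 2) (by linarith)
  apply ev_floor
  filter_upwards [hA, ev_pow 1 hδ, ev_pow 4 (show θ + η' / 2 < θ + η' by linarith),
    ev_pow 8 (show (0 : ℝ) < θ + η' by linarith), eventually_ge_atTop 2] with n hn1 hn2 hn3 hn4 hn5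
  intro e he0 he1 he2
  have hn0 : (0 : ℝ) < n := by exact_mod_cast (by omega : 0 < n)
  have hn1' : (1 : ℝ) ≤ n := by exact_mod_cast (by omega : 1 ≤ n)
  have hn2' : (2 : ℝ) ≤ n := by exact_mod_cast hn5
  have hele : e < 1 := lt_of_le_of_lt he1 (by rw [div_lt_one hn0]; linarith)
  obtain ⟨v, hv⟩ : ∃ v, v = e ^ (1 - (θ + η')) := ⟨_, rfl⟩
  have hv0 : 0 < v := by rw [hv]; exact Real.rpow_pos_of_pos he0 _
  have hv1 : v < 1 := by rw [hv]; exact Real.rpow_lt_one he0.le hele (by linarith)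
  have hvn : (n : ℝ) ^ (θ + η') / 2 ≤ v * n := by
    have h2 : (1 / ((n : ℝ) + 1)) ^ (1 - (θ + η')) ≤ v := by
      rw [hv]
      exact Real.rpow_le_rpow (by positivity) he2.le (by linarith)
    have h3 : (1 / ((n : ℝ) + 1)) ^ (1 - (θ + η')) * ((n : ℝ) + 1) =
        ((n : ℝ) + 1) ^ (θ + η') := by
      rw [one_div, Real.inv_rpow (by positivity), ← Real.rpow_neg (by positivity)]
      nth_rw 2 [← Real.rpow_one ((n : ℝ) + 1)]
      rw [← Real.rpow_add (by positivity)]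
      congr 1
      ring
    have h4 : (n : ℝ) ^ (θ + η') ≤ ((n : ℝ) + 1) ^ (θ + η') :=
      Real.rpow_le_rpow hn0.le (by linarith) (by linarith)
    have h5 : ((n : ℝ) + 1) ≤ 2 * n := by linarith
    calc (n : ℝ) ^ (θ + η') / 2 ≤ ((1 / ((n : ℝ) + 1)) ^ (1 - (θ + η')) * ((n : ℝ) + 1)) / 2 := by
          rw [h3]; linarith
      _ ≤ (v * (2 * n)) / 2 := by
          apply div_le_div_of_nonneg_right _ (by norm_num)
          exact mul_le_mul h2 h5 (by positivity) hv0.le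
      _ = v * n := by ring
  rw [Real.rpow_zero, mul_one] at hn4
  have hvn2 : 2 ≤ v * n := by linarith
  obtain ⟨k, hk1, hk2, -⟩ := adjust n hvn2
  have hr : (n : ℝ) ^ (θ + η' / 2) ≤ k := by linarith
  have hk0 : (0 : ℝ) < k := lt_of_lt_of_le (Real.rpow_pos_of_pos hn0 _) hr
  have hkn : k < n := by
    have : (k : ℝ) < n := by nlinarith
    exact_mod_cast this
  have h6 := hn1 k hr hkn
  rw [Real.rpow_zero, mul_one] at hn2
  have h8 : 1 ≤ n * R ((k : ℝ) / n) := hn2.trans h6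
  have h9 : R ((k : ℝ) / n) ≤ R v := by
    apply R_mono (by positivity) _ hv1.le
    rw [div_le_iff₀ hn0]
    exact hk1
  have h10 : e ≤ R v := by
    refine he1.trans ?_
    rw [div_le_iff₀ hn0]
    nlinarith
  have h11 := psi_le_of_R hv0 hv1.le he0.le h10
  have h12 : e / v = e ^ (θ + η') := by
    rw [hv]
    nth_rw 1 [← Real.rpow_one e]
    rw [← Real.rpow_sub he0]
    congr 1
    ring
  rw [h12] at h11
  have h13 := le_mass (Real.rpow_nonneg he0.le _) h11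
  refine le_trans ?_ h13
  apply Real.rpow_le_rpow_of_exponent_ge he0 hele.le
  have : η' ≤ η := by rw [hη']; exact min_le_left _ _
  linarith

theorem rLow_massUp {θ : ℝ} (hθ0 : 0 < θ) (hθ1 : θ < 1) (B : RLow θ) : MassUp θ := by
  intro η hη
  obtain ⟨η', hη'⟩ : ∃ η', η' = min η (θ / 2) := ⟨_, rfl⟩
  have h0 : 0 < η' := by rw [hη']; exact lt_min hη (by linarith)
  have h1 : η' ≤ θ / 2 := by rw [hη']; exact min_le_right _ _
  apply ev_floor
  filter_upwards [B (η' / 4) (by linarith) (η' / 8) (by linarith),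
    ev_pow 1 (show (0 : ℝ) < η' / 8 by linarith),
    ev_pow 2 (show -(θ - 3 * η' / 8) < -(θ - η' / 2) by linarith),
    ev_pow 2 (show θ - η' < θ - η' / 2 by linarith), eventually_ge_atTop 2] with
    n hn1 hn2 hn3 hn4 hn5
  intro e he0 he1 he2
  have hn0 : (0 : ℝ) < n := by exact_mod_cast (by omega : 0 < n)
  have hn1' : (1 : ℝ) ≤ n := by exact_mod_cast (by omega : 1 ≤ n)
  have hele : e ≤ 1 := he1.trans (by rw [div_le_one hn0]; exact hn1')
  rw [Real.rpow_zero, mul_one] at hn2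
  have hm1 : mass (1 / (n : ℝ)) ≤ (n : ℝ) ^ (-(θ - η' / 2)) := by
    by_contra hcon
    push Not at hcon
    have hp : 0 ≤ (n : ℝ) ^ (-(θ - η' / 2)) := Real.rpow_nonneg hn0.le _
    have h2 := psi_le_of_lt (by positivity) hp hcon
    obtain ⟨k, hk1, hk2, hk3⟩ := hn1
    have hkn : (k : ℝ) / n ≤ 1 := by
      rw [div_le_one hn0]
      exact_mod_cast hk2.le
    have h3 := young (by positivity) hkn ((n : ℝ) ^ (-(θ - η' / 2)))
    have h4 := mul_le_mul_of_nonneg_left h3 hn0.le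
    have h5 : (n : ℝ) * ((n : ℝ) ^ (-(θ - η' / 2)) * (k / n)) = (n : ℝ) ^ (-(θ - η' / 2)) * k := by
      field_simp
    rw [h5] at h4
    have h6 : (n : ℝ) * psi ((n : ℝ) ^ (-(θ - η' / 2))) ≤ 1 := by
      rw [le_div_iff₀ hn0] at h2
      linarith
    have h7 : (n : ℝ) ^ (-(θ - η' / 2)) * (n : ℝ) ^ (θ - η' / 4) ≤ 2 * (n : ℝ) ^ (η' / 8) := by
      refine (mul_le_mul_of_nonneg_left hk1 hp).trans ?_
      linarith
    have h8 : 2 * (n : ℝ) ^ (-(θ - 3 * η' / 8)) * (n : ℝ) ^ (θ - η' / 4) =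
        2 * (n : ℝ) ^ (η' / 8) := by
      rw [mul_assoc, ← Real.rpow_add hn0]
      congr 2
      ring
    have h9 : 0 < (n : ℝ) ^ (θ - η' / 4) := Real.rpow_pos_of_pos hn0 _
    have h10 : (n : ℝ) ^ (-(θ - η' / 2)) ≤ 2 * (n : ℝ) ^ (-(θ - 3 * η' / 8)) := by
      apply le_of_mul_le_mul_right _ h9
      rw [h8]
      exact h7
    have h11 : (n : ℝ) ^ (-(θ - 3 * η' / 8)) < (n : ℝ) ^ (-(θ - η' / 2)) := by
      have := Real.rpow_pos_of_pos hn0 (-(θ - 3 * η' / 8))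
      linarith
    -- contradiction with `hn3` after doubling the exponent gap
    have h12 : (n : ℝ) ^ (-(θ - η' / 2)) = 2 * (n : ℝ) ^ (-(θ - 3 * η' / 8)) := le_antisymm h10 hn3
    -- strictness
    have h13 : (n : ℝ) ^ (-(θ - η' / 2)) < mass (1 / (n : ℝ)) := hcon
    -- a slightly larger slope
    obtain ⟨h', hh1, hh2⟩ := exists_between h13
    have hp' : 0 ≤ h' := hp.trans hh1.le
    have g2 := psi_le_of_lt (by positivity) hp' hh2
    have g3 := young (by positivity) hkn h'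
    have g4 := mul_le_mul_of_nonneg_left g3 hn0.le
    have g5 : (n : ℝ) * (h' * (k / n)) = h' * k := by field_simp
    rw [g5] at g4
    have g6 : (n : ℝ) * psi h' ≤ 1 := by
      rw [le_div_iff₀ hn0] at g2
      linarith
    have g7 : h' * (n : ℝ) ^ (θ - η' / 4) ≤ 2 * (n : ℝ) ^ (η' / 8) := by
      refine (mul_le_mul_of_nonneg_left hk1 hp').trans ?_
      linarith
    have g8 : h' ≤ 2 * (n : ℝ) ^ (-(θ - 3 * η' / 8)) := by
      apply le_of_mul_le_mul_right _ h9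
      rw [h8]
      exact g7
    linarith
  have h2 : mass e ≤ (n : ℝ) ^ (-(θ - η' / 2)) := (mass_mono he0.le he1).trans hm1
  have h3 : (n : ℝ) ^ (-(θ - η' / 2)) ≤ (1 / ((n : ℝ) + 1)) ^ (θ - η') := by
    rw [one_div, Real.inv_rpow (by positivity), Real.rpow_neg hn0.le]
    apply inv_anti₀ (Real.rpow_pos_of_pos (by positivity) _)
    refine le_trans ?_ hn4
    calc ((n : ℝ) + 1) ^ (θ - η') ≤ (2 * n) ^ (θ - η') :=
          Real.rpow_le_rpow (by positivity) (by linarith) (by linarith)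
      _ = 2 ^ (θ - η') * (n : ℝ) ^ (θ - η') := Real.mul_rpow (by norm_num) hn0.le
      _ ≤ 2 * (n : ℝ) ^ (θ - η') := by
          apply mul_le_mul_of_nonneg_right _ (Real.rpow_nonneg hn0.le _)
          calc (2 : ℝ) ^ (θ - η') ≤ 2 ^ (1 : ℝ) :=
                Real.rpow_le_rpow_of_exponent_le (by norm_num) (by linarith)
            _ = 2 := Real.rpow_one 2
  calc mass e ≤ (1 / ((n : ℝ) + 1)) ^ (θ - η') := h2.trans h3
    _ ≤ e ^ (θ - η') := Real.rpow_le_rpow (by positivity) he2.le (by linarith)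
    _ ≤ e ^ (θ - η) := by
        apply Real.rpow_le_rpow_of_exponent_ge he0 hele
        have : η' ≤ η := by rw [hη']; exact min_le_left _ _
        linarith

theorem massUp_rLow {θ : ℝ} (hθ0 : 0 < θ) (hθ1 : θ < 1) (M : MassUp θ) : RLow θ := by
  intro ε hε δ hδ
  obtain ⟨ε', hε'⟩ : ∃ ε', ε' = min ε (θ / 2) := ⟨_, rfl⟩
  obtain ⟨δ', hδ'⟩ : ∃ δ', δ' = min δ (1 / 2) := ⟨_, rfl⟩
  have e0 : 0 < ε' := by rw [hε']; exact lt_min hε (by linarith)
  have e1 : ε' ≤ θ / 2 := by rw [hε']; exact min_le_right _ _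
  have e2 : ε' ≤ ε := by rw [hε']; exact min_le_left _ _
  have d0 : 0 < δ' := by rw [hδ']; exact lt_min hδ (by norm_num)
  have d1 : δ' ≤ 1 / 2 := by rw [hδ']; exact min_le_right _ _
  have d2 : δ' ≤ δ := by rw [hδ']; exact min_le_left _ _
  -- the hypothesis at `n ^ (δ' - 1) / 2`
  have hM : ∀ᶠ n : ℕ in atTop, mass ((n : ℝ) ^ (δ' - 1) / 2) ≤
      ((n : ℝ) ^ (δ' - 1) / 2) ^ (θ - ε' / 2) := by
    have h1 : Tendsto (fun n : ℕ => (n : ℝ) ^ (δ' - 1) / 2) atTop (𝓝[>] 0) := by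
      rw [tendsto_nhdsWithin_iff]
      constructor
      · have h2 : Tendsto (fun n : ℕ => (n : ℝ) ^ (δ' - 1)) atTop (𝓝 0) := by
          have h3 := (tendsto_rpow_neg_atTop (show 0 < 1 - δ' by linarith)).comp
            tendsto_natCast_atTop_atTop
          refine h3.congr ?_
          intro n
          simp only [Function.comp]
          congr 1
          ring
        have h4 := h2.div_const 2
        rw [zero_div] at h4
        exact h4
      · filter_upwards [eventually_ge_atTop 1] with n hn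
        have hn0 : (0 : ℝ) < n := by exact_mod_cast hn
        have := Real.rpow_pos_of_pos hn0 (δ' - 1)
        show 0 < (n : ℝ) ^ (δ' - 1) / 2
        linarith
    exact h1.eventually (M (ε' / 2) (by linarith))
  filter_upwards [hM, ev_pow 2 (show (0 : ℝ) < θ - ε' by linarith),
    ev_pow 4 (show θ - ε' < 1 by linarith),
    ev_pow 7 (show -(1 - δ') * (θ - ε' / 2) < δ' - θ + ε' by nlinarith),
    eventually_ge_atTop 2] with n hn1 hn3 hn4 hn5 hn6
  have hn0 : (0 : ℝ) < n := by exact_mod_cast (by omega : 0 < n)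
  have hn1' : (1 : ℝ) ≤ n := by exact_mod_cast (by omega : 1 ≤ n)
  rw [Real.rpow_zero, mul_one] at hn3
  rw [Real.rpow_one] at hn4
  obtain ⟨k, hk1, hk2, hk3⟩ := adjust n (x := (n : ℝ) ^ (θ - ε') + 2) (by linarith)
  have hr : (n : ℝ) ^ (θ - ε') ≤ k := by linarith
  have hk0 : (0 : ℝ) < k := by linarith
  have hkn : k < n := by
    have : (k : ℝ) < n := by linarith
    exact_mod_cast this
  have hk1' : 1 ≤ k := by exact_mod_cast hk0
  obtain ⟨ρ, hρ⟩ : ∃ ρ, ρ = (n : ℝ) ^ (δ' - 1) / 2 := ⟨_, rfl⟩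
  have hρ0 : 0 < ρ := by
    have := Real.rpow_pos_of_pos hn0 (δ' - 1)
    rw [hρ]; linarith
  have hnρ : (n : ℝ) * ρ = (n : ℝ) ^ δ' / 2 := by
    rw [hρ]
    have : (n : ℝ) * (n : ℝ) ^ (δ' - 1) = (n : ℝ) ^ δ' := by
      nth_rw 1 [← Real.rpow_one (n : ℝ)]
      rw [← Real.rpow_add hn0]
      congr 1
      ring
    linarith
  have hR : R ((k : ℝ) / n) ≤ ρ := by
    by_contra hcon
    push Not at hcon
    have hv0 : 0 < (k : ℝ) / n := by positivity
    have hv1 : (k : ℝ) / n ≤ 1 := by rw [div_le_one hn0]; exact_mod_cast hkn.le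
    have h1 := psi_le_of_R hv0 hv1 hρ0.le hcon.le
    have h2 := le_mass (by positivity) h1
    rw [← hρ] at hn1
    have h3 := h2.trans hn1
    have h4 : ρ / ((k : ℝ) / n) = (n : ℝ) ^ δ' / (2 * k) := by
      rw [div_div_eq_mul_div, mul_comm ρ, hnρ]
      field_simp
    rw [h4, div_le_iff₀ (by positivity)] at h3
    have h5 : ρ ^ (θ - ε' / 2) ≤ (n : ℝ) ^ (-(1 - δ') * (θ - ε' / 2)) := by
      rw [Real.rpow_mul hn0.le]
      apply Real.rpow_le_rpow hρ0.le _ (by linarith)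
      have := Real.rpow_pos_of_pos hn0 (δ' - 1)
      rw [show -(1 - δ') = δ' - 1 by ring, hρ]
      linarith
    have h6 : 2 * (k : ℝ) ≤ 6 * (n : ℝ) ^ (θ - ε') := by linarith
    have h7 : (n : ℝ) ^ δ' ≤ (n : ℝ) ^ (-(1 - δ') * (θ - ε' / 2)) * (6 * (n : ℝ) ^ (θ - ε')) := by
      refine h3.trans ?_
      exact mul_le_mul h5 h6 (by positivity) (Real.rpow_nonneg hn0.le _)
    have h8 : (n : ℝ) ^ δ' = (n : ℝ) ^ (δ' - θ + ε') * (n : ℝ) ^ (θ - ε') := by
      rw [← Real.rpow_add hn0]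
      congr 1
      ring
    rw [h8] at h7
    have h9 : 0 < (n : ℝ) ^ (θ - ε') := Real.rpow_pos_of_pos hn0 _
    have h10 : (n : ℝ) ^ (δ' - θ + ε') ≤ 6 * (n : ℝ) ^ (-(1 - δ') * (θ - ε' / 2)) := by
      have h11 : (n : ℝ) ^ (δ' - θ + ε') * (n : ℝ) ^ (θ - ε') ≤
          (6 * (n : ℝ) ^ (-(1 - δ') * (θ - ε' / 2))) * (n : ℝ) ^ (θ - ε') := by
        refine h7.trans (le_of_eq ?_)
        ring
      exact le_of_mul_le_mul_right h11 h9
    have h12 : 0 < (n : ℝ) ^ (-(1 - δ') * (θ - ε' / 2)) := Real.rpow_pos_of_pos hn0 _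
    linarith
  refine ⟨k, ?_, hkn, ?_⟩
  · exact (Real.rpow_le_rpow_of_exponent_le hn1' (by linarith)).trans hr
  · have h3 : (n : ℝ) ^ δ' ≤ (n : ℝ) ^ δ := Real.rpow_le_rpow_of_exponent_le hn1' d2
    have h4 : (n : ℝ) * R ((k : ℝ) / n) ≤ n * ρ := mul_le_mul_of_nonneg_left hR hn0.le
    have h5 : 0 ≤ (n : ℝ) ^ δ' := Real.rpow_nonneg hn0.le _
    linarith

end Pool.Agent.TH262.SawL
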