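import Pool.Agent.TH262.SawL.Area2
import Pool.Agent.TH262.SawL.PolyE

/-!
The number of polygons that enclose a large square.
-/

set_option autoImplicit false

namespace Pool.Agent.TH262.SawL

open Pool.Agent.TH795.EP Pool.Agent.TH262.SawE H981 Finset

/-- index set of the codes of two corners -/
def Ix (m m' : ℕ) : Finset ((ℕ × ℕ) × (ℕ × ℕ)) :=
  ((range (m + 1) ×ˢ range (m + 1)) ×ˢ (range (m' + 1) ×ˢ range (m' + 1))).filter
    (fun p => p.1.1 + p.1.2 ≤ m ∧ p.2.1 + p.2.2 ≤ m')

theorem pair_le {k : ℕ} (hk : 1 ≤ k) (m m' : ℕ) :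
    ll k m * ll k m' ≤ ∑ p ∈ Ix m m', cs k (p.2.2 + p.1.2) *
      ((c p.1.1 * c (m - p.1.1 - p.1.2)) * (c p.2.1 * c (m' - p.2.1 - p.2.2))) := by
  classical
  unfold ll cs c
  have e : ∀ p : (ℕ × ℕ) × (ℕ × ℕ),
      (fs (Cs k) (p.2.2 + p.1.2)).card * (((fs Saw p.1.1).card *
        (fs Saw (m - p.1.1 - p.1.2)).card) * ((fs Saw p.2.1).card *
        (fs Saw (m' - p.2.1 - p.2.2)).card)) =
      (fs (Cs k) (p.2.2 + p.1.2) ×ˢ ((fs Saw p.1.1 ×ˢ fs Saw (m - p.1.1 - p.1.2)) ×ˢ
        (fs Saw p.2.1 ×ˢ fs Saw (m' - p.2.1 - p.2.2)))).card := by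
    intro p
    rw [Finset.card_product, Finset.card_product, Finset.card_product, Finset.card_product]
  simp only [e]
  rw [← Finset.card_product, ← Finset.card_sigma]
  apply card_le_of_decode (fun q : (_ : (ℕ × ℕ) × (ℕ × ℕ)) ×
      (List St × ((List St × List St) × (List St × List St))) =>
    (q.2.2.1.1 ++ (q.2.1.drop q.1.2.2 ++ q.2.2.1.2),
      q.2.2.2.1 ++ (ng (sg (q.2.1.take q.1.2.2)) ++ q.2.2.2.2)))
  rintro ⟨u, v⟩ h
  rw [Finset.mem_product, mem_fs, mem_fs] at h
  obtain ⟨⟨hu, hul⟩, hv, hvl⟩ := h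
  simp only at hu hul hv hvl
  obtain ⟨j1, m2, j3, m1, h1, h2, h3⟩ := loop_exists hk hu hv
  have hl1 : (ng (sg ((v.drop j3).take m1))).length = m1 := by
    rw [length_ng, length_sg, List.length_take, List.length_drop]; omega
  have hl2 : ((u.drop j1).take m2).length = m2 := by
    rw [List.length_take, List.length_drop]; omega
  refine ⟨⟨((j1, m2), (j3, m1)), (ng (sg ((v.drop j3).take m1)) ++ (u.drop j1).take m2,
    ((u.take j1, u.drop (j1 + m2)), (v.take j3, v.drop (j3 + m1))))⟩, ?_, ?_⟩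
  · rw [Finset.mem_sigma]
    unfold Ix
    rw [Finset.mem_filter, Finset.mem_product, Finset.mem_product, Finset.mem_product,
      Finset.mem_product, Finset.mem_product, Finset.mem_product, Finset.mem_product,
      mem_fs, mem_fs, mem_fs, mem_fs, mem_fs, Finset.mem_range, Finset.mem_range,
      Finset.mem_range, Finset.mem_range]
    simp only
    refine ⟨⟨⟨⟨by omega, by omega⟩, by omega, by omega⟩, by omega, by omega⟩, ⟨h3, ?_⟩,
      ⟨⟨?_, ?_⟩, ?_, ?_⟩, ⟨?_, ?_⟩, ?_, ?_⟩
    · rw [List.length_append, hl1, hl2]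
    · exact hu.1.subw (List.take_prefix _ _).isInfix
    · rw [List.length_take]; omega
    · exact hu.1.subw (List.drop_suffix _ _).isInfix
    · rw [List.length_drop]; omega
    · exact hv.1.subw (List.take_prefix _ _).isInfix
    · rw [List.length_take]; omega
    · exact hv.1.subw (List.drop_suffix _ _).isInfix
    · rw [List.length_drop]; omega
  · simp only
    have g1 := List.take_left (l₁ := ng (sg ((v.drop j3).take m1))) (l₂ := (u.drop j1).take m2)
    have g2 := List.drop_left (l₁ := ng (sg ((v.drop j3).take m1))) (l₂ := (u.drop j1).take m2)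
    rw [hl1] at g1 g2
    rw [g1, g2]
    have g3 : ∀ w : List St, ng (sg (ng (sg w))) = w := by
      intro w
      rw [show sg (ng (sg w)) = ng (sg (sg w)) by
        unfold sg ng
        rw [List.map_map, List.map_map, List.map_map, List.map_map]
        congr 1
        funext s
        cases s <;> rfl, sg_sg, ng_ng]
    rw [g3]
    have g4 : ∀ (w : List St) (i l : ℕ), w.take i ++ ((w.drop i).take l ++ w.drop (i + l)) = w := by
      intro w i l
      rw [← List.drop_drop, List.take_append_drop, List.take_append_drop]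
    rw [g4, g4]

/-- the class without the bottom edge -/
def Cs' (k : ℕ) (V : List St) : Prop := Saw V ∧ |dx V| + |dy V| = 1 ∧ Enc k V

noncomputable def cs' (k m : ℕ) : ℕ := (fs (Cs' k) m).card

theorem cs_le_cs' (k m : ℕ) : cs k m ≤ cs' k m := by
  unfold cs cs'
  apply Finset.card_le_card
  intro w hw
  rw [mem_fs] at hw ⊢
  exact ⟨⟨hw.1.1, hw.1.2.1, hw.1.2.2.2⟩, hw.2⟩

theorem cs_mul_ar (k m L : ℕ) : cs k m * ar L ≤ m * cs' k (m + L + 1) := by
  classical
  unfold cs cs' ar
  have e : m * (fs (Cs' k) (m + L + 1)).card = (range m ×ˢ fs (Cs' k) (m + L + 1)).card := by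
    rw [Finset.card_product, Finset.card_range]
  rw [← Finset.card_product, e]
  apply card_le_of_decode (fun q => (q.2.take q.1 ++
    ((if dx ((q.2.drop (q.1 + 1)).take L) = 1 then St.E else St.W) ::
      q.2.drop (q.1 + 1 + L + 1)),
    (if dx ((q.2.drop (q.1 + 1)).take L) = 1 then (q.2.drop (q.1 + 1)).take L else
      sg ((q.2.drop (q.1 + 1)).take L))))
  rintro ⟨w, t⟩ h
  rw [Finset.mem_product, mem_fs, mem_fs] at h
  obtain ⟨⟨⟨hw, hadj, hbot, henc⟩, hwl⟩, ⟨ht, htx, hty, htn⟩, htl⟩ := h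
  simp only at hw hadj hbot henc hwl ht htx hty htn htl
  obtain ⟨i, hi, hs, hmin⟩ := hbot
  have hx : dx (tw w[i] t) = (w[i]).x := dx_tw hs htx
  have hy : dy (tw w[i] t) = (w[i]).y := by
    rw [dy_tw, hty]
    rcases hs with h | h <;> rw [h] <;> rfl
  have hlt : (tw w[i] t).length = L := by rw [length_tw, htl]
  have hd := disp_ins hi hx hy
  have hneg : ∀ k, (path (tw w[i] t) k).2 ≤ 0 := fun k => by rw [path_tw_snd]; exact htn k
  refine ⟨(i, ins w i (tw w[i] t)), ?_, ?_⟩
  · rw [Finset.mem_product, mem_fs, Finset.mem_range]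
    refine ⟨by omega, ⟨saw_ins hw hi (saw_tw ht) hx hy hmin hneg, ?_, ?_⟩, ?_⟩
    · rw [hd.1, hd.2]; exact hadj
    · obtain ⟨a0, b0, ⟨i0, hi0⟩, hodd⟩ := henc
      have hb0 : (path w i).2 ≤ b0 := (hmin i0).trans hi0
      refine ⟨a0, b0, ⟨i, ?_⟩, ?_⟩
      · rw [path_ins_left hi _ le_rfl]; exact hb0
      · intro a b ha0 ha1 hb1 hb2
        rw [ccr_ins hi hx hy hneg (by omega)]
        exact hodd a b ha0 ha1 hb1 hb2
    · simp only
      rw [length_ins hi, hlt, hwl]
  · simp only
    have hlen : (w.take i).length = i := by rw [List.length_take]; omega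
    have g1 : (ins w i (tw w[i] t)).take i = w.take i := by
      unfold ins
      have := List.take_left (l₁ := w.take i)
        (l₂ := St.S :: (tw w[i] t ++ (St.N :: w.drop (i + 1))))
      rwa [hlen] at this
    have g2 : (ins w i (tw w[i] t)).drop (i + 1) = tw w[i] t ++ (St.N :: w.drop (i + 1)) := by
      unfold ins
      have := List.drop_left (l₁ := w.take i)
        (l₂ := St.S :: (tw w[i] t ++ (St.N :: w.drop (i + 1))))
      rw [hlen] at this
      rw [← List.drop_drop, this, List.drop_succ_cons, List.drop_zero]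
    have g3 : ((ins w i (tw w[i] t)).drop (i + 1)).take L = tw w[i] t := by
      rw [g2]
      have := List.take_left (l₁ := tw w[i] t) (l₂ := St.N :: w.drop (i + 1))
      rwa [hlt] at this
    have g4 : (ins w i (tw w[i] t)).drop (i + 1 + L + 1) = w.drop (i + 1) := by
      have := List.drop_left (l₁ := tw w[i] t) (l₂ := St.N :: w.drop (i + 1))
      rw [hlt] at this
      rw [show i + 1 + L + 1 = (i + 1) + L + 1 by ring, ← List.drop_drop, ← List.drop_drop, g2,
        this, List.drop_succ_cons, List.drop_zero]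
    rw [g1, g3, g4, hx]
    have hw2 : w.take i ++ (w[i] :: w.drop (i + 1)) = w := by
      rw [← List.drop_eq_getElem_cons hi, List.take_append_drop]
    rcases hs with h | h
    · rw [h, St.x_E, if_pos rfl, if_pos rfl]
      rw [h] at hw2
      simp only [hw2, tw, if_true]
    · rw [h, St.x_W, if_neg (by norm_num), if_neg (by norm_num)]
      rw [h] at hw2
      have : tw St.W t = sg t := by simp [tw]
      rw [hw2, this, sg_sg]

theorem cs_lengthen {n : ℕ} (hn : 2 ≤ n) {K : ℝ} (hK0 : 0 ≤ K)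
    (hlow : ∀ j : ℕ, 2 ≤ j → j ≤ n → mu ^ (2 * j) * q n (-K) ≤ ar (2 * j - 1))
    {k m j : ℕ} (hmn : m + 2 * j ≤ n) :
    (cs k m : ℝ) * mu ^ (2 * j) ≤ q n (K + 21) * cs' k (m + 2 * j) := by
  have hmu := mu_pos
  have hn0 : (2 : ℝ) ≤ n := by exact_mod_cast hn
  have hmn' : (m : ℝ) ≤ n := by exact_mod_cast (by omega : m ≤ n)
  rcases Nat.eq_zero_or_pos j with h0 | h0
  · subst h0
    simp only [mul_zero, pow_zero, mul_one, add_zero]
    have h1 := one_le_q hn (by linarith : (0 : ℝ) ≤ K + 21)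
    have h2 : (cs k m : ℝ) ≤ cs' k m := by exact_mod_cast cs_le_cs' k m
    have h3 : (0 : ℝ) ≤ cs' k m := Nat.cast_nonneg _
    nlinarith
  · rcases Nat.lt_or_ge j 2 with h1 | h1
    · obtain rfl : j = 1 := by omega
      have h2 := cs_mul_ar k m 1
      have h3 := one_le_ar (j := 1) le_rfl
      norm_num at h3
      have h4 : (cs k m : ℝ) ≤ m * cs' k (m + 2) := by
        have : cs k m ≤ m * cs' k (m + 2) := by
          calc cs k m = cs k m * 1 := (mul_one _).symm
            _ ≤ cs k m * ar 1 := Nat.mul_le_mul_left _ h3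
            _ ≤ _ := h2
        exact_mod_cast this
      have h5 : mu ^ 2 ≤ 16 := by
        have := mu_le_four
        nlinarith
      have h6 : (n : ℝ) ^ 7 ≤ q n (K + 21) := by
        have h7 := pow_le_q hn 7
        norm_num at h7
        exact h7.trans (q_mono hn (by linarith))
      have hA : (0 : ℝ) ≤ cs' k (m + 2) := Nat.cast_nonneg _
      have h8 : (16 : ℝ) * m ≤ (n : ℝ) ^ 7 := by
        have h9 : (16 : ℝ) ≤ (n : ℝ) ^ 6 := by
          calc (16 : ℝ) ≤ 2 ^ 6 := by norm_num
            _ ≤ (n : ℝ) ^ 6 := pow_le_pow_left₀ (by norm_num) hn0 6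
        calc (16 : ℝ) * m ≤ (n : ℝ) ^ 6 * n := mul_le_mul h9 hmn' (Nat.cast_nonneg _) (by positivity)
          _ = (n : ℝ) ^ 7 := by ring
      calc (cs k m : ℝ) * mu ^ (2 * 1) ≤ (m * cs' k (m + 2)) * 16 := by
            rw [mul_one]
            exact mul_le_mul h4 h5 (by positivity) (by positivity)
        _ = (16 * m) * cs' k (m + 2) := by ring
        _ ≤ q n (K + 21) * cs' k (m + 2) := mul_le_mul_of_nonneg_right (h8.trans h6) hA
        _ = _ := by norm_num
    · have h2 := hlow j h1 (by omega)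
      have h3 := cs_mul_ar k m (2 * j - 1)
      rw [show m + (2 * j - 1) + 1 = m + 2 * j by omega] at h3
      have h4 : (cs k m : ℝ) * ar (2 * j - 1) ≤ m * cs' k (m + 2 * j) := by exact_mod_cast h3
      have hA : (0 : ℝ) ≤ cs' k (m + 2 * j) := Nat.cast_nonneg _
      have hA' : (0 : ℝ) ≤ cs k m := Nat.cast_nonneg _
      have hq := q_pos n K
      have h5 : (cs k m : ℝ) * (mu ^ (2 * j) * q n (-K)) ≤ m * cs' k (m + 2 * j) :=
        (mul_le_mul_of_nonneg_left h2 hA').trans h4
      have h6 : (m : ℝ) ≤ q n 9 := by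
        have h7 := pow_le_q hn 3
        norm_num at h7
        refine le_trans ?_ h7
        nlinarith [sq_nonneg ((n : ℝ) - 1)]
      calc (cs k m : ℝ) * mu ^ (2 * j)
          = ((cs k m : ℝ) * (mu ^ (2 * j) * q n (-K))) * q n K := by
            rw [show (cs k m : ℝ) * (mu ^ (2 * j) * q n (-K)) * q n K =
              (cs k m : ℝ) * mu ^ (2 * j) * (q n K * q n (-K)) by ring, q_cancel, mul_one]
        _ ≤ (m * cs' k (m + 2 * j)) * q n K := mul_le_mul_of_nonneg_right h5 hq.le
        _ ≤ (q n 9 * cs' k (m + 2 * j)) * q n K := by gcongr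
        _ = (q n K * q n 9) * cs' k (m + 2 * j) := by ring
        _ = q n (K + 9) * cs' k (m + 2 * j) := by rw [q_mul]
        _ ≤ _ := mul_le_mul_of_nonneg_right (q_mono hn (by linarith)) hA

/-! ### from the words to loops -/

theorem exists_close {V : List St} (hadj : |dx V| + |dy V| = 1) :
    ∃ s : St, s.x = -dx V ∧ s.y = -dy V := by
  have h1 : (dx V = 1 ∧ dy V = 0) ∨ (dx V = -1 ∧ dy V = 0) ∨ (dx V = 0 ∧ dy V = 1) ∨
      (dx V = 0 ∧ dy V = -1) := by
    rcases abs_cases (dx V) with h | h <;> rcases abs_cases (dy V) with h' | h' <;> omega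
  rcases h1 with h | h | h | h
  · exact ⟨St.W, by rw [h.1]; rfl, by rw [h.2]; rfl⟩
  · exact ⟨St.E, by rw [h.1]; rfl, by rw [h.2]; rfl⟩
  · exact ⟨St.S, by rw [h.1]; rfl, by rw [h.2]; rfl⟩
  · exact ⟨St.N, by rw [h.1]; rfl, by rw [h.2]; rfl⟩

theorem loop_close {M : ℕ} {V : List St} (hM : M = V.length + 1) (hl : 1 ≤ V.length)
    (hs : Saw V) (hadj : |dx V| + |dy V| = 1) :
    IsLoop M (fun i : ZMod M => path V i.val) := by
  obtain ⟨s, hsx, hsy⟩ := exists_close hadj
  have : NeZero M := ⟨by omega⟩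
  have hpath : ∀ i, i < V.length + 1 → path (V ++ [s]) i = path V i := by
    intro i hi
    exact path_append_left (by omega)
  have hfun : (fun i : ZMod M => path (V ++ [s]) i.val) =
      (fun i : ZMod M => path V i.val) := by
    funext i
    exact hpath _ (by rw [← hM]; exact ZMod.val_lt i)
  rw [← hfun]
  apply loop_of (by omega) (by rw [List.length_append]; simp [hM])
  · rw [dx_append]; simp [hsx]
  · rw [dy_append]; simp [hsy]
  · intro i j hij hj
    rw [hpath i (by omega), hpath j (by omega)]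
    exact saw_iff'.1 hs i j hij (by omega)

theorem card_above' {M : ℕ} {V : List St} (hM : M = V.length + 1) (a b : ℤ) :
    Nat.card {k : ZMod M // Above M (fun i : ZMod M => path V i.val) a b k} = ccr a b V := by
  subst hM
  exact card_above V a b

theorem cs_loop {k M : ℕ} {V : List St} (hM : M = V.length + 1) (hV : Cs' k V)
    (hl : 1 ≤ V.length) :
    IsLoop M (fun i : ZMod M => path V i.val) ∧
    k ^ 2 ≤ area M (fun i : ZMod M => path V i.val) := by
  obtain ⟨hs, hadj, a0, b0, -, hodd⟩ := hV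
  have : NeZero M := ⟨by omega⟩
  have hloop := loop_close hM hl hs hadj
  refine ⟨hloop, ?_⟩
  refine area_ge (m := M) (f := fun i : ZMod M => path V i.val) hloop.2.2 (a0 := a0) (b0 := b0)
    (fun a b ha0 ha1 hb0 hb1 => ?_)
  unfold Encl
  rw [card_above' hM]
  exact hodd a b ha0 ha1 hb0 hb1

/-- the number of loops with area at least `A` -/
noncomputable def an (n : ℕ) (A : ℕ) : ℕ :=
  {f : ZMod (2 * n) → ℤ × ℤ | IsLoop (2 * n) f ∧ A ≤ area (2 * n) f}.ncard

theorem cs_le_an {n : ℕ} (hn : 1 ≤ n) (k : ℕ) : cs' k (2 * n - 1) ≤ an n (k ^ 2) := by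
  classical
  have hfin := loops_finite hn
  have hfin2 : {f : ZMod (2 * n) → ℤ × ℤ | IsLoop (2 * n) f ∧ k ^ 2 ≤ area (2 * n) f}.Finite :=
    hfin.subset (fun f hf => hf.1)
  unfold cs' an
  have hinj : ((fs (Cs' k) (2 * n - 1)).image
      (fun V : List St => fun i : ZMod (2 * n) => path V i.val)).card =
      (fs (Cs' k) (2 * n - 1)).card := by
    apply Finset.card_image_of_injOn
    intro V hV V' hV' he
    rw [Finset.mem_coe, mem_fs] at hV hV'
    apply word_ext (by omega)
    intro j hj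
    have h1 := congrFun he (j : ZMod (2 * n))
    simp only at h1
    rwa [ZMod.val_cast_of_lt (by omega)] at h1
  rw [← hinj, ← Set.ncard_coe_finset]
  apply Set.ncard_le_ncard _ hfin2
  intro f hf
  rw [Finset.mem_coe, Finset.mem_image] at hf
  obtain ⟨V, hV, rfl⟩ := hf
  rw [mem_fs] at hV
  obtain ⟨hV1, hV2⟩ := hV
  exact cs_loop (by omega) hV1 (by omega)

end Pool.Agent.TH262.SawL
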