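import Pool.Agent.TH262.SawL.Area4

/-!
The area of the self-avoiding polygons: tails, exponents and the mean.
-/

set_option autoImplicit false

namespace Pool.Agent.TH262.SawL

open Pool.Agent.TH795.EP Pool.Agent.TH262.SawE H981 Finset Filter Topology

/-- the reflected loop -/
def swp {m : ℕ} (f : ZMod m → ℤ × ℤ) : ZMod m → ℤ × ℤ := fun i => ((f i).2, (f i).1)

theorem swp_swp {m : ℕ} (f : ZMod m → ℤ × ℤ) : swp (swp f) = f := rfl

theorem swp_loop {m : ℕ} {f : ZMod m → ℤ × ℤ} (hf : IsLoop m f) : IsLoop m (swp f) := by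
  obtain ⟨h1, h2, h3⟩ := hf
  refine ⟨?_, ?_, ?_⟩
  · unfold swp
    rw [h1]
    rfl
  · intro i j hij
    apply h2
    unfold swp at hij
    obtain ⟨e1, e2⟩ := Prod.mk.inj hij
    exact Prod.ext e2 e1
  · intro i
    have := h3 i
    unfold swp
    simp only
    rw [add_comm]
    exact this

theorem area_le_wh {n : ℕ} (hn : 1 ≤ n) {f : ZMod (2 * n) → ℤ × ℤ} (hf : IsLoop (2 * n) f) :
    area (2 * n) f ≤ width (2 * n) f * width (2 * n) (swp f) := by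
  have : NeZero (2 * n) := ⟨by omega⟩
  obtain ⟨i1, h1⟩ := Finite.exists_max (fun k : ZMod (2 * n) => (f k).1)
  obtain ⟨i2, h2⟩ := Finite.exists_max (fun k : ZMod (2 * n) => (f k).2)
  obtain ⟨j1, h3⟩ := Finite.exists_min (fun k : ZMod (2 * n) => (f k).1)
  obtain ⟨j2, h4⟩ := Finite.exists_min (fun k : ZMod (2 * n) => (f k).2)
  have h5 := area_le_box hf.2.2 (fun i => ⟨h3 i, h1 i⟩) (fun i => ⟨h4 i, h2 i⟩)
  refine h5.trans (Nat.mul_le_mul ?_ ?_)
  · have h6 : ((f i1).1 - (f j1).1).natAbs ≤ width (2 * n) f :=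
      le_csSup (width_set hn hf) ⟨i1, j1, rfl⟩
    omega
  · have h6 : ((f i2).2 - (f j2).2).natAbs ≤ width (2 * n) (swp f) :=
      le_csSup (width_set hn (swp_loop hf)) ⟨i2, j2, rfl⟩
    omega

theorem par_anti {n : ℕ} (hn : 1 ≤ n) {r r' : ℝ} (h : r ≤ r') : par n r' ≤ par n r := by
  unfold par
  apply div_le_div_of_nonneg_right _ (Nat.cast_nonneg _)
  have h1 : {f : ZMod (2 * n) → ℤ × ℤ | IsLoop (2 * n) f ∧ r' ≤ area (2 * n) f}.ncard ≤
      {f : ZMod (2 * n) → ℤ × ℤ | IsLoop (2 * n) f ∧ r ≤ area (2 * n) f}.ncard := by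
    apply Set.ncard_le_ncard
    · intro f hf
      exact ⟨hf.1, h.trans hf.2⟩
    · exact (loops_finite hn).subset (fun f hf => hf.1)
  exact_mod_cast h1

/-- **upper bound for the tail of the area** -/
theorem par_le {n : ℕ} (hn : 1 ≤ n) {r : ℝ} (hr : 0 ≤ r) : par n (r ^ 2) ≤ 2 * pw n r := by
  unfold par pw
  rw [← mul_div_assoc]
  apply div_le_div_of_nonneg_right _ (Nat.cast_nonneg _)
  have hfin : {f : ZMod (2 * n) → ℤ × ℤ | IsLoop (2 * n) f ∧ r ≤ width (2 * n) f}.Finite :=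
    (loops_finite hn).subset (fun f hf => hf.1)
  have h1 : {f : ZMod (2 * n) → ℤ × ℤ | IsLoop (2 * n) f ∧ r ^ 2 ≤ area (2 * n) f} ⊆
      {f : ZMod (2 * n) → ℤ × ℤ | IsLoop (2 * n) f ∧ r ≤ width (2 * n) f} ∪
      swp '' {f : ZMod (2 * n) → ℤ × ℤ | IsLoop (2 * n) f ∧ r ≤ width (2 * n) f} := by
    rintro f ⟨hf, ha⟩
    by_cases h2 : r ≤ width (2 * n) f
    · exact Or.inl ⟨hf, h2⟩
    · right
      refine ⟨swp f, ⟨swp_loop hf, ?_⟩, swp_swp f⟩
      by_contra h3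
      push Not at h2 h3
      have h4 : (area (2 * n) f : ℝ) ≤ width (2 * n) f * width (2 * n) (swp f) := by
        exact_mod_cast area_le_wh hn hf
      have h5 : (width (2 * n) f : ℝ) * width (2 * n) (swp f) < r * r :=
        mul_lt_mul'' h2 h3 (Nat.cast_nonneg _) (Nat.cast_nonneg _)
      nlinarith
  have h2 := Set.ncard_le_ncard h1 (hfin.union (hfin.image _))
  have h3 := Set.ncard_union_le
    {f : ZMod (2 * n) → ℤ × ℤ | IsLoop (2 * n) f ∧ r ≤ width (2 * n) f}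
    (swp '' {f : ZMod (2 * n) → ℤ × ℤ | IsLoop (2 * n) f ∧ r ≤ width (2 * n) f})
  have h4 := Set.ncard_image_le (f := swp) hfin
  have h5 : {f : ZMod (2 * n) → ℤ × ℤ | IsLoop (2 * n) f ∧ r ^ 2 ≤ area (2 * n) f}.ncard ≤
      2 * {f : ZMod (2 * n) → ℤ × ℤ | IsLoop (2 * n) f ∧ r ≤ width (2 * n) f}.ncard := by
    omega
  exact_mod_cast h5

/-- **The tail of the area against the tail of the width.** -/
theorem area_width : ∃ K : ℝ, 0 ≤ K ∧ ∀ n : ℕ, 2 ≤ n → ∀ k : ℕ, 1 ≤ k → 2 * k < n →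
    Real.exp (-(K * Real.log n ^ 4)) * pw n (2 * k) ≤ par n ((k : ℝ) ^ 2) ∧
    par n ((k : ℝ) ^ 2) ≤ 2 * pw n k := by
  obtain ⟨K1, hK1, h1⟩ := area_lower
  obtain ⟨K2, hK2, h2⟩ := pw_ldp
  refine ⟨K1 + K2, by positivity, ?_⟩
  intro n hn k hk hkn
  refine ⟨?_, par_le (by omega) (Nat.cast_nonneg _)⟩
  have h3 := h1 n hn k hk hkn
  have h4 := (h2 n hn (2 * k) (by omega) hkn).2
  push_cast at h4
  refine le_trans ?_ h3
  calc Real.exp (-((K1 + K2) * Real.log n ^ 4)) * pw n (2 * k)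
      ≤ Real.exp (-((K1 + K2) * Real.log n ^ 4)) *
        Real.exp (-(2 * (n * R (2 * (k : ℝ) / n))) + K2 * Real.log n ^ 4) :=
        mul_le_mul_of_nonneg_left h4 (Real.exp_pos _).le
    _ = _ := by
        rw [← Real.exp_add]
        congr 1
        ring

/-- **The tail of the area against the law of the end point.** -/
theorem area_end : ∃ K : ℝ, 0 ≤ K ∧ ∀ n : ℕ, 2 ≤ n → ∀ k : ℕ, 1 ≤ k → 2 * k < n →
    Real.exp (-(K * Real.log n ^ 4)) * ((a (2 * n) (4 * k) 0 : ℝ) / c (2 * n)) ≤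
      par n ((k : ℝ) ^ 2) ∧
    par n ((k : ℝ) ^ 2) ≤
      Real.exp (K * Real.log n ^ 4) * ((a (2 * n) (2 * k) 0 : ℝ) / c (2 * n)) := by
  obtain ⟨K1, hK1, h1⟩ := area_lower
  obtain ⟨K2, hK2, h2⟩ := axis_ldp
  obtain ⟨K3, hK3, h3⟩ := width_law
  refine ⟨K1 + K2 + K3 + 16, by positivity, ?_⟩
  intro n hn k hk hkn
  have hlog := log_pos' hn
  have hL : 0 ≤ Real.log n ^ 4 := by positivity
  constructor
  · have g1 := h1 n hn k hk hkn
    obtain ⟨g2, g3⟩ := h2 n hn (2 * k) (by omega) (by omega)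
    have e1 : (2 * ((2 * k : ℕ) : ℤ)) = 4 * (k : ℤ) := by push_cast; ring
    rw [e1] at g2 g3
    have g4 := (abs_le.1 g3).2
    push_cast at g4
    have g5 : (a (2 * n) (4 * k) 0 : ℝ) / c (2 * n) ≤
        Real.exp (-(2 * (n * R (2 * (k : ℝ) / n))) + K2 * Real.log n ^ 4) := by
      rw [← Real.log_le_iff_le_exp g2]
      linarith
    refine le_trans ?_ g1
    calc Real.exp (-((K1 + K2 + K3 + 16) * Real.log n ^ 4)) *
          ((a (2 * n) (4 * k) 0 : ℝ) / c (2 * n))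
        ≤ Real.exp (-((K1 + K2 + K3 + 16) * Real.log n ^ 4)) *
          Real.exp (-(2 * (n * R (2 * (k : ℝ) / n))) + K2 * Real.log n ^ 4) :=
          mul_le_mul_of_nonneg_left g5 (Real.exp_pos _).le
      _ ≤ _ := by
          rw [← Real.exp_add]
          apply Real.exp_le_exp.2
          have := mul_nonneg hK3 hL
          linarith
  · obtain ⟨-, -, g3, -⟩ := h3 n hn k (by omega) (by omega)
    rw [← pw_nat (by omega) hk] at g3
    have g4 := par_le (n := n) (by omega) (r := (k : ℝ)) (Nat.cast_nonneg _)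
    have g5 : (2 : ℝ) ≤ Real.exp (16 * Real.log n ^ 4) := by
      have g6 : Real.log 2 ≤ Real.log n := log_ge hn
      have g7 := Real.log_two_gt_d9
      have g8 : (0.69 : ℝ) ≤ Real.log n := by linarith
      have g9 : (0.69 : ℝ) ^ 4 ≤ Real.log n ^ 4 := pow_le_pow_left₀ (by norm_num) g8 4
      have g10 : (1 : ℝ) ≤ 16 * Real.log n ^ 4 := by
        norm_num at g9
        linarith
      have g11 := Real.add_one_le_exp (16 * Real.log (n : ℝ) ^ 4)
      linarith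
    have hp : 0 ≤ (a (2 * n) (2 * k) 0 : ℝ) / c (2 * n) := by positivity
    calc par n ((k : ℝ) ^ 2) ≤ 2 * pw n k := g4
      _ ≤ Real.exp (16 * Real.log n ^ 4) *
          (q4 n K3 * ((a (2 * n) (2 * k) 0 : ℝ) / c (2 * n))) :=
          mul_le_mul g5 g3 (by unfold pw; positivity) (Real.exp_pos _).le
      _ = Real.exp ((K3 + 16) * Real.log n ^ 4) * ((a (2 * n) (2 * k) 0 : ℝ) / c (2 * n)) := by
          unfold q4
          rw [← mul_assoc, ← Real.exp_add]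
          congr 2
          ring
      _ ≤ _ := by
          apply mul_le_mul_of_nonneg_right _ hp
          apply Real.exp_le_exp.2
          have := mul_nonneg hK1 hL
          have := mul_nonneg hK2 hL
          linarith

/-! ### exponents -/

/-- the upper half of the area exponent -/
def AreaUp (θ : ℝ) : Prop := ∀ ε : ℝ, 0 < ε → ∃ δ : ℝ, 0 < δ ∧ ∀ᶠ n : ℕ in atTop,
  par n ((n : ℝ) ^ (2 * θ + ε)) ≤ Real.exp (-(n : ℝ) ^ δ)

/-- the lower half of the area exponent -/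
def AreaLow (θ : ℝ) : Prop := ∀ ε : ℝ, 0 < ε → ∀ δ : ℝ, 0 < δ → ∀ᶠ n : ℕ in atTop,
  Real.exp (-(n : ℝ) ^ δ) ≤ par n ((n : ℝ) ^ (2 * θ - ε))

theorem rpow_sq {x t : ℝ} (hx : 0 ≤ x) : (x ^ t) ^ 2 = x ^ (2 * t) := by
  rw [← Real.rpow_natCast, ← Real.rpow_mul hx]
  congr 1
  push_cast
  ring

theorem polyUp_areaUp {θ : ℝ} (A : PolyUp θ) : AreaUp θ := by
  intro ε hε
  obtain ⟨δ, hδ, hA⟩ := A (ε / 2) (by linarith)
  refine ⟨δ / 2, by linarith, ?_⟩
  filter_upwards [hA, ev_pow 2 (show δ / 2 < δ by linarith),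
    ev_pow 1 (show (0 : ℝ) < δ / 2 by linarith), eventually_ge_atTop 1] with n h1 h2 h3 h4
  have hn0 : (0 : ℝ) < n := by exact_mod_cast h4
  rw [Real.rpow_zero, mul_one] at h3
  have e1 : (n : ℝ) ^ (2 * θ + ε) = ((n : ℝ) ^ (θ + ε / 2)) ^ 2 := by
    rw [rpow_sq hn0.le]
    congr 1
    ring
  rw [e1]
  refine (par_le h4 (Real.rpow_nonneg hn0.le _)).trans ?_
  have h5 : (2 : ℝ) * pw n ((n : ℝ) ^ (θ + ε / 2)) ≤ Real.exp 1 * Real.exp (-(n : ℝ) ^ δ) := by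
    apply mul_le_mul _ h1 (by unfold pw; positivity) (Real.exp_pos _).le
    have := Real.add_one_le_exp (1 : ℝ)
    linarith
  refine h5.trans ?_
  rw [← Real.exp_add]
  apply Real.exp_le_exp.2
  linarith

theorem areaLow_polyLow {θ : ℝ} (B : AreaLow θ) : PolyLow θ := by
  intro ε hε δ hδ
  filter_upwards [B (2 * ε) (by linarith) (δ / 2) (by linarith),
    ev_pow 2 (show δ / 2 < δ by linarith),
    ev_pow 1 (show (0 : ℝ) < δ / 2 by linarith), eventually_ge_atTop 1] with n h1 h2 h3 h4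
  have hn0 : (0 : ℝ) < n := by exact_mod_cast h4
  rw [Real.rpow_zero, mul_one] at h3
  have e1 : (n : ℝ) ^ (2 * θ - 2 * ε) = ((n : ℝ) ^ (θ - ε)) ^ 2 := by
    rw [rpow_sq hn0.le]
    congr 1
    ring
  rw [e1] at h1
  have h5 := h1.trans (par_le h4 (Real.rpow_nonneg hn0.le _))
  have h6 : Real.exp (-(n : ℝ) ^ δ) * 2 ≤ Real.exp (-(n : ℝ) ^ (δ / 2)) := by
    have h7 : (2 : ℝ) ≤ Real.exp 1 := by
      have := Real.add_one_le_exp (1 : ℝ)
      linarith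
    calc Real.exp (-(n : ℝ) ^ δ) * 2 ≤ Real.exp (-(n : ℝ) ^ δ) * Real.exp 1 :=
          mul_le_mul_of_nonneg_left h7 (Real.exp_pos _).le
      _ ≤ _ := by
          rw [← Real.exp_add]
          apply Real.exp_le_exp.2
          linarith
  linarith

/-- half of a large integer -/
theorem half_nat {k : ℕ} {x : ℝ} (hx : 1 ≤ x) (hk : 4 * x ≤ k) :
    ∃ k' : ℕ, 1 ≤ k' ∧ 2 * k' ≤ k ∧ x ≤ k' := by
  refine ⟨k / 2, ?_, by omega, ?_⟩
  · have h1 : (4 : ℝ) ≤ k := by linarith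
    have h2 : 4 ≤ k := by exact_mod_cast h1
    omega
  · have h1 : (k : ℝ) ≤ 2 * ((k / 2 : ℕ) : ℝ) + 1 := by
      exact_mod_cast (by omega : k ≤ 2 * (k / 2) + 1)
    linarith

theorem areaUp_rUp {θ : ℝ} (hθ : 0 < θ) (A : AreaUp θ) : RUp θ := by
  intro ε hε
  obtain ⟨δ, hδ, hA⟩ := A ε hε
  obtain ⟨K, hK, hlow⟩ := area_lower
  refine ⟨δ / 2, by linarith, ?_⟩
  filter_upwards [hA, ev_log (2 * K) 0 hδ, ev_pow 4 (show δ / 2 < δ by linarith),
    ev_pow 4 (show θ + ε / 2 < θ + ε by linarith), eventually_ge_atTop 2] with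
    n h1 h2 h3 h4 h6
  intro k hk hkn
  have hn0 : (0 : ℝ) < n := by exact_mod_cast (by omega : 0 < n)
  have hn1 : (1 : ℝ) ≤ n := by exact_mod_cast (by omega : 1 ≤ n)
  obtain ⟨x, hx⟩ : ∃ x, x = (n : ℝ) ^ (θ + ε / 2) := ⟨_, rfl⟩
  have hx1 : 1 ≤ x := by rw [hx]; exact Real.one_le_rpow hn1 (by linarith)
  rw [← hx] at h4
  obtain ⟨k', g1, g2, g3⟩ := half_nat hx1 (h4.trans hk)
  have g4 := hlow n h6 k' g1 (by omega)
  have e1 : (n : ℝ) ^ (2 * θ + ε) = x ^ 2 := by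
    rw [hx, rpow_sq hn0.le]
    congr 1
    ring
  rw [e1] at h1
  have g5 : par n ((k' : ℝ) ^ 2) ≤ par n (x ^ 2) :=
    par_anti (by omega) (pow_le_pow_left₀ (by linarith) g3 2)
  have g6 := Real.exp_le_exp.1 (g4.trans (g5.trans h1))
  have g7 : R (2 * k' / n) ≤ R ((k : ℝ) / n) := by
    apply R_mono (by positivity)
    · apply div_le_div_of_nonneg_right _ hn0.le
      exact_mod_cast g2
    · rw [div_le_one hn0]
      exact_mod_cast hkn.le
  have g8 := mul_le_mul_of_nonneg_left g7 hn0.le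
  linarith

theorem rLow_areaLow {θ : ℝ} (hθ : 0 < θ) (B : RLow θ) : AreaLow θ := by
  intro ε hε δ hδ
  obtain ⟨ε', hε'⟩ : ∃ ε', ε' = min ε θ := ⟨_, rfl⟩
  have e0 : 0 < ε' := by rw [hε']; exact lt_min hε hθ
  have e1 : ε' ≤ ε := by rw [hε']; exact min_le_left _ _
  have e2 : ε' ≤ θ := by rw [hε']; exact min_le_right _ _
  obtain ⟨K, hK, hlow⟩ := area_lower
  filter_upwards [B (ε' / 4) (by linarith) (δ / 2) (by linarith), ev_log (2 * K) 0 hδ,
    ev_pow 4 (show δ / 2 < δ by linarith),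
    ev_pow 4 (show θ - ε' / 2 < θ - ε' / 4 by linarith), eventually_ge_atTop 2] with
    n h1 h2 h3 h4 h6
  obtain ⟨k, hk, hkn, hR⟩ := h1
  have hn0 : (0 : ℝ) < n := by exact_mod_cast (by omega : 0 < n)
  have hn1 : (1 : ℝ) ≤ n := by exact_mod_cast (by omega : 1 ≤ n)
  obtain ⟨x, hx⟩ : ∃ x, x = (n : ℝ) ^ (θ - ε' / 2) := ⟨_, rfl⟩
  have hx1 : 1 ≤ x := by rw [hx]; exact Real.one_le_rpow hn1 (by linarith)
  rw [← hx] at h4
  obtain ⟨k', g1, g2, g3⟩ := half_nat hx1 (h4.trans hk)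
  have g4 := hlow n h6 k' g1 (by omega)
  have g7 : R (2 * k' / n) ≤ R ((k : ℝ) / n) := by
    apply R_mono (by positivity)
    · apply div_le_div_of_nonneg_right _ hn0.le
      exact_mod_cast g2
    · rw [div_le_one hn0]
      exact_mod_cast hkn.le
  have g8 := mul_le_mul_of_nonneg_left g7 hn0.le
  have g9 : (n : ℝ) ^ (2 * θ - ε) ≤ (k' : ℝ) ^ 2 := by
    calc (n : ℝ) ^ (2 * θ - ε) ≤ (n : ℝ) ^ (2 * θ - ε') :=
          Real.rpow_le_rpow_of_exponent_le hn1 (by linarith)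
      _ = x ^ 2 := by
          rw [hx, rpow_sq hn0.le]
          congr 1
          ring
      _ ≤ _ := pow_le_pow_left₀ (by linarith) g3 2
  refine le_trans (le_trans (Real.exp_le_exp.2 ?_) g4) (par_anti (by omega) g9)
  linarith

/-! ### the mean -/

/-- the mean area -/
noncomputable def ma (n : ℕ) : ℝ :=
  (∑ᶠ f ∈ {f : ZMod (2 * n) → ℤ × ℤ | IsLoop (2 * n) f}, (area (2 * n) f : ℝ)) /
    ({f : ZMod (2 * n) → ℤ × ℤ | IsLoop (2 * n) f}.ncard : ℝ)

theorem area_le {n : ℕ} (hn : 1 ≤ n) {f : ZMod (2 * n) → ℤ × ℤ} (hf : IsLoop (2 * n) f) :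
    (area (2 * n) f : ℝ) ≤ 4 * (n : ℝ) ^ 2 := by
  have h1 := area_le_wh hn hf
  have h2 := width_le hn hf
  have h3 := width_le hn (swp_loop hf)
  have h4 : area (2 * n) f ≤ (2 * n) * (2 * n) := h1.trans (Nat.mul_le_mul h2 h3)
  have h5 : (area (2 * n) f : ℝ) ≤ (2 * n) * (2 * n) := by exact_mod_cast h4
  linarith

theorem ma_le {n : ℕ} (hn : 1 ≤ n) {r : ℝ} (hr : 0 ≤ r)
    (hl : 0 < ({f : ZMod (2 * n) → ℤ × ℤ | IsLoop (2 * n) f}.ncard : ℝ)) :
    ma n ≤ r + 4 * (n : ℝ) ^ 2 * par n r := by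
  have hfin := loops_finite hn
  unfold ma par
  rw [div_le_iff₀ hl, finsum_mem_eq_finite_toFinset_sum _ hfin]
  have h1 : ∀ f ∈ hfin.toFinset, (area (2 * n) f : ℝ) ≤
      r + (if r ≤ area (2 * n) f then 4 * (n : ℝ) ^ 2 else 0) := by
    intro f hf
    rw [Set.Finite.mem_toFinset] at hf
    have h2 := area_le hn hf
    split_ifs with h3
    · linarith
    · push Not at h3
      linarith
  refine (Finset.sum_le_sum h1).trans ?_
  rw [Finset.sum_add_distrib, Finset.sum_const, nsmul_eq_mul, ← Finset.sum_filter,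
    Finset.sum_const, nsmul_eq_mul]
  have e1 : (hfin.toFinset.card : ℝ) =
      ({f : ZMod (2 * n) → ℤ × ℤ | IsLoop (2 * n) f}.ncard : ℝ) := by
    rw [Set.ncard_eq_toFinset_card _ hfin]
  have e2 : ((hfin.toFinset.filter (fun f => r ≤ (area (2 * n) f : ℝ))).card : ℝ) =
      ({f : ZMod (2 * n) → ℤ × ℤ | IsLoop (2 * n) f ∧ r ≤ area (2 * n) f}.ncard : ℝ) := by
    rw [← Set.ncard_coe_finset]
    congr 2
    ext f
    simp
  rw [e1, e2]
  apply le_of_eq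
  field_simp

theorem areaUp_ma {θ : ℝ} (hθ : 0 < θ) (A : AreaUp θ) :
    ∀ ε : ℝ, 0 < ε → ∀ᶠ n : ℕ in atTop, ma n ≤ (n : ℝ) ^ (2 * θ + ε) := by
  intro ε hε
  obtain ⟨δ, hδ, hA⟩ := A (ε / 2) (by linarith)
  obtain ⟨K0, -, hw⟩ := ln_le
  have hlog : ∀ᶠ n : ℕ in atTop, 2 * Real.log n ≤ (n : ℝ) ^ δ := by
    have h1 := (isLittleO_log_rpow_atTop hδ).bound (show (0 : ℝ) < 1 / 2 by norm_num)
    have h2 := tendsto_natCast_atTop_atTop (R := ℝ) |>.eventually h1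
    filter_upwards [h2, eventually_ge_atTop 1] with n hn hn1
    rw [Real.norm_eq_abs, Real.norm_eq_abs] at hn
    have hn0 : (0 : ℝ) ≤ n := Nat.cast_nonneg _
    rw [abs_of_nonneg (Real.rpow_nonneg hn0 _)] at hn
    have := le_abs_self (Real.log (n : ℝ))
    linarith
  filter_upwards [hA, hlog, ev_pow 2 (show 2 * θ + ε / 2 < 2 * θ + ε by linarith),
    ev_pow 8 (show (0 : ℝ) < 2 * θ + ε by linarith), eventually_ge_atTop 2] with
    n hn1 hn2 hn3 hn4 hn5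
  have hn0 : (0 : ℝ) < n := by exact_mod_cast (by omega : 0 < n)
  obtain ⟨hl, -⟩ := hw n hn5
  have h1 := ma_le (n := n) (by omega) (r := (n : ℝ) ^ (2 * θ + ε / 2))
    (Real.rpow_nonneg hn0.le _) hl
  have h2 : par n ((n : ℝ) ^ (2 * θ + ε / 2)) ≤ 1 / (n : ℝ) ^ 2 := by
    refine hn1.trans ?_
    have hp : (0 : ℝ) < (n : ℝ) ^ 2 := by positivity
    rw [one_div, ← Real.exp_log (inv_pos.2 hp), Real.log_inv, Real.log_pow]
    push_cast
    exact Real.exp_le_exp.2 (by linarith)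
  have h3 : 4 * (n : ℝ) ^ 2 * par n ((n : ℝ) ^ (2 * θ + ε / 2)) ≤ 4 := by
    calc 4 * (n : ℝ) ^ 2 * par n ((n : ℝ) ^ (2 * θ + ε / 2)) ≤ 4 * (n : ℝ) ^ 2 * (1 / (n : ℝ) ^ 2) :=
          mul_le_mul_of_nonneg_left h2 (by positivity)
      _ = 4 := by field_simp
  rw [Real.rpow_zero, mul_one] at hn4
  linarith

end Pool.Agent.TH262.SawL
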