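import Mathlib

/-!
A duality lemma for finite sets of points.
-/

set_option autoImplicit false

namespace Pool.Agent.TH262.SawL

open Finset

/-- **Duality.** -/
theorem dual {ι : Type} [DecidableEq ι] (S : Finset ι) (y : ι → ℝ × ℝ) (ψ : ι → ℝ) (x : ℝ × ℝ)
    (hx : ∃ i ∈ S, y i = x) (B : ℝ)
    (hB : ∀ h : ℝ × ℝ, ∃ i ∈ S, -B ≤ h.1 * ((y i).1 - x.1) + h.2 * ((y i).2 - x.2) - ψ i) :
    ∃ α : ι → ℝ, (∀ i ∈ S, 0 ≤ α i) ∧ ∑ i ∈ S, α i = 1 ∧ ∑ i ∈ S, α i * (y i).1 = x.1 ∧
      ∑ i ∈ S, α i * (y i).2 = x.2 ∧ ∑ i ∈ S, α i * ψ i ≤ B := by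
  classical
  set P : ι → ℝ × ℝ × ℝ := fun i => ((y i).1 - x.1, (y i).2 - x.2, ψ i) with hP
  by_cases hdis : Disjoint (convexHull ℝ ((S.image P : Finset (ℝ × ℝ × ℝ)) : Set (ℝ × ℝ × ℝ)))
      {z : ℝ × ℝ × ℝ | z.1 = 0 ∧ z.2.1 = 0 ∧ z.2.2 ≤ B}
  · exfalso
    have hc1 : Convex ℝ (convexHull ℝ ((S.image P : Finset (ℝ × ℝ × ℝ)) : Set (ℝ × ℝ × ℝ))) :=
      convex_convexHull _ _
    have hc2 : IsCompact (convexHull ℝ ((S.image P : Finset (ℝ × ℝ × ℝ)) :
        Set (ℝ × ℝ × ℝ))) := Set.Finite.isCompact_convexHull (𝕜 := ℝ) (Finset.finite_toSet _)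
    have hc3 : Convex ℝ {z : ℝ × ℝ × ℝ | z.1 = 0 ∧ z.2.1 = 0 ∧ z.2.2 ≤ B} := by
      intro u hu v hv s t hs ht hst
      obtain ⟨u1, u2, u3⟩ := hu
      obtain ⟨v1, v2, v3⟩ := hv
      refine ⟨?_, ?_, ?_⟩
      · simp [u1, v1]
      · simp [u2, v2]
      · simp only [Prod.snd_add, Prod.smul_snd, smul_eq_mul]
        have h3 := mul_le_mul_of_nonneg_left u3 hs
        have h4 := mul_le_mul_of_nonneg_left v3 ht
        have h5 : B = s * B + t * B := by rw [← add_mul, hst, one_mul]
        linarith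
    have hc4 : IsClosed {z : ℝ × ℝ × ℝ | z.1 = 0 ∧ z.2.1 = 0 ∧ z.2.2 ≤ B} := by
      apply IsClosed.inter
      · exact isClosed_eq continuous_fst continuous_const
      · apply IsClosed.inter
        · exact isClosed_eq (continuous_fst.comp continuous_snd) continuous_const
        · exact isClosed_le (continuous_snd.comp continuous_snd) continuous_const
    obtain ⟨f, u, v, h1, h2, h3⟩ := geometric_hahn_banach_compact_closed hc1 hc2 hc3 hc4 hdis
    set g1 := f (1, 0, 0) with hg1
    set g2 := f (0, 1, 0) with hg2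
    set g3 := f (0, 0, 1) with hg3
    have hf : ∀ z : ℝ × ℝ × ℝ, f z = z.1 * g1 + z.2.1 * g2 + z.2.2 * g3 := by
      intro z
      have e : z = z.1 • ((1 : ℝ), (0 : ℝ), (0 : ℝ)) + z.2.1 • ((0 : ℝ), (1 : ℝ), (0 : ℝ)) +
          z.2.2 • ((0 : ℝ), (0 : ℝ), (1 : ℝ)) := by
        ext <;> simp
      conv_lhs => rw [e]
      rw [map_add, map_add, map_smul, map_smul, map_smul]
      simp only [smul_eq_mul, hg1, hg2, hg3]
    have hT : ∀ t ≤ B, v < t * g3 := by
      intro t ht
      have := h3 (0, 0, t) ⟨rfl, rfl, ht⟩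
      rw [hf] at this
      simpa using this
    have hg3' : g3 ≤ 0 := by
      by_contra hcon
      push Not at hcon
      have h4 := hT (min B (v / g3)) (min_le_left _ _)
      have h5 : min B (v / g3) * g3 ≤ v := by
        calc min B (v / g3) * g3 ≤ (v / g3) * g3 :=
              mul_le_mul_of_nonneg_right (min_le_right _ _) hcon.le
          _ = v := by field_simp
      linarith
    have hS : ∀ i ∈ S, ((y i).1 - x.1) * g1 + ((y i).2 - x.2) * g2 + ψ i * g3 < u := by
      intro i hi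
      have := h1 (P i) (subset_convexHull ℝ _ (by
        rw [Finset.coe_image]
        exact ⟨i, hi, rfl⟩))
      rw [hf] at this
      simpa [hP] using this
    rcases hg3'.eq_or_lt with h0 | h0
    · obtain ⟨i, hi, hix⟩ := hx
      have h4 := hS i hi
      have h5 := hT B le_rfl
      rw [h0, mul_zero] at h4 h5
      rw [hix] at h4
      simp only [sub_self, zero_mul, add_zero] at h4
      linarith
    · obtain ⟨i, hi, hBi⟩ := hB (g1 / (-g3), g2 / (-g3))
      have h4 := hS i hi
      have h5 := hT B le_rfl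
      simp only at hBi
      have h6 : 0 < -g3 := by linarith
      have h7 : -B * (-g3) ≤ (g1 / (-g3) * ((y i).1 - x.1) + g2 / (-g3) * ((y i).2 - x.2) - ψ i) *
          (-g3) := mul_le_mul_of_nonneg_right hBi h6.le
      have h8 : (g1 / (-g3) * ((y i).1 - x.1) + g2 / (-g3) * ((y i).2 - x.2) - ψ i) * (-g3) =
          g1 * ((y i).1 - x.1) + g2 * ((y i).2 - x.2) + ψ i * g3 := by
        have hne : -g3 ≠ 0 := h6.ne'
        have e1 : g1 / (-g3) * (-g3) = g1 := div_mul_cancel₀ _ hne
        have e2 : g2 / (-g3) * (-g3) = g2 := div_mul_cancel₀ _ hne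
        calc (g1 / (-g3) * ((y i).1 - x.1) + g2 / (-g3) * ((y i).2 - x.2) - ψ i) * (-g3)
            = (g1 / (-g3) * (-g3)) * ((y i).1 - x.1) + (g2 / (-g3) * (-g3)) * ((y i).2 - x.2) +
              ψ i * g3 := by ring
          _ = _ := by rw [e1, e2]
      rw [h8] at h7
      linarith
  · rw [Set.not_disjoint_iff] at hdis
    obtain ⟨z, hz1, hz2, hz3, hz4⟩ := hdis
    rw [Finset.mem_convexHull'] at hz1
    obtain ⟨w, hw0, hw1, hwz⟩ := hz1
    -- weights on `S`: distribute over the fibres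
    set m : ι → ℝ := fun i => ((S.filter (fun j => P j = P i)).card : ℝ) with hm
    have hmpos : ∀ i ∈ S, 0 < m i := by
      intro i hi
      have h5 : 0 < (S.filter (fun j => P j = P i)).card :=
        Finset.card_pos.2 ⟨i, Finset.mem_filter.2 ⟨hi, rfl⟩⟩
      rw [hm]
      simp only
      exact_mod_cast h5
    have key : ∀ F : ℝ × ℝ × ℝ → ℝ, ∑ i ∈ S, (w (P i) / m i) * F (P i) =
        ∑ e ∈ S.image P, w e * F e := by
      intro F
      rw [← Finset.sum_fiberwise_of_maps_to (s := S) (t := S.image P) (g := P)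
        (fun i hi => Finset.mem_image_of_mem P hi)]
      apply Finset.sum_congr rfl
      intro e he
      obtain ⟨i0, hi0, rfl⟩ := Finset.mem_image.1 he
      have e1 : ∀ i ∈ S.filter (fun i => P i = P i0), (w (P i) / m i) * F (P i) =
          (w (P i0) / m i0) * F (P i0) := by
        intro i hi
        rw [Finset.mem_filter] at hi
        have : m i = m i0 := by
          rw [hm]
          simp only
          rw [hi.2]
        rw [this, hi.2]
      rw [Finset.sum_congr rfl e1, Finset.sum_const, nsmul_eq_mul]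
      have e2 : ((S.filter (fun i => P i = P i0)).card : ℝ) = m i0 := rfl
      rw [e2]
      have := (hmpos i0 hi0).ne'
      field_simp
    have hz : z = (z.1, z.2.1, z.2.2) := rfl
    have c1 := congrArg Prod.fst hwz
    have c2 := congrArg (fun z : ℝ × ℝ × ℝ => z.2.1) hwz
    have c3 := congrArg (fun z : ℝ × ℝ × ℝ => z.2.2) hwz
    simp only [Prod.fst_sum, Prod.snd_sum, Prod.smul_fst, Prod.smul_snd, smul_eq_mul] at c1 c2 c3
    have k0 := key (fun _ => 1)
    simp only [mul_one] at k0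
    rw [hw1] at k0
    have k1 := key (fun e => e.1)
    have k2 := key (fun e => e.2.1)
    have k3 := key (fun e => e.2.2)
    rw [c1, hz2] at k1
    rw [c2, hz3] at k2
    rw [c3] at k3
    refine ⟨fun i => w (P i) / m i, ?_, k0, ?_, ?_, ?_⟩
    · intro i hi
      exact div_nonneg (hw0 _ (Finset.mem_image_of_mem P hi)) (hmpos i hi).le
    · have e1 : ∀ i ∈ S, w (P i) / m i * (y i).1 = (w (P i) / m i) * (P i).1 +
          (w (P i) / m i) * x.1 := by
        intro i _
        simp only [hP]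
        ring
      rw [Finset.sum_congr rfl e1, Finset.sum_add_distrib, k1, ← Finset.sum_mul, k0]
      ring
    · have e1 : ∀ i ∈ S, w (P i) / m i * (y i).2 = (w (P i) / m i) * (P i).2.1 +
          (w (P i) / m i) * x.2 := by
        intro i _
        simp only [hP]
        ring
      rw [Finset.sum_congr rfl e1, Finset.sum_add_distrib, k2, ← Finset.sum_mul, k0]
      ring
    · have e1 : ∀ i ∈ S, w (P i) / m i * ψ i = (w (P i) / m i) * (P i).2.2 := by
        intro i _
        rfl
      rw [Finset.sum_congr rfl e1, k3]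
      exact hz4

end Pool.Agent.TH262.SawL
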