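import Pool.Agent.TH262.SawL.Lam
import Pool.Agent.TH262.SawL.Dual
import Pool.Agent.TH262.SawL.Conc

/-!
The uniform local large deviation estimate for the end point of a self-avoiding walk.
-/

set_option autoImplicit false

namespace Pool.Agent.TH262.SawL

open Pool.Agent.TH795.EP Pool.Agent.TH262.SawE H981 Finset

theorem pow_le_four {n : ℕ} (hn : 2 ≤ n) :
    Real.log n ^ 3 ≤ 2 * Real.log n ^ 4 ∧ Real.log n ≤ 4 * Real.log n ^ 4 := by
  have hlog := log_pos' hn
  have hlog2 : Real.log 2 ≤ Real.log n := log_ge hn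
  have hl2 := Real.log_two_gt_d9
  have h1 : 1 ≤ 2 * Real.log n := by linarith
  have h2 := pow_pos hlog 3
  constructor
  · nlinarith
  · have h3 : 1 ≤ 4 * Real.log n ^ 3 := by
      have h4 : (0.63 : ℝ) ≤ Real.log n := by linarith
      have h5 : (0.63 : ℝ) ^ 3 ≤ Real.log n ^ 3 := pow_le_pow_left₀ (by norm_num) h4 3
      norm_num at h5
      linarith
    calc Real.log n = 1 * Real.log n := (one_mul _).symm
      _ ≤ (4 * Real.log n ^ 3) * Real.log n := mul_le_mul_of_nonneg_right h3 hlog.le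
      _ = _ := by ring

/-- **Uniform local large deviations.** -/
theorem ldp_words : ∃ K : ℝ, 0 ≤ K ∧ ∀ n : ℕ, 2 ≤ n → ∀ x y : ℤ, (x, y) ≠ (0, 0) →
    (x + y - n) % 2 = 0 → |x| + |y| ≤ n →
    |Real.log ((a n x y : ℝ) / c n) + n * Rate ((x : ℝ) / n, (y : ℝ) / n)| ≤
      K * Real.log n ^ 4 := by
  classical
  obtain ⟨K1, hK1, hup, -⟩ := exists_K
  obtain ⟨K2, hK2, hconc⟩ := near_concave
  obtain ⟨K3, hK3, hZ⟩ := Z_le
  refine ⟨2 * K1 + K2 + 2 * K3 + 24, by positivity, ?_⟩
  intro n hn x y hxy hpar hle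
  have hlog := log_pos' hn
  obtain ⟨q3, q1⟩ := pow_le_four hn
  have hL4 : 0 ≤ Real.log n ^ 4 := by positivity
  have hn0 : (0 : ℝ) < n := by exact_mod_cast (by omega : 0 < n)
  have ha1 := one_le_a hxy hpar hle
  have ha : (0 : ℝ) < a n x y := by exact_mod_cast ha1
  have hv : (((x : ℝ) / n, (y : ℝ) / n) : ℝ × ℝ) ∈ Dia := by
    show |(x : ℝ) / n| + |(y : ℝ) / n| ≤ 1
    rw [abs_div, abs_div, abs_of_pos hn0, ← add_div, div_le_one hn0]
    exact_mod_cast hle
  have hc := c_pos n
  have hmu := mu_pos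
  have hc1 : n * Real.log mu ≤ Real.log (c n) := by
    have h1 : mu ^ n ≤ c n := by rw [c_eq]; exact mu_pow_le n
    have h2 := Real.log_le_log (pow_pos hmu n) h1
    rwa [Real.log_pow] at h2
  have hc2 : Real.log (c n) ≤ n * Real.log mu + K1 * Real.log n ^ 3 := by
    have h2 := Real.log_le_log hc (hup n hn n le_rfl)
    rw [Real.log_mul (pow_pos hmu n).ne' (q_pos _ _).ne', Real.log_pow] at h2
    have h3 : Real.log (q n K1) = K1 * Real.log n ^ 3 := by unfold q; rw [Real.log_exp]
    rwa [h3] at h2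
  -- upper bound
  have hupper : Real.log (a n x y) + n * Rate ((x : ℝ) / n, (y : ℝ) / n) ≤
      n * Real.log mu + K3 * Real.log n ^ 3 := by
    have h1 : Rate ((x : ℝ) / n, (y : ℝ) / n) ≤
        (n * Real.log mu + K3 * Real.log n ^ 3 - Real.log (a n x y)) / n := by
      apply ciSup_le
      intro h
      rw [le_div_iff₀ hn0]
      simp only
      have h2 := Real.log_le_log (mul_pos ha (Real.exp_pos _)) (term_le_Z h n x y)
      rw [Real.log_mul ha.ne' (Real.exp_pos _).ne', Real.log_exp] at h2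
      have h3 := hZ n hn h
      have e : (h.1 * ((x : ℝ) / n) + h.2 * ((y : ℝ) / n) - Lam h) * n =
          h.1 * x + h.2 * y - n * Lam h := by
        field_simp
      rw [e]
      linarith
    rw [le_div_iff₀ hn0] at h1
    linarith
  -- lower bound
  obtain ⟨S, hS⟩ : ∃ S, S = (Bx n).filter (fun z => 0 < a n z.1 z.2) := ⟨_, rfl⟩
  have hxS : (x, y) ∈ S := by
    obtain ⟨w, hw, hx, hy, hl⟩ := exists_of_a (show 0 < a n x y from ha1)
    rw [hS, Finset.mem_filter]
    refine ⟨?_, ha1⟩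
    rw [← hx, ← hy]
    exact mem_Bx hl
  have hl2n := log_two_n hn
  obtain ⟨α, hα0, hα1, hαx, hαy, hαψ⟩ := dual S (fun z => ((z.1 : ℝ), (z.2 : ℝ)))
    (fun z => - Real.log (a n z.1 z.2)) ((x : ℝ), (y : ℝ)) ⟨(x, y), hxS, rfl⟩
    (n * Rate ((x : ℝ) / n, (y : ℝ) / n) - n * Real.log mu + 2 * Real.log (2 * (n : ℝ) + 1)) (by
      intro h
      have hne : (Bx n).Nonempty := by
        rw [← Finset.card_pos, card_Bx]
        positivity
      obtain ⟨z, hz, hmax⟩ := Finset.exists_max_image (Bx n)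
        (fun z => (a n z.1 z.2 : ℝ) * Real.exp (h.1 * z.1 + h.2 * z.2)) hne
      have h1 := Finset.sum_le_card_nsmul _ _ _ hmax
      rw [← Z_eq, card_Bx, nsmul_eq_mul] at h1
      have h2 := Z_pos h n
      have h3 : 0 < a n z.1 z.2 := by
        by_contra hcon
        have : a n z.1 z.2 = 0 := by omega
        rw [this] at h1
        simp at h1
        linarith
      have h4 : (0 : ℝ) < a n z.1 z.2 := by exact_mod_cast h3
      refine ⟨z, ?_, ?_⟩
      · rw [hS, Finset.mem_filter]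
        exact ⟨hz, h3⟩
      · have h5 := Real.log_le_log h2 h1
        rw [Real.log_mul (by positivity) (by positivity), Real.log_mul h4.ne'
          (Real.exp_pos _).ne', Real.log_exp] at h5
        push_cast at h5
        rw [Real.log_pow] at h5
        push_cast at h5
        have h6 := Lam_le h (n := n) (by omega)
        have h7 := le_rate hv h
        simp only at h7
        have h8 : h.1 * x + h.2 * y - n * Lam h ≤ n * Rate ((x : ℝ) / n, (y : ℝ) / n) := by
          have h9 := mul_le_mul_of_nonneg_left h7 hn0.le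
          refine le_trans (le_of_eq ?_) h9
          field_simp
        simp only
        nlinarith)
  obtain ⟨-, hcc⟩ := hconc n hn (ℤ × ℤ) inferInstance S (fun z => z) α x y
    (fun z hz => by rw [hS, Finset.mem_filter] at hz; exact hz.2) hα0 hα1 hαx hαy hxy hpar
  have hsum : ∑ z ∈ S, α z * Real.log (a n z.1 z.2) = - ∑ z ∈ S, α z * (- Real.log (a n z.1 z.2)) := by
    rw [← Finset.sum_neg_distrib]
    apply Finset.sum_congr rfl
    intro z _
    ring
  rw [hsum] at hcc
  rw [Real.log_div ha.ne' hc.ne', abs_le]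
  have e1 : K1 * Real.log n ^ 3 ≤ 2 * K1 * Real.log n ^ 4 := by
    nlinarith [mul_le_mul_of_nonneg_left q3 hK1]
  have e3 : K3 * Real.log n ^ 3 ≤ 2 * K3 * Real.log n ^ 4 := by
    nlinarith [mul_le_mul_of_nonneg_left q3 hK3]
  have p1 : 0 ≤ K1 * Real.log n ^ 4 := mul_nonneg hK1 hL4
  have p2 : 0 ≤ K2 * Real.log n ^ 4 := mul_nonneg hK2 hL4
  have p3 : 0 ≤ K3 * Real.log n ^ 4 := mul_nonneg hK3 hL4
  constructor
  · linarith
  · linarith

end Pool.Agent.TH262.SawL
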