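import Pool.Agent.TH262.SawL.Conc
import Pool.Agent.TH262.SawL.Short

/-!
Joint concavity in the length and the ends.
-/

set_option autoImplicit false

namespace Pool.Agent.TH262.SawL

open Pool.Agent.TH795.EP Pool.Agent.TH262.SawE H981 Finset

/-- **Joint quasi-log-concavity** of the number of words in the length and the displacement. -/
theorem joint_concave : ∃ K : ℝ, 0 ≤ K ∧ ∀ n : ℕ, 2 ≤ n → ∀ (ι : Type) (_ : DecidableEq ι)
    (s : Finset ι) (p : ι → ℕ × ℤ × ℤ) (w : ι → ℝ) (m : ℕ) (X Y : ℤ), s.card ≤ 3 → m ≤ n →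
    (∀ i ∈ s, Ok (p i) ∧ (p i).1 ≤ n) → (∀ i ∈ s, 0 ≤ w i ∧ w i ≤ 1) →
    ∑ i ∈ s, w i • vec (p i) = ((m : ℝ), (X : ℝ), (Y : ℝ)) → (X, Y) ≠ (0, 0) →
    (X + Y - m) % 2 = 0 →
    Ok (m, X, Y) ∧ ∑ i ∈ s, w i * lg (p i) ≤ lg (m, X, Y) + K * Real.log n ^ 4 := by
  obtain ⟨K1, hK1, -, hlow⟩ := exists_K
  obtain ⟨K2, hK2, hglue⟩ := a_glue
  refine ⟨21 * K2 + 2 * K1 + 400, by positivity, ?_⟩
  intro n hn ι _ s p α m X Y hs3 hmn hp hα hV hXY hpar
  have hlog := log_pos' hn
  have hlog2 : Real.log 2 ≤ Real.log n := log_ge hn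
  have hl2 := Real.log_two_gt_d9
  obtain ⟨M, r, e1, e2, c1, hMok, c3, c4, c5, m1, m2, m3, m4⟩ := cut (n := n) (Nat.clog 2 n) ι
    inferInstance s p α (m : ℤ) X Y hs3
    (fun z hz => ⟨(hp z hz).1, (hp z hz).2.trans (Nat.le_pow_clog (by norm_num) n), (hp z hz).2⟩)
    hα (by rw [hV]; push_cast; rfl) (Int.dvd_of_emod_eq_zero hpar)
  have hMlen : M.length ≤ 6 * Nat.clog 2 n + 1 := by omega
  have hrpar : (e1 + e2 - r) % 2 = 0 := by
    have h1 : (2 : ℤ) ∣ ((M.map (fun p => p.2.1)).sum + (M.map (fun p => p.2.2)).sum -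
        (((M.map (fun p => p.1)).sum : ℕ) : ℤ)) := by
      clear m1 m2 m3 m4 hMlen c1
      induction M with
      | nil => simp
      | cons q M ih =>
        have h2 := ih (fun q' hq' => hMok q' (List.mem_cons_of_mem _ hq'))
        have h3 := (hMok q List.mem_cons_self).par
        simp only [List.map_cons, List.sum_cons]
        push_cast at h2 ⊢
        omega
    omega
  have hcl := clog_le hn
  have hl3 := log_two_n hn
  have hsq : 1 ≤ 4 * Real.log n ^ 2 := by nlinarith
  have hsq4 : Real.log n ^ 2 ≤ 4 * Real.log n ^ 4 := by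
    have := sq_nonneg (Real.log n ^ 2)
    nlinarith [mul_le_mul_of_nonneg_left hsq (sq_nonneg (Real.log n))]
  have hcu4 : Real.log n ^ 3 ≤ 2 * Real.log n ^ 4 := by
    have h1 : 1 ≤ 2 * Real.log n := by linarith
    have h2 := pow_pos hlog 3
    nlinarith
  have herr : (6 * (Nat.clog 2 n : ℝ) + 6) * Real.log (2 * (n : ℝ) + 1) ≤
      330 * Real.log n ^ 4 := by
    have h1 : 6 * (Nat.clog 2 n : ℝ) + 6 ≤ 27 * Real.log n := by linarith
    have h2 : 0 ≤ Real.log (2 * (n : ℝ) + 1) :=
      Real.log_nonneg (by have : (0 : ℝ) ≤ n := Nat.cast_nonneg _; linarith)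
    calc (6 * (Nat.clog 2 n : ℝ) + 6) * Real.log (2 * (n : ℝ) + 1)
        ≤ (27 * Real.log n) * (3 * Real.log n) := by
          apply mul_le_mul h1 hl3 h2 (by positivity)
      _ = 81 * Real.log n ^ 2 := by ring
      _ ≤ _ := by nlinarith
  have hG := fun m1 m2 (h : m1 + m2 ≤ n) => hglue n hn m1 m2 h
  rcases eq_or_ne (e1, e2) (0, 0) with he | he
  · -- no displacement left
    obtain ⟨he1, he2⟩ := Prod.mk.inj he
    rw [he1, add_zero] at m2
    rw [he2, add_zero] at m3
    have hz : ((M.map (fun p => p.2.1)).sum, (M.map (fun p => p.2.2)).sum) ≠ (0, 0) := by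
      rw [m2, m3]; exact hXY
    obtain ⟨g1, g2⟩ := glue_list hn hK2 hG _ M rfl hMok (by omega) hz
    rw [m2, m3] at g1 g2
    have hr : r = 0 ∨ r = 2 := by rw [he1, he2] at hrpar; omega
    obtain ⟨l, hl⟩ : ∃ l, l = (M.map (fun p => p.1)).sum := ⟨_, rfl⟩
    rw [← hl] at g1 g2 m1
    have g3 : (0 : ℝ) < a l X Y := by exact_mod_cast g1
    have hll : 1 ≤ l := by
      by_contra hcon
      have h0 : l = 0 := by omega
      obtain ⟨w, hw, hx, hy, hwl⟩ := g1.word
      simp only at hx hy hwl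
      rw [h0] at hwl
      have : w = [] := List.length_eq_zero_iff.1 hwl
      subst this
      apply hXY
      rw [← hx, ← hy]
      simp
    have hfin : 0 < a m X Y ∧ Real.log (a l X Y) ≤ Real.log (a m X Y) +
        (K1 + 21) * Real.log n ^ 3 := by
      rcases hr with hr | hr
      · have : l = m := by omega
        rw [this]
        rw [this] at g1
        refine ⟨g1, ?_⟩
        have := pow_pos hlog 3
        nlinarith [mul_nonneg (by linarith : (0 : ℝ) ≤ K1 + 21) this.le]
      · have h1 := lengthen hn hK1 (hlow n hn) (m := l) (j := 1) hll (by omega) X Y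
        have h2 : l + 2 * 1 = m := by omega
        rw [h2] at h1
        have h3 : 1 ≤ mu ^ (2 * 1) := one_le_pow₀ one_le_mu
        have h4 : (a l X Y : ℝ) ≤ q n (K1 + 21) * a m X Y := by nlinarith
        have h5 : (0 : ℝ) < a m X Y := by
          by_contra hcon
          push Not at hcon
          have := mul_nonpos_of_nonneg_of_nonpos (q_pos n (K1 + 21)).le hcon
          linarith
        refine ⟨by exact_mod_cast h5, ?_⟩
        have h6 := Real.log_le_log g3 h4
        rw [Real.log_mul (q_pos _ _).ne' h5.ne'] at h6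
        have h7 : Real.log (q n (K1 + 21)) = (K1 + 21) * Real.log n ^ 3 := by
          unfold q
          rw [Real.log_exp]
        linarith
    refine ⟨hfin.1, ?_⟩
    have h8 : (M.length : ℝ) * (K2 * Real.log n ^ 3) ≤ 21 * K2 * Real.log n ^ 4 := by
      have h9 : (M.length : ℝ) ≤ 6 * (Nat.clog 2 n : ℝ) + 1 := by exact_mod_cast hMlen
      calc (M.length : ℝ) * (K2 * Real.log n ^ 3) ≤ (21 * Real.log n) * (K2 * Real.log n ^ 3) := by
            apply mul_le_mul_of_nonneg_right _ (by positivity)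
            linarith
        _ = _ := by ring
    have h10 : lg (l, X, Y) = Real.log (a l X Y) := rfl
    have h10' : lg (m, X, Y) = Real.log (a m X Y) := rfl
    rw [h10] at g2
    rw [h10']
    have h11 : (K1 + 21) * Real.log n ^ 3 ≤ 2 * (K1 + 21) * Real.log n ^ 4 := by
      nlinarith [mul_le_mul_of_nonneg_left hcu4 (by linarith : (0 : ℝ) ≤ K1 + 21)]
    have h12 : 0 ≤ Real.log n ^ 4 := by positivity
    have h13 := hfin.2
    linarith
  · -- one more piece
    obtain ⟨rn, hrn⟩ : ∃ rn : ℕ, (rn : ℤ) = r := ⟨r.toNat, Int.toNat_of_nonneg c3⟩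
    have hok0 : Ok (rn, e1, e2) := by
      have := one_le_a (n := rn) he (by rw [hrn]; exact hrpar) (by rw [hrn]; exact c5)
      exact this
    have hMok' : ∀ q ∈ ((rn, e1, e2) :: M), Ok q := by
      intro q hq
      rcases List.mem_cons.1 hq with rfl | hq
      · exact hok0
      · exact hMok q hq
    have n1 : (((rn, e1, e2) :: M).map (fun p => p.1)).sum = m := by
      rw [List.map_cons, List.sum_cons]
      simp only
      omega
    have n2 : (((rn, e1, e2) :: M).map (fun p => p.2.1)).sum = X := by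
      rw [List.map_cons, List.sum_cons]
      simp only
      omega
    have n3 : (((rn, e1, e2) :: M).map (fun p => p.2.2)).sum = Y := by
      rw [List.map_cons, List.sum_cons]
      simp only
      omega
    have hz : ((((rn, e1, e2) :: M).map (fun p => p.2.1)).sum,
        (((rn, e1, e2) :: M).map (fun p => p.2.2)).sum) ≠ (0, 0) := by
      rw [n2, n3]; exact hXY
    obtain ⟨g1, g2⟩ := glue_list hn hK2 hG _ ((rn, e1, e2) :: M) rfl hMok' (by omega) hz
    rw [n1, n2, n3] at g1 g2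
    refine ⟨g1, ?_⟩
    rw [List.map_cons, List.sum_cons, List.length_cons] at g2
    have h11 := lg_nonneg hok0
    have h8 : ((M.length + 1 : ℕ) : ℝ) * (K2 * Real.log n ^ 3) ≤ 21 * K2 * Real.log n ^ 4 := by
      have h9 : ((M.length + 1 : ℕ) : ℝ) ≤ 6 * (Nat.clog 2 n : ℝ) + 2 := by
        exact_mod_cast (by omega : M.length + 1 ≤ 6 * Nat.clog 2 n + 2)
      calc ((M.length + 1 : ℕ) : ℝ) * (K2 * Real.log n ^ 3)
          ≤ (21 * Real.log n) * (K2 * Real.log n ^ 3) := by
            apply mul_le_mul_of_nonneg_right _ (by positivity)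
            linarith
        _ = _ := by ring
    have h12 : 0 ≤ Real.log n ^ 4 := by positivity
    have h13 : 0 ≤ K1 * Real.log n ^ 4 := mul_nonneg hK1 h12
    linarith

/-- half of a word -/
theorem halve : ∃ K : ℝ, 0 ≤ K ∧ ∀ n : ℕ, 2 ≤ n → ∀ m : ℕ, 2 * m ≤ n → ∀ x y : ℤ,
    (x, y) ≠ (0, 0) → (x + y - m) % 2 = 0 → Ok (2 * m, 2 * x, 2 * y) →
    Ok (m, x, y) ∧ lg (2 * m, 2 * x, 2 * y) ≤ 2 * lg (m, x, y) + K * Real.log n ^ 4 := by
  obtain ⟨K, hK, h⟩ := joint_concave
  refine ⟨2 * K, by positivity, ?_⟩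
  intro n hn m hm x y hxy hpar hok
  obtain ⟨h1, h2⟩ := h n hn Unit inferInstance {()} (fun _ => (2 * m, 2 * x, 2 * y))
    (fun _ => 1 / 2) m x y (by simp) (by omega) (fun _ _ => ⟨hok, hm⟩)
    (fun _ _ => by norm_num) (by
      rw [Finset.sum_singleton]
      unfold vec
      push_cast
      ext <;> simp) hxy hpar
  refine ⟨h1, ?_⟩
  rw [Finset.sum_singleton] at h2
  linarith

/-- monotonicity along the first axis -/
theorem a_axis_mono : ∃ K : ℝ, 0 ≤ K ∧ ∀ n : ℕ, 2 ≤ n → ∀ x x' : ℤ, 0 < x → x ≤ x' →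
    Ok (n, x', 0) → (x - n) % 2 = 0 → Ok (n, x, 0) ∧
    lg (n, x', 0) ≤ lg (n, x, 0) + K * Real.log n ^ 4 := by
  obtain ⟨K, hK, h⟩ := joint_concave
  refine ⟨K, hK, ?_⟩
  intro n hn x x' hx hxx hok hpar
  have hx' : (0 : ℝ) < x' := by exact_mod_cast (by omega : 0 < x')
  have hx0 : (0 : ℝ) < x := by exact_mod_cast hx
  have hxr : (x : ℝ) ≤ x' := by exact_mod_cast hxx
  have hsg : a n (-x') 0 = a n x' 0 := a_sg n x' 0
  have hok2 : Ok (n, -x', 0) := by
    show 0 < a n (-x') 0
    rw [hsg]; exact hok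
  have ht : (x : ℝ) / x' ≤ 1 := by rw [div_le_one hx']; exact hxr
  have ht0 : 0 < (x : ℝ) / x' := by positivity
  obtain ⟨h1, h2⟩ := h n hn Bool inferInstance Finset.univ
    (fun b => if b then (n, x', 0) else (n, -x', 0))
    (fun b => if b then (1 + (x : ℝ) / x') / 2 else (1 - (x : ℝ) / x') / 2) n x 0 (by simp) le_rfl
    (fun b _ => by cases b <;> simp [hok, hok2])
    (fun b _ => by cases b <;> simp <;> constructor <;> linarith) (by
      rw [Fintype.sum_bool]
      simp only [if_true, Bool.false_eq_true, if_false]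
      unfold vec
      ext
      · simp; ring
      · simp; field_simp; ring
      · simp) (by
      intro h
      have := (Prod.mk.inj h).1
      omega) (by omega)
  refine ⟨h1, ?_⟩
  rw [Fintype.sum_bool] at h2
  simp only [if_true, Bool.false_eq_true, if_false] at h2
  have e : lg (n, -x', 0) = lg (n, x', 0) := by
    unfold lg
    simp only
    rw [hsg]
  rw [e] at h2
  linarith

end Pool.Agent.TH262.SawL
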