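import Pool.Agent.TH262.SawL.Glue

/-!
The Laplace transform of the end point of a self-avoiding walk: it equals `exp (n λ (h))` up to
quasi-polynomial factors, uniformly in the force `h`.
-/

set_option autoImplicit false

namespace Pool.Agent.TH262.SawL

open Pool.Agent.TH795.EP Pool.Agent.TH262.SawE H981 Finset

/-- partition function of the walk pulled with force `h` -/
noncomputable def Z (h : ℝ × ℝ) (n : ℕ) : ℝ :=
  ∑ w ∈ fs Saw n, Real.exp (h.1 * dx w + h.2 * dy w)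

theorem nonempty_fs (n : ℕ) : (fs Saw n).Nonempty := by
  rw [← Finset.card_pos]
  have := c_pos n
  unfold c at this
  exact_mod_cast this

theorem Z_pos (h : ℝ × ℝ) (n : ℕ) : 0 < Z h n :=
  Finset.sum_pos (fun _ _ => Real.exp_pos _) (nonempty_fs n)

/-- the box of the end points -/
noncomputable def Bx (n : ℕ) : Finset (ℤ × ℤ) := Icc (-(n : ℤ)) n ×ˢ Icc (-(n : ℤ)) n

theorem card_Bx (n : ℕ) : (Bx n).card = (2 * n + 1) ^ 2 := by
  unfold Bx
  rw [Finset.card_product, Int.card_Icc]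
  have e : ((n : ℤ) + 1 - -(n : ℤ)).toNat = 2 * n + 1 := by omega
  rw [e, sq]

theorem mem_Bx {n : ℕ} {w : List St} (hw : w.length = n) : (dx w, dy w) ∈ Bx n := by
  have h1 := abs_add_abs_le w
  rw [hw] at h1
  have h2 := abs_le.1 (le_trans (le_add_of_nonneg_right (abs_nonneg (dy w))) h1)
  have h3 := abs_le.1 (le_trans (le_add_of_nonneg_left (abs_nonneg (dx w))) h1)
  unfold Bx
  rw [Finset.mem_product, Finset.mem_Icc, Finset.mem_Icc]
  exact ⟨h2, h3⟩

theorem Z_eq (h : ℝ × ℝ) (n : ℕ) :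
    Z h n = ∑ z ∈ Bx n, (a n z.1 z.2 : ℝ) * Real.exp (h.1 * z.1 + h.2 * z.2) := by
  classical
  unfold Z
  rw [← Finset.sum_fiberwise_of_maps_to (s := fs Saw n) (t := Bx n)
    (g := fun w => (dx w, dy w)) (fun w hw => mem_Bx (mem_fs.1 hw).2)]
  apply Finset.sum_congr rfl
  intro z _
  have e1 : ∀ w ∈ (fs Saw n).filter (fun w => (dx w, dy w) = z),
      Real.exp (h.1 * dx w + h.2 * dy w) = Real.exp (h.1 * z.1 + h.2 * z.2) := by
    intro w hw
    rw [Finset.mem_filter] at hw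
    rw [← hw.2]
  rw [Finset.sum_congr rfl e1, Finset.sum_const, nsmul_eq_mul]
  congr 2
  unfold a
  congr 1
  ext w
  rw [Finset.mem_filter, mem_fs, mem_fs]
  constructor
  · rintro ⟨⟨h1, h2⟩, h3⟩
    rw [← h3]
    exact ⟨⟨h1, rfl, rfl⟩, h2⟩
  · rintro ⟨⟨h1, h4, h5⟩, h2⟩
    exact ⟨⟨h1, h2⟩, Prod.ext h4 h5⟩

theorem term_le_Z (h : ℝ × ℝ) (n : ℕ) (x y : ℤ) :
    (a n x y : ℝ) * Real.exp (h.1 * x + h.2 * y) ≤ Z h n := by
  rcases Nat.eq_zero_or_pos (a n x y) with h0 | h0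
  · rw [h0]
    simp only [Nat.cast_zero, zero_mul]
    exact (Z_pos h n).le
  · obtain ⟨w, hw, hx, hy, hl⟩ := exists_of_a h0
    rw [Z_eq]
    have hm : (x, y) ∈ Bx n := by
      rw [← hx, ← hy]
      exact mem_Bx hl
    have h5 : ∀ z ∈ Bx n, 0 ≤ (a n z.1 z.2 : ℝ) * Real.exp (h.1 * z.1 + h.2 * z.2) :=
      fun z _ => mul_nonneg (Nat.cast_nonneg _) (Real.exp_pos _).le
    have h6 := Finset.single_le_sum h5 hm
    simp only at h6
    exact h6

/-- submultiplicativity -/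
theorem Z_add_le (h : ℝ × ℝ) (m n : ℕ) : Z h (m + n) ≤ Z h m * Z h n := by
  classical
  unfold Z
  rw [Finset.sum_mul_sum, ← Finset.sum_product']
  have e : ∀ w ∈ fs Saw (m + n), Real.exp (h.1 * dx w + h.2 * dy w) =
      Real.exp (h.1 * dx (w.take m) + h.2 * dy (w.take m)) *
      Real.exp (h.1 * dx (w.drop m) + h.2 * dy (w.drop m)) := by
    intro w _
    rw [← Real.exp_add]
    have hx : dx w = dx (w.take m) + dx (w.drop m) := by
      rw [← dx_append, List.take_append_drop]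
    have hy : dy w = dy (w.take m) + dy (w.drop m) := by
      rw [← dy_append, List.take_append_drop]
    rw [hx, hy]
    push_cast
    ring_nf
  rw [Finset.sum_congr rfl e]
  have hinj : Set.InjOn (fun w : List St => (w.take m, w.drop m)) (fs Saw (m + n)) := by
    intro u _ v _ huv
    obtain ⟨h1, h2⟩ := Prod.mk.inj huv
    rw [← List.take_append_drop m u, ← List.take_append_drop m v, h1, h2]
  rw [← Finset.sum_image (g := fun w : List St => (w.take m, w.drop m))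
    (f := fun z : List St × List St => Real.exp (h.1 * dx z.1 + h.2 * dy z.1) *
      Real.exp (h.1 * dx z.2 + h.2 * dy z.2)) hinj]
  apply Finset.sum_le_sum_of_subset_of_nonneg
  · intro z hz
    rw [Finset.mem_image] at hz
    obtain ⟨w, hw, rfl⟩ := hz
    rw [mem_fs] at hw
    rw [Finset.mem_product, mem_fs, mem_fs]
    refine ⟨⟨hw.1.subw (List.take_prefix _ _).isInfix, ?_⟩,
      ⟨hw.1.subw (List.drop_suffix _ _).isInfix, ?_⟩⟩
    · simp only [List.length_take]; omega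
    · simp only [List.length_drop]; omega
  · intro z _ _
    positivity

/-- lower bound by the number of walks -/
theorem c_le_Z (h : ℝ × ℝ) (n : ℕ) : (c n : ℝ) ≤ Z h n := by
  have hsym : ∑ z ∈ Bx n, (a n z.1 z.2 : ℝ) * Real.exp (h.1 * z.1 + h.2 * z.2) =
      ∑ z ∈ Bx n, (a n z.1 z.2 : ℝ) * Real.exp (-(h.1 * z.1 + h.2 * z.2)) := by
    apply Finset.sum_nbij' (fun z => (-z.1, -z.2)) (fun z => (-z.1, -z.2))
    · intro z hz
      unfold Bx at hz ⊢
      rw [Finset.mem_product, Finset.mem_Icc, Finset.mem_Icc] at hz ⊢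
      simp only
      omega
    · intro z hz
      unfold Bx at hz ⊢
      rw [Finset.mem_product, Finset.mem_Icc, Finset.mem_Icc] at hz ⊢
      simp only
      omega
    · intro z _
      simp
    · intro z _
      simp
    · intro z _
      simp only
      rw [a_ng, a_sg]
      push_cast
      congr 2
      ring
  have h0 : (c n : ℝ) = ∑ z ∈ Bx n, (a n z.1 z.2 : ℝ) := by
    have := Z_eq (0, 0) n
    unfold Z at this
    simp only [zero_mul, add_zero, Real.exp_zero, mul_one, Finset.sum_const, nsmul_eq_mul] at this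
    exact this
  have h1 : 2 * (c n : ℝ) ≤ 2 * Z h n := by
    rw [two_mul (Z h n)]
    nth_rw 2 [Z_eq]
    rw [hsym, Z_eq, ← Finset.sum_add_distrib, h0, Finset.mul_sum]
    apply Finset.sum_le_sum
    intro z _
    have h2 := Real.add_one_le_exp (h.1 * z.1 + h.2 * z.2)
    have h3 := Real.add_one_le_exp (-(h.1 * z.1 + h.2 * z.2))
    have h4 : (0 : ℝ) ≤ a n z.1 z.2 := Nat.cast_nonneg _
    nlinarith
  linarith

theorem mu_le_Z (h : ℝ × ℝ) (n : ℕ) : mu ^ n ≤ Z h n := by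
  refine le_trans ?_ (c_le_Z h n)
  rw [c_eq]
  exact mu_pow_le n

/-- straight walks -/
theorem exp_le_Z (h : ℝ × ℝ) {n : ℕ} (hn : 1 ≤ n) :
    Real.exp (n * |h.1|) ≤ Z h n ∧ Real.exp (n * |h.2|) ≤ Z h n := by
  have key : ∀ x y : ℤ, (x, y) ≠ (0, 0) → (x + y - n) % 2 = 0 → |x| + |y| ≤ n →
      Real.exp (h.1 * x + h.2 * y) ≤ Z h n := by
    intro x y hxy hp hle
    have h1 := one_le_a hxy hp hle
    have h2 : (1 : ℝ) ≤ a n x y := by exact_mod_cast h1
    refine le_trans ?_ (term_le_Z h n x y)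
    have := Real.exp_pos (h.1 * x + h.2 * y)
    nlinarith
  have hn0 : (0 : ℤ) < n := by exact_mod_cast hn
  constructor
  · rcases abs_cases h.1 with ⟨h1, _⟩ | ⟨h1, _⟩
    · have := key n 0 (by simp; omega) (by simp) (by simp)
      rw [h1]
      refine le_trans (le_of_eq ?_) this
      push_cast
      congr 1
      ring
    · have := key (-n) 0 (by simp; omega) (by omega) (by simp)
      rw [h1]
      refine le_trans (le_of_eq ?_) this
      push_cast
      congr 1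
      ring
  · rcases abs_cases h.2 with ⟨h1, _⟩ | ⟨h1, _⟩
    · have := key 0 n (by simp; omega) (by simp) (by simp)
      rw [h1]
      refine le_trans (le_of_eq ?_) this
      push_cast
      congr 1
      ring
    · have := key 0 (-n) (by simp; omega) (by omega) (by simp)
      rw [h1]
      refine le_trans (le_of_eq ?_) this
      push_cast
      congr 1
      ring

/-- quasi-supermultiplicativity, uniformly in the force -/
theorem Z_super : ∃ K : ℝ, 0 ≤ K ∧ ∀ n : ℕ, 2 ≤ n → ∀ m1 m2 : ℕ, m1 + m2 ≤ n → ∀ h : ℝ × ℝ,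
    Z h m1 * Z h m2 ≤ q n K * Z h (m1 + m2) := by
  obtain ⟨K1, hK1, hup, -⟩ := exists_K
  obtain ⟨K2, hK2, hglue⟩ := a_glue
  refine ⟨K2 + 2 * K1 + 36, by positivity, ?_⟩
  intro n hn m1 m2 hm h
  have hZ := Z_pos h (m1 + m2)
  rw [Z_eq h m1, Z_eq h m2, Finset.sum_mul_sum]
  have hterm : ∀ z ∈ Bx m1, ∀ z' ∈ Bx m2,
      ((a m1 z.1 z.2 : ℝ) * Real.exp (h.1 * z.1 + h.2 * z.2)) *
      ((a m2 z'.1 z'.2 : ℝ) * Real.exp (h.1 * z'.1 + h.2 * z'.2)) ≤
      q n (K2 + 2 * K1) * Z h (m1 + m2) := by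
    intro z _ z' _
    by_cases hz : (z.1 + z'.1, z.2 + z'.2) = (0, 0)
    · obtain ⟨hz1, hz2⟩ := Prod.mk.inj hz
      have e1 : (z'.1 : ℝ) = - z.1 := by
        have : z'.1 = - z.1 := by omega
        rw [this]; push_cast; ring
      have e2 : (z'.2 : ℝ) = - z.2 := by
        have : z'.2 = - z.2 := by omega
        rw [this]; push_cast; ring
      have ha1 : (a m1 z.1 z.2 : ℝ) ≤ mu ^ m1 * q n K1 := by
        refine le_trans ?_ (hup n hn m1 (by omega))
        unfold a c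
        exact_mod_cast Finset.card_le_card (fun w hw => by
          rw [mem_fs] at hw ⊢
          exact ⟨hw.1.1, hw.2⟩)
      have ha2 : (a m2 z'.1 z'.2 : ℝ) ≤ mu ^ m2 * q n K1 := by
        refine le_trans ?_ (hup n hn m2 (by omega))
        unfold a c
        exact_mod_cast Finset.card_le_card (fun w hw => by
          rw [mem_fs] at hw ⊢
          exact ⟨hw.1.1, hw.2⟩)
      have hmu := mu_pos
      have hq1 := q_pos n K1
      calc ((a m1 z.1 z.2 : ℝ) * Real.exp (h.1 * z.1 + h.2 * z.2)) *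
          ((a m2 z'.1 z'.2 : ℝ) * Real.exp (h.1 * z'.1 + h.2 * z'.2))
          = ((a m1 z.1 z.2 : ℝ) * a m2 z'.1 z'.2) * (Real.exp (h.1 * z.1 + h.2 * z.2) *
            Real.exp (h.1 * z'.1 + h.2 * z'.2)) := by ring
        _ = (a m1 z.1 z.2 : ℝ) * a m2 z'.1 z'.2 := by
            rw [← Real.exp_add, e1, e2]
            rw [show h.1 * (z.1 : ℝ) + h.2 * (z.2 : ℝ) + (h.1 * -(z.1 : ℝ) + h.2 * -(z.2 : ℝ)) = 0
              by ring, Real.exp_zero, mul_one]
        _ ≤ (mu ^ m1 * q n K1) * (mu ^ m2 * q n K1) := by gcongr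
        _ = (q n K1 * q n K1) * mu ^ (m1 + m2) := by rw [pow_add]; ring
        _ ≤ q n (K2 + 2 * K1) * mu ^ (m1 + m2) := by
            rw [q_mul]
            apply mul_le_mul_of_nonneg_right _ (by positivity)
            exact q_mono hn (by linarith)
        _ ≤ _ := mul_le_mul_of_nonneg_left (mu_le_Z h _) (q_pos _ _).le
    · have h1 := hglue n hn m1 m2 hm z.1 z.2 z'.1 z'.2 hz
      have h2 := term_le_Z h (m1 + m2) (z.1 + z'.1) (z.2 + z'.2)
      have hq2 := q_pos n K2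
      calc ((a m1 z.1 z.2 : ℝ) * Real.exp (h.1 * z.1 + h.2 * z.2)) *
          ((a m2 z'.1 z'.2 : ℝ) * Real.exp (h.1 * z'.1 + h.2 * z'.2))
          = ((a m1 z.1 z.2 : ℝ) * a m2 z'.1 z'.2) * (Real.exp (h.1 * z.1 + h.2 * z.2) *
            Real.exp (h.1 * z'.1 + h.2 * z'.2)) := by ring
        _ = ((a m1 z.1 z.2 : ℝ) * a m2 z'.1 z'.2) *
            Real.exp (h.1 * (z.1 + z'.1 : ℤ) + h.2 * (z.2 + z'.2 : ℤ)) := by
            rw [← Real.exp_add]
            push_cast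
            congr 2
            ring
        _ ≤ (q n K2 * a (m1 + m2) (z.1 + z'.1) (z.2 + z'.2)) *
            Real.exp (h.1 * (z.1 + z'.1 : ℤ) + h.2 * (z.2 + z'.2 : ℤ)) := by
            apply mul_le_mul_of_nonneg_right h1 (Real.exp_pos _).le
        _ = q n K2 * (a (m1 + m2) (z.1 + z'.1) (z.2 + z'.2) *
            Real.exp (h.1 * (z.1 + z'.1 : ℤ) + h.2 * (z.2 + z'.2 : ℤ))) := by ring
        _ ≤ q n K2 * Z h (m1 + m2) := mul_le_mul_of_nonneg_left h2 hq2.le
        _ ≤ _ := mul_le_mul_of_nonneg_right (q_mono hn (by linarith)) hZ.le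
  have hsum : ∑ z ∈ Bx m1, ∑ z' ∈ Bx m2,
      ((a m1 z.1 z.2 : ℝ) * Real.exp (h.1 * z.1 + h.2 * z.2)) *
      ((a m2 z'.1 z'.2 : ℝ) * Real.exp (h.1 * z'.1 + h.2 * z'.2)) ≤
      ∑ _z ∈ Bx m1, ∑ _z' ∈ Bx m2, q n (K2 + 2 * K1) * Z h (m1 + m2) :=
    Finset.sum_le_sum fun z hz => Finset.sum_le_sum fun z' hz' => hterm z hz z' hz'
  rw [Finset.sum_const, Finset.sum_const, nsmul_eq_mul, nsmul_eq_mul, card_Bx, card_Bx] at hsum
  have hnum : ((((2 * m1 + 1) ^ 2 : ℕ) : ℝ)) * (((2 * m2 + 1) ^ 2 : ℕ) : ℝ) ≤ q n 36 := by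
    have h3 := pow_le_q hn 12
    norm_num at h3
    refine le_trans ?_ h3
    have h5 : 2 * m1 + 1 ≤ n ^ 3 := by nlinarith [Nat.mul_le_mul hn hn, Nat.mul_le_mul (Nat.mul_le_mul hn hn) (le_refl n)]
    have h6 : 2 * m2 + 1 ≤ n ^ 3 := by nlinarith [Nat.mul_le_mul hn hn, Nat.mul_le_mul (Nat.mul_le_mul hn hn) (le_refl n)]
    have h4 : (2 * m1 + 1) ^ 2 * (2 * m2 + 1) ^ 2 ≤ n ^ 12 := by
      calc (2 * m1 + 1) ^ 2 * (2 * m2 + 1) ^ 2 ≤ (n ^ 3) ^ 2 * (n ^ 3) ^ 2 :=
            Nat.mul_le_mul (Nat.pow_le_pow_left h5 2) (Nat.pow_le_pow_left h6 2)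
        _ = n ^ 12 := by ring
    exact_mod_cast h4
  refine hsum.trans ?_
  rw [← mul_assoc]
  calc (((2 * m1 + 1) ^ 2 : ℕ) : ℝ) * (((2 * m2 + 1) ^ 2 : ℕ) : ℝ) *
      (q n (K2 + 2 * K1) * Z h (m1 + m2))
      ≤ q n 36 * (q n (K2 + 2 * K1) * Z h (m1 + m2)) :=
        mul_le_mul_of_nonneg_right hnum (mul_pos (q_pos _ _) hZ).le
    _ = (q n 36 * q n (K2 + 2 * K1)) * Z h (m1 + m2) := by ring
    _ = _ := by rw [q_mul]; congr 2; ring

end Pool.Agent.TH262.SawL
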