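import Mathlib

/-!
A Lyapunov type lemma: weights on a finite family of vectors of a three dimensional space can be
made zero or one except for three of them, without changing the weighted sum of the vectors and
without decreasing the weighted sum of a given function.
-/

set_option autoImplicit false

namespace Pool.Agent.TH262.SawL

open Finset

variable {ι : Type*}

theorem exists_relation (s : Finset ι) (h4 : 4 ≤ s.card) (V : ι → ℝ × ℝ × ℝ) :
    ∃ g : ι → ℝ, (∑ i ∈ s, g i • V i = 0) ∧ ∃ i ∈ s, g i ≠ 0 := by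
  classical
  have h : ¬ LinearIndependent ℝ (fun i : s => V i) := by
    intro hli
    have h1 := hli.fintype_card_le_finrank
    rw [Fintype.card_coe] at h1
    have h2 : Module.finrank ℝ (ℝ × ℝ × ℝ) = 3 := by simp
    omega
  rw [Fintype.not_linearIndependent_iff] at h
  obtain ⟨g, hg, i, hi⟩ := h
  refine ⟨fun j => if hj : j ∈ s then g ⟨j, hj⟩ else 0, ?_, i, i.2, ?_⟩
  · rw [← Finset.sum_coe_sort]
    rw [← hg]
    apply Finset.sum_congr rfl
    intro j _
    simp
  · simpa using hi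

theorem elim (s : Finset ι) (h4 : 4 ≤ s.card) (V : ι → ℝ × ℝ × ℝ) (f : ι → ℝ) (w : ι → ℝ)
    (hw : ∀ i ∈ s, 0 ≤ w i ∧ w i ≤ 1) :
    ∃ w' : ι → ℝ, (∀ i ∈ s, 0 ≤ w' i ∧ w' i ≤ 1) ∧ (∑ i ∈ s, w' i • V i = ∑ i ∈ s, w i • V i) ∧
      (∑ i ∈ s, w i * f i ≤ ∑ i ∈ s, w' i * f i) ∧ ∃ i ∈ s, w' i = 0 ∨ w' i = 1 := by
  classical
  obtain ⟨g, hg, i1, hi1, hgi1⟩ : ∃ g : ι → ℝ, (∑ i ∈ s, g i • V i = 0) ∧
      ∃ i ∈ s, g i ≠ 0 := exists_relation s h4 V
  obtain ⟨c, hc, hcV, hcf⟩ : ∃ c : ι → ℝ, (∃ i ∈ s, c i ≠ 0) ∧ (∑ i ∈ s, c i • V i = 0) ∧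
      0 ≤ ∑ i ∈ s, c i * f i := by
    rcases le_total 0 (∑ i ∈ s, g i * f i) with h | h
    · exact ⟨g, ⟨i1, hi1, hgi1⟩, hg, h⟩
    · refine ⟨fun i => - g i, ⟨i1, hi1, by simpa using hgi1⟩, ?_, ?_⟩
      · simp only [neg_smul, Finset.sum_neg_distrib, hg, neg_zero]
      · simp only [neg_mul, Finset.sum_neg_distrib]
        linarith
  set b : ι → ℝ := fun i => if 0 < c i then (1 - w i) / c i else w i / (- c i) with hb
  have hne : (s.filter (fun i => c i ≠ 0)).Nonempty := by
    obtain ⟨i, hi, hci⟩ := hc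
    exact ⟨i, Finset.mem_filter.2 ⟨hi, hci⟩⟩
  obtain ⟨i0, hi0, hmin⟩ := Finset.exists_min_image _ b hne
  rw [Finset.mem_filter] at hi0
  have hb0 : 0 ≤ b i0 := by
    rw [hb]
    simp only
    have h1 := hw i0 hi0.1
    split_ifs with h
    · exact div_nonneg (by linarith) h.le
    · exact div_nonneg h1.1 (by linarith)
  refine ⟨fun i => w i + b i0 * c i, ?_, ?_, ?_, i0, hi0.1, ?_⟩
  · intro i hi
    have h1 := hw i hi
    show 0 ≤ w i + b i0 * c i ∧ w i + b i0 * c i ≤ 1
    by_cases hci : c i = 0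
    · rw [hci, mul_zero, add_zero]
      exact h1
    · have h2 := hmin i (Finset.mem_filter.2 ⟨hi, hci⟩)
      rcases lt_or_gt_of_ne hci with h3 | h3
      · have h4 : b i = w i / (- c i) := by
          rw [hb]
          simp only
          rw [if_neg (by linarith)]
        rw [h4, le_div_iff₀ (by linarith)] at h2
        constructor
        · nlinarith
        · nlinarith
      · have h4 : b i = (1 - w i) / c i := by
          rw [hb]
          simp only
          rw [if_pos h3]
        rw [h4, le_div_iff₀ h3] at h2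
        constructor
        · nlinarith
        · nlinarith
  · have : ∀ i ∈ s, (w i + b i0 * c i) • V i = w i • V i + b i0 • (c i • V i) := by
      intro i _
      rw [add_smul, mul_smul]
    rw [Finset.sum_congr rfl this, Finset.sum_add_distrib, ← Finset.smul_sum, hcV, smul_zero,
      add_zero]
  · have : ∀ i ∈ s, (w i + b i0 * c i) * f i = w i * f i + b i0 * (c i * f i) := by
      intro i _
      ring
    rw [Finset.sum_congr rfl this, Finset.sum_add_distrib, ← Finset.mul_sum]
    nlinarith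
  · rcases lt_or_gt_of_ne hi0.2 with h3 | h3
    · left
      have h4 : b i0 = w i0 / (- c i0) := by
        rw [hb]
        simp only
        rw [if_neg (by linarith)]
      have h5 : c i0 ≠ 0 := hi0.2
      show w i0 + b i0 * c i0 = 0
      rw [h4, div_neg, neg_mul, div_mul_cancel₀ _ h5]
      ring
    · right
      have h4 : b i0 = (1 - w i0) / c i0 := by
        rw [hb]
        simp only
        rw [if_pos h3]
      have h5 : c i0 ≠ 0 := hi0.2
      show w i0 + b i0 * c i0 = 1
      rw [h4, div_mul_cancel₀ _ h5]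
      ring

/-- **Rounding.** -/
theorem reduce [DecidableEq ι] (V : ι → ℝ × ℝ × ℝ) (f : ι → ℝ) : ∀ (k : ℕ) (s : Finset ι),
    s.card = k → ∀ w : ι → ℝ, (∀ i ∈ s, 0 ≤ w i ∧ w i ≤ 1) →
    ∃ (T R : Finset ι) (w' : ι → ℝ), T ⊆ s ∧ R ⊆ s ∧ R.card ≤ 3 ∧
      (∀ i ∈ R, 0 ≤ w' i ∧ w' i ≤ 1) ∧
      (∑ i ∈ T, V i + ∑ i ∈ R, w' i • V i = ∑ i ∈ s, w i • V i) ∧
      (∑ i ∈ s, w i * f i ≤ ∑ i ∈ T, f i + ∑ i ∈ R, w' i * f i) := by
  intro k
  induction k using Nat.strong_induction_on with
  | _ k ih =>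
    intro s hs w hw
    rcases Nat.lt_or_ge k 4 with hk | hk
    · exact ⟨∅, s, w, by simp, subset_rfl, by omega, hw, by simp, by simp⟩
    · obtain ⟨w1, hw1, hV1, hf1, i0, hi0, h01⟩ := elim s (by omega) V f w hw
      have hcard : (s.erase i0).card = k - 1 := by
        rw [Finset.card_erase_of_mem hi0, hs]
      obtain ⟨T, R, w', hT, hR, hR3, hw', hV', hf'⟩ := ih (k - 1) (by omega) (s.erase i0) hcard w1
        (fun i hi => hw1 i (Finset.mem_of_mem_erase hi))
      have eV : ∑ i ∈ s, w1 i • V i = w1 i0 • V i0 + ∑ i ∈ s.erase i0, w1 i • V i :=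
        (Finset.add_sum_erase s (fun i => w1 i • V i) hi0).symm
      have ef : ∑ i ∈ s, w1 i * f i = w1 i0 * f i0 + ∑ i ∈ s.erase i0, w1 i * f i :=
        (Finset.add_sum_erase s (fun i => w1 i * f i) hi0).symm
      rcases h01 with h0 | h1
      · refine ⟨T, R, w', hT.trans (Finset.erase_subset _ _), hR.trans (Finset.erase_subset _ _),
          hR3, hw', ?_, ?_⟩
        · rw [hV', ← hV1, eV, h0, zero_smul, zero_add]
        · rw [ef, h0, zero_mul, zero_add] at hf1
          exact hf1.trans hf'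
      · have hiT : i0 ∉ T := fun h => (Finset.notMem_erase i0 s) (hT h)
        refine ⟨insert i0 T, R, w', ?_, hR.trans (Finset.erase_subset _ _), hR3, hw', ?_, ?_⟩
        · intro i hi
          rcases Finset.mem_insert.1 hi with rfl | hi
          · exact hi0
          · exact Finset.mem_of_mem_erase (hT hi)
        · rw [Finset.sum_insert hiT, add_assoc, hV', ← hV1, eV, h1, one_smul]
        · rw [Finset.sum_insert hiT]
          rw [ef, h1, one_mul] at hf1
          linarith

end Pool.Agent.TH262.SawL
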