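import Pool.Agent.TH262.SawL.Glue
import Pool.Agent.TH262.SawL.Lp

/-!
The logarithm of the number of self-avoiding words with given ends is concave up to
`O ((log n)^4)`.
-/

set_option autoImplicit false

namespace Pool.Agent.TH262.SawL

open Pool.Agent.TH795.EP Pool.Agent.TH262.SawE H981 Finset

/-- the logarithm of the number of words of type `p = (length, x, y)` -/
noncomputable def lg (p : ℕ × ℤ × ℤ) : ℝ := Real.log (a p.1 p.2.1 p.2.2)

def Ok (p : ℕ × ℤ × ℤ) : Prop := 0 < a p.1 p.2.1 p.2.2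

theorem Ok.word {p : ℕ × ℤ × ℤ} (h : Ok p) :
    ∃ w : List St, Saw w ∧ dx w = p.2.1 ∧ dy w = p.2.2 ∧ w.length = p.1 := exists_of_a h

theorem Ok.par {p : ℕ × ℤ × ℤ} (h : Ok p) : (p.2.1 + p.2.2 - p.1) % 2 = 0 := by
  obtain ⟨w, hw, hx, hy, hl⟩ := h.word
  have := parity w
  rwa [hx, hy, hl] at this

theorem Ok.abs {p : ℕ × ℤ × ℤ} (h : Ok p) : |p.2.1| + |p.2.2| ≤ p.1 := by
  obtain ⟨w, hw, hx, hy, hl⟩ := h.word
  have := abs_add_abs_le w
  rwa [hx, hy, hl] at this

theorem lg_nonneg {p : ℕ × ℤ × ℤ} (h : Ok p) : 0 ≤ lg p := by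
  apply Real.log_nonneg
  have : 1 ≤ a p.1 p.2.1 p.2.2 := h
  exact_mod_cast this

/-! ### gluing many pieces -/

theorem glue_list {n : ℕ} {K : ℝ} (hn : 2 ≤ n) (hK0 : 0 ≤ K)
    (hg : ∀ m1 m2 : ℕ, m1 + m2 ≤ n →
      ∀ x1 y1 x2 y2 : ℤ, (x1 + x2, y1 + y2) ≠ (0, 0) →
      (a m1 x1 y1 : ℝ) * a m2 x2 y2 ≤ q n K * a (m1 + m2) (x1 + x2) (y1 + y2)) :
    ∀ (k : ℕ) (L : List (ℕ × ℤ × ℤ)), L.length = k → (∀ p ∈ L, Ok p) →
      (L.map (fun p => p.1)).sum ≤ n →
      ((L.map (fun p => p.2.1)).sum, (L.map (fun p => p.2.2)).sum) ≠ (0, 0) →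
      Ok ((L.map (fun p => p.1)).sum, (L.map (fun p => p.2.1)).sum,
        (L.map (fun p => p.2.2)).sum) ∧
      (L.map lg).sum ≤ k * (K * Real.log n ^ 3) +
        lg ((L.map (fun p => p.1)).sum, (L.map (fun p => p.2.1)).sum,
        (L.map (fun p => p.2.2)).sum) := by
  intro k
  induction k with
  | zero =>
    intro L hL _ _ hz
    have : L = [] := List.length_eq_zero_iff.1 hL
    subst this
    simp at hz
  | succ k ih =>
    intro L hL hok hlen hz
    have hlog : 0 ≤ K * Real.log n ^ 3 := mul_nonneg hK0 (pow_nonneg (log_pos' hn).le 3)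
    rcases Nat.eq_zero_or_pos k with h0 | h0
    · subst h0
      obtain ⟨p, rfl⟩ := List.length_eq_one_iff.1 hL
      simp only [List.map_cons, List.map_nil, List.sum_cons, List.sum_nil, add_zero]
      refine ⟨hok p (by simp), ?_⟩
      push_cast
      nlinarith
    · -- a piece which is not the total displacement
      obtain ⟨X, hX⟩ : ∃ X, X = (L.map (fun p => p.2.1)).sum := ⟨_, rfl⟩
      obtain ⟨Y, hY⟩ : ∃ Y, Y = (L.map (fun p => p.2.2)).sum := ⟨_, rfl⟩
      obtain ⟨p, hp, hpS⟩ : ∃ p ∈ L, (p.2.1, p.2.2) ≠ (X, Y) := by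
        by_contra hcon
        push Not at hcon
        have e1 : L.map (fun p => p.2.1) = L.map (fun _ => X) := by
          apply List.map_congr_left
          intro p hp
          exact (Prod.mk.inj (hcon p hp)).1
        have e2 : L.map (fun p => p.2.2) = L.map (fun _ => Y) := by
          apply List.map_congr_left
          intro p hp
          exact (Prod.mk.inj (hcon p hp)).2
        rw [e1, List.map_const', List.sum_replicate, hL] at hX
        rw [e2, List.map_const', List.sum_replicate, hL] at hY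
        have hk : (0 : ℤ) < k := by exact_mod_cast h0
        have hX0 : X = 0 := by
          simp only [nsmul_eq_mul] at hX
          push_cast at hX
          have : (k : ℤ) * X = 0 := by linarith
          rcases mul_eq_zero.1 this with h | h
          · omega
          · exact h
        have hY0 : Y = 0 := by
          simp only [nsmul_eq_mul] at hY
          push_cast at hY
          have : (k : ℤ) * Y = 0 := by linarith
          rcases mul_eq_zero.1 this with h | h
          · omega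
          · exact h
        apply hz
        rw [e1, e2, List.map_const', List.map_const', hX0, hY0]
        simp
      have hperm := List.perm_cons_erase hp
      obtain ⟨L', hL'⟩ : ∃ L', L' = L.erase p := ⟨_, rfl⟩
      rw [← hL'] at hperm
      have s1 : (L.map (fun p => p.1)).sum = p.1 + (L'.map (fun p => p.1)).sum := by
        rw [(hperm.map _).sum_eq, List.map_cons, List.sum_cons]
      have s2 : (L.map (fun p => p.2.1)).sum = p.2.1 + (L'.map (fun p => p.2.1)).sum := by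
        rw [(hperm.map _).sum_eq, List.map_cons, List.sum_cons]
      have s3 : (L.map (fun p => p.2.2)).sum = p.2.2 + (L'.map (fun p => p.2.2)).sum := by
        rw [(hperm.map _).sum_eq, List.map_cons, List.sum_cons]
      have s4 : (L.map lg).sum = lg p + (L'.map lg).sum := by
        rw [(hperm.map _).sum_eq, List.map_cons, List.sum_cons]
      have hlen' : L'.length = k := by
        have := hperm.length_eq
        rw [List.length_cons, hL] at this
        omega
      have hok' : ∀ p' ∈ L', Ok p' := fun p' hp' =>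
        hok p' (hperm.mem_iff.2 (List.mem_cons_of_mem _ hp'))
      have hzz : ((L'.map (fun p => p.2.1)).sum, (L'.map (fun p => p.2.2)).sum) ≠ (0, 0) := by
        intro h
        obtain ⟨h1, h2⟩ := Prod.mk.inj h
        apply hpS
        rw [hX, hY, s2, s3, h1, h2, add_zero, add_zero]
      obtain ⟨i1, i2⟩ := ih L' hlen' hok' (by omega) hzz
      have hsum : (p.2.1 + (L'.map (fun p => p.2.1)).sum,
          p.2.2 + (L'.map (fun p => p.2.2)).sum) ≠ ((0 : ℤ), (0 : ℤ)) := by
        rw [← s2, ← s3]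
        exact hz
      have h5 := hg p.1 (L'.map (fun p => p.1)).sum (by omega) p.2.1 p.2.2 _ _ hsum
      rw [s1, s2, s3, s4]
      have hokp := hok p hp
      have hp1 : (0 : ℝ) < a p.1 p.2.1 p.2.2 := by exact_mod_cast hokp
      have hp2 : (0 : ℝ) < a (L'.map (fun p => p.1)).sum (L'.map (fun p => p.2.1)).sum
          (L'.map (fun p => p.2.2)).sum := by exact_mod_cast i1
      have hp3 : (0 : ℝ) < a (p.1 + (L'.map (fun p => p.1)).sum)
          (p.2.1 + (L'.map (fun p => p.2.1)).sum) (p.2.2 + (L'.map (fun p => p.2.2)).sum) := by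
        have h6 := mul_pos hp1 hp2
        by_contra hcon
        push Not at hcon
        have h7 : q n K * (a (p.1 + (L'.map (fun p => p.1)).sum)
          (p.2.1 + (L'.map (fun p => p.2.1)).sum)
          (p.2.2 + (L'.map (fun p => p.2.2)).sum) : ℝ) ≤ 0 :=
          mul_nonpos_of_nonneg_of_nonpos (q_pos n K).le hcon
        linarith
      refine ⟨by exact_mod_cast hp3, ?_⟩
      have h8 := Real.log_le_log (mul_pos hp1 hp2) h5
      rw [Real.log_mul hp1.ne' hp2.ne', Real.log_mul (q_pos n K).ne' hp3.ne'] at h8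
      have h9 : Real.log (q n K) = K * Real.log n ^ 3 := by
        unfold q
        rw [Real.log_exp]
      rw [h9] at h8
      have e1 : lg p = Real.log (a p.1 p.2.1 p.2.2) := rfl
      have e2 : lg ((L'.map (fun p => p.1)).sum, (L'.map (fun p => p.2.1)).sum,
        (L'.map (fun p => p.2.2)).sum) = Real.log (a (L'.map (fun p => p.1)).sum
          (L'.map (fun p => p.2.1)).sum (L'.map (fun p => p.2.2)).sum) := rfl
      have e3 : lg (p.1 + (L'.map (fun p => p.1)).sum, p.2.1 + (L'.map (fun p => p.2.1)).sum,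
        p.2.2 + (L'.map (fun p => p.2.2)).sum) = Real.log (a (p.1 + (L'.map (fun p => p.1)).sum)
          (p.2.1 + (L'.map (fun p => p.2.1)).sum) (p.2.2 + (L'.map (fun p => p.2.2)).sum)) := rfl
      rw [e1, e3]
      rw [e2] at i2
      push_cast
      linarith

/-! ### splitting -/

theorem split_card (l1 l2 : ℕ) (x y : ℤ) : a (l1 + l2) x y ≤
    ∑ z ∈ Icc (-(l1 : ℤ)) l1 ×ˢ Icc (-(l1 : ℤ)) l1, a l1 z.1 z.2 * a l2 (x - z.1) (y - z.2) := by
  classical
  unfold a
  have e : ∀ z : ℤ × ℤ, (fs (fun w => Saw w ∧ dx w = z.1 ∧ dy w = z.2) l1).card *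
      (fs (fun w => Saw w ∧ dx w = x - z.1 ∧ dy w = y - z.2) l2).card =
      (fs (fun w => Saw w ∧ dx w = z.1 ∧ dy w = z.2) l1 ×ˢ
        fs (fun w => Saw w ∧ dx w = x - z.1 ∧ dy w = y - z.2) l2).card := by
    intro z
    rw [Finset.card_product]
  simp only [e]
  rw [← Finset.card_sigma]
  apply card_le_of_decode (fun q => q.2.1 ++ q.2.2)
  intro w hw
  rw [mem_fs] at hw
  obtain ⟨⟨hw1, hwx, hwy⟩, hwl⟩ := hw
  have hx : dx w = dx (w.take l1) + dx (w.drop l1) := by
    rw [← dx_append, List.take_append_drop]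
  have hy : dy w = dy (w.take l1) + dy (w.drop l1) := by
    rw [← dy_append, List.take_append_drop]
  have hl : (w.take l1).length = l1 := by rw [List.length_take]; omega
  have h1 := abs_add_abs_le (w.take l1)
  rw [hl] at h1
  have h2 := abs_le.1 (le_trans (le_add_of_nonneg_right (abs_nonneg (dy (w.take l1)))) h1)
  have h3 := abs_le.1 (le_trans (le_add_of_nonneg_left (abs_nonneg (dx (w.take l1)))) h1)
  refine ⟨⟨(dx (w.take l1), dy (w.take l1)), (w.take l1, w.drop l1)⟩, ?_, ?_⟩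
  · rw [Finset.mem_sigma, Finset.mem_product, Finset.mem_product, mem_fs, mem_fs,
      Finset.mem_Icc, Finset.mem_Icc]
    simp only
    refine ⟨⟨h2, h3⟩, ⟨⟨hw1.subw (List.take_prefix _ _).isInfix, trivial, trivial⟩, hl⟩,
      ⟨⟨hw1.subw (List.drop_suffix _ _).isInfix, by omega, by omega⟩, ?_⟩⟩
    rw [List.length_drop]; omega
  · simp only
    exact List.take_append_drop _ _

theorem split_one {p : ℕ × ℤ × ℤ} (h : Ok p) {l1 l2 : ℕ} (hl : l1 + l2 = p.1) :
    ∃ p1 p2 : ℕ × ℤ × ℤ, Ok p1 ∧ Ok p2 ∧ p1.1 = l1 ∧ p2.1 = l2 ∧ p1.2.1 + p2.2.1 = p.2.1 ∧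
      p1.2.2 + p2.2.2 = p.2.2 ∧ lg p ≤ lg p1 + lg p2 + 2 * Real.log (2 * p.1 + 1) := by
  have h1 := split_card l1 l2 p.2.1 p.2.2
  rw [hl] at h1
  have hne : (Icc (-(l1 : ℤ)) l1 ×ˢ Icc (-(l1 : ℤ)) l1).Nonempty :=
    ⟨(0, 0), by rw [Finset.mem_product, Finset.mem_Icc]; simp⟩
  obtain ⟨z, hz, hmax⟩ := Finset.exists_max_image _
    (fun z : ℤ × ℤ => a l1 z.1 z.2 * a l2 (p.2.1 - z.1) (p.2.2 - z.2)) hne
  have h2 := Finset.sum_le_card_nsmul _ _ _ hmax
  rw [Finset.card_product, Int.card_Icc, smul_eq_mul] at h2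
  have h3 := h1.trans h2
  have e : ((l1 : ℤ) + 1 - -(l1 : ℤ)).toNat = 2 * l1 + 1 := by omega
  rw [e] at h3
  have h4 : 0 < a l1 z.1 z.2 * a l2 (p.2.1 - z.1) (p.2.2 - z.2) := by
    by_contra hcon
    have : a l1 z.1 z.2 * a l2 (p.2.1 - z.1) (p.2.2 - z.2) = 0 := by omega
    rw [this, mul_zero] at h3
    have : 0 < a p.1 p.2.1 p.2.2 := h
    omega
  have h5 := Nat.pos_of_mul_pos_right h4
  have h6 := Nat.pos_of_mul_pos_left h4
  refine ⟨(l1, z.1, z.2), (l2, p.2.1 - z.1, p.2.2 - z.2), ?_, ?_, rfl, rfl, by simp, by simp, ?_⟩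
  · exact Nat.pos_of_ne_zero (fun h => by rw [h] at h4; simp at h4)
  · exact Nat.pos_of_ne_zero (fun h => by rw [h] at h4; simp at h4)
  · unfold lg
    simp only
    have g1 : (0 : ℝ) < a l1 z.1 z.2 := by
      exact_mod_cast Nat.pos_of_ne_zero (fun h => by rw [h] at h4; simp at h4)
    have g2 : (0 : ℝ) < a l2 (p.2.1 - z.1) (p.2.2 - z.2) := by
      exact_mod_cast Nat.pos_of_ne_zero (fun h => by rw [h] at h4; simp at h4)
    have g3 : (0 : ℝ) < a p.1 p.2.1 p.2.2 := by exact_mod_cast h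
    have hl1 : (2 * (l1 : ℝ) + 1) ≤ 2 * p.1 + 1 := by
      have : (l1 : ℝ) ≤ p.1 := by exact_mod_cast (by omega : l1 ≤ p.1)
      linarith
    have h7 : (a p.1 p.2.1 p.2.2 : ℝ) ≤ ((2 * (l1 : ℝ) + 1) * (2 * l1 + 1)) *
        (a l1 z.1 z.2 * a l2 (p.2.1 - z.1) (p.2.2 - z.2)) := by exact_mod_cast h3
    have h8 : (a p.1 p.2.1 p.2.2 : ℝ) ≤ ((2 * (p.1 : ℝ) + 1) ^ 2) *
        (a l1 z.1 z.2 * a l2 (p.2.1 - z.1) (p.2.2 - z.2)) := by
      refine h7.trans (mul_le_mul_of_nonneg_right ?_ (by positivity))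
      nlinarith
    have h9 := Real.log_le_log g3 h8
    rw [Real.log_mul (by positivity) (by positivity), Real.log_mul g1.ne' g2.ne',
      Real.log_pow] at h9
    push_cast at h9
    linarith

/-- splitting into two pieces of length at most `2 ^ j` -/
theorem split_two {p : ℕ × ℤ × ℤ} (h : Ok p) {j : ℕ} (hj : p.1 ≤ 2 ^ (j + 1)) :
    ∃ p1 p2 : ℕ × ℤ × ℤ, Ok p1 ∧ Ok p2 ∧ p1.1 ≤ 2 ^ j ∧ p2.1 ≤ 2 ^ j ∧ p1.1 + p2.1 = p.1 ∧
      p1.2.1 + p2.2.1 = p.2.1 ∧
      p1.2.2 + p2.2.2 = p.2.2 ∧ lg p ≤ lg p1 + lg p2 + 2 * Real.log (2 * p.1 + 1) := by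
  rcases le_total p.1 (2 ^ j) with h1 | h1
  · have hlog : 0 ≤ Real.log (2 * (p.1 : ℝ) + 1) :=
      Real.log_nonneg (by have : (0 : ℝ) ≤ p.1 := Nat.cast_nonneg _; linarith)
    have h0 : Ok (0, 0, 0) := a_zero
    refine ⟨p, (0, 0, 0), h, h0, h1, by positivity, by simp, by simp, by simp, ?_⟩
    have := lg_nonneg h0
    linarith
  · obtain ⟨p1, p2, g1, g2, g3, g4, g5, g6, g7⟩ := split_one h (l1 := 2 ^ j) (l2 := p.1 - 2 ^ j)
      (by omega)
    rw [pow_succ] at hj
    exact ⟨p1, p2, g1, g2, by omega, by omega, by omega, g5, g6, g7⟩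

end Pool.Agent.TH262.SawL
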