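import Pool.Agent.TH262.SawL.PolyW

/-!
The law of the width of the self-avoiding polygons and the end point of the self-avoiding walk.
-/

set_option autoImplicit false

namespace Pool.Agent.TH262.SawL

open Pool.Agent.TH795.EP Pool.Agent.TH262.SawE H981 Finset

/-- the number of loops with `2 n` steps and width at least `k` -/
noncomputable def wn (n : ℕ) (k : ℤ) : ℕ :=
  {f : ZMod (2 * n) → ℤ × ℤ | IsLoop (2 * n) f ∧ Wd k f}.ncard

/-- the error `exp (K (log n)^4)` -/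
noncomputable def q4 (n : ℕ) (K : ℝ) : ℝ := Real.exp (K * Real.log n ^ 4)

theorem q4_mul (n : ℕ) (A B : ℝ) : q4 n A * q4 n B = q4 n (A + B) := by
  unfold q4
  rw [← Real.exp_add]
  congr 1
  ring

theorem q4_pos (n : ℕ) (A : ℝ) : 0 < q4 n A := Real.exp_pos _

theorem q4_mono {n : ℕ} (hn : 2 ≤ n) {A B : ℝ} (h : A ≤ B) : q4 n A ≤ q4 n B := by
  unfold q4
  apply Real.exp_le_exp.2
  have := log_pos' hn
  exact mul_le_mul_of_nonneg_right h (by positivity)

theorem q_le_q4 {n : ℕ} (hn : 2 ≤ n) {A : ℝ} (hA : 0 ≤ A) : q n A ≤ q4 n (2 * A) := by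
  unfold q q4
  apply Real.exp_le_exp.2
  have h0 := log_pos' hn
  have h1 : Real.log 2 ≤ Real.log n := log_ge hn
  have h2 := Real.log_two_gt_d9
  have h3 : 1 ≤ 2 * Real.log n := by linarith
  have h4 : Real.log n ^ 3 ≤ 2 * Real.log n ^ 4 := by
    have h5 := pow_pos h0 3
    nlinarith
  nlinarith

theorem a_le_of_lg {p r : ℕ × ℤ × ℤ} {K E : ℝ} (hr : Ok r) (h : lg p ≤ K * lg r + E) (hp : Ok p) :
    (a p.1 p.2.1 p.2.2 : ℝ) ≤ (a r.1 r.2.1 r.2.2 : ℝ) ^ K * Real.exp E := by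
  have h1 : (0 : ℝ) < a p.1 p.2.1 p.2.2 := by exact_mod_cast hp
  have h2 : (0 : ℝ) < a r.1 r.2.1 r.2.2 := by exact_mod_cast hr
  rw [← Real.exp_log h1, Real.rpow_def_of_pos h2, ← Real.exp_add]
  apply Real.exp_le_exp.2
  unfold lg at h
  linarith

/-- upper bound -/
theorem wide_le : ∃ K : ℝ, 0 ≤ K ∧ ∀ n : ℕ, 2 ≤ n → ∀ k : ℤ, 1 ≤ k →
    (wn n k : ℝ) ≤ q4 (2 * n) K * a (2 * n) (2 * k) 0 := by
  obtain ⟨K1, hK1, hglue⟩ := a_glue
  obtain ⟨K2, hK2, hmono⟩ := a_axis_mono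
  refine ⟨2 * K1 + K2 + 48, by positivity, ?_⟩
  intro n hn k hk
  obtain ⟨M, hM⟩ : ∃ M, M = 2 * n := ⟨_, rfl⟩
  have hM2 : 2 ≤ M := by omega
  unfold wn
  rw [← hM]
  have h1 := wide_upper hM2 hk
  have h2 : ∀ p ∈ (range M ×ˢ (range M ×ˢ (Icc k M ×ˢ Icc (-(M : ℤ)) M))),
      ((a p.2.1 p.2.2.1 p.2.2.2 * a (M - p.2.1) (-p.2.2.1) (-p.2.2.2) : ℕ) : ℝ) ≤
        q4 M (2 * K1 + K2) * a M (2 * k) 0 := by
    rintro ⟨i, m, x, y⟩ hp
    simp only [Finset.mem_product, Finset.mem_range, Finset.mem_Icc] at hp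
    obtain ⟨-, hm, ⟨hx1, hx2⟩, -⟩ := hp
    simp only
    rw [a_sg]
    have h3 := hglue M hM2 m (M - m) (by omega) x y x (-y) (by
      intro h; have := (Prod.mk.inj h).1; omega)
    rw [show m + (M - m) = M by omega, show x + x = 2 * x by ring, add_neg_cancel] at h3
    push_cast
    refine h3.trans ?_
    rcases Nat.eq_zero_or_pos (a M (2 * x) 0) with h0 | h0
    · rw [h0, Nat.cast_zero, mul_zero]
      exact mul_nonneg (q4_pos _ _).le (Nat.cast_nonneg _)
    · obtain ⟨h4, h5⟩ := hmono M hM2 (2 * k) (2 * x) (by omega) (by omega) h0 (by omega)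
      have h6 := a_le_of_lg (p := (M, 2 * x, 0)) (K := 1) h4 (by rw [one_mul]; exact h5) h0
      rw [Real.rpow_one] at h6
      simp only at h6
      have h7 : q M K1 ≤ q4 M (2 * K1) := q_le_q4 hM2 hK1
      calc q M K1 * (a M (2 * x) 0 : ℝ)
          ≤ q4 M (2 * K1) * (a M (2 * k) 0 * Real.exp (K2 * Real.log M ^ 4)) :=
            mul_le_mul h7 h6 (Nat.cast_nonneg _) (q4_pos _ _).le
        _ = (q4 M (2 * K1) * q4 M K2) * a M (2 * k) 0 := by unfold q4; ring
        _ = _ := by rw [q4_mul]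
  have h3 := Finset.sum_le_card_nsmul _ _ _ h2
  have h4 : ((range M ×ˢ (range M ×ˢ (Icc k (M : ℤ) ×ˢ Icc (-(M : ℤ)) M))).card : ℝ) ≤
      q4 M 48 := by
    have hc : (range M ×ˢ (range M ×ˢ (Icc k (M : ℤ) ×ˢ Icc (-(M : ℤ)) M))).card ≤ M ^ 6 := by
      rw [Finset.card_product, Finset.card_product, Finset.card_product, Finset.card_range,
        Int.card_Icc, Int.card_Icc]
      have e1 : ((M : ℤ) + 1 - k).toNat ≤ M := by omega
      have e2 : ((M : ℤ) + 1 - -(M : ℤ)).toNat ≤ M * M * M := by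
        have : 2 * M + 1 ≤ M * M * M := by
          have h7 : 4 ≤ M := by omega
          nlinarith [mul_le_mul h7 h7 (by norm_num) (by omega)]
        omega
      calc M * (M * (((M : ℤ) + 1 - k).toNat * ((M : ℤ) + 1 - -(M : ℤ)).toNat))
          ≤ M * (M * (M * (M * M * M))) := by gcongr
        _ = M ^ 6 := by ring
    have hM0 : (0 : ℝ) < M := by exact_mod_cast (by omega : 0 < M)
    have hlog := log_pos' hM2
    have hl : Real.log 2 ≤ Real.log M := log_ge hM2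
    have hl2 := Real.log_two_gt_d9
    have hc' : ((range M ×ˢ (range M ×ˢ (Icc k (M : ℤ) ×ˢ Icc (-(M : ℤ)) M))).card : ℝ) ≤
        (M : ℝ) ^ 6 := by exact_mod_cast hc
    refine hc'.trans ?_
    unfold q4
    rw [← Real.exp_log (pow_pos hM0 6), Real.log_pow]
    apply Real.exp_le_exp.2
    push_cast
    have h8 : 1 ≤ 2 * Real.log M := by linarith
    have h9 : 1 ≤ 8 * Real.log M ^ 3 := by
      have := one_le_pow₀ (n := 3) h8
      calc (1 : ℝ) ≤ (2 * Real.log M) ^ 3 := this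
        _ = _ := by ring
    have h10 : Real.log M ≤ 8 * Real.log M ^ 4 := by nlinarith
    linarith
  have h5 : (({f : ZMod M → ℤ × ℤ | IsLoop M f ∧ Wd k f}.ncard : ℕ) : ℝ) ≤
      ∑ p ∈ (range M ×ˢ (range M ×ˢ (Icc k M ×ˢ Icc (-(M : ℤ)) M))),
      ((a p.2.1 p.2.2.1 p.2.2.2 * a (M - p.2.1) (-p.2.2.1) (-p.2.2.2) : ℕ) : ℝ) := by
    exact_mod_cast h1
  rw [nsmul_eq_mul] at h3
  calc _ ≤ _ := h5.trans h3
    _ ≤ q4 M 48 * (q4 M (2 * K1 + K2) * a M (2 * k) 0) := by
        apply mul_le_mul_of_nonneg_right h4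
        exact mul_nonneg (q4_pos _ _).le (Nat.cast_nonneg _)
    _ = (q4 M (2 * K1 + K2) * q4 M 48) * a M (2 * k) 0 := by ring
    _ = _ := by rw [q4_mul]

/-- lower bound -/
theorem le_wide : ∃ K : ℝ, 0 ≤ K ∧ ∀ n : ℕ, 2 ≤ n → ∀ k : ℤ, 1 ≤ k → k < n →
    (a (2 * n) (2 * k) 0 : ℝ) ≤ q4 (2 * n) K * wn n k := by
  obtain ⟨K1, hK1, hla⟩ := a_le_la
  obtain ⟨K2, hK2, hhalf⟩ := halve
  obtain ⟨K3, hK3, hsh⟩ := shorten
  refine ⟨4 * K1 + K2 + 2 * K3, by positivity, ?_⟩
  intro n hn k hk hkn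
  obtain ⟨M, hM⟩ : ∃ M, M = 2 * n := ⟨_, rfl⟩
  have hM2 : 2 ≤ M := by omega
  unfold wn
  rw [← hM]
  have hne : ∀ x : ℤ, 1 ≤ x → ((x, 0) : ℤ × ℤ) ≠ (0, 0) := by
    intro x hx h
    have := (Prod.mk.inj h).1
    omega
  rcases Int.emod_two_eq_zero_or_one (k - n) with hpar | hpar
  · -- `m₁ = n`, `m₂ = n - 2`
    have hn3 : 3 ≤ n := by omega
    have hok : Ok (2 * n, 2 * k, 2 * 0) := by
      have := one_le_a (n := 2 * n) (x := 2 * k) (y := 2 * 0) (by rw [mul_zero]; exact hne _ (by omega))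
        (by push_cast; omega) (by
          rw [mul_zero, abs_zero, abs_of_nonneg (by omega : (0 : ℤ) ≤ 2 * k)]; push_cast; omega)
      exact this
    obtain ⟨h1, h2⟩ := hhalf M hM2 n (by omega) k 0 (hne k hk) (by omega) hok
    have h3 := a_le_of_lg h1 h2 hok
    rw [show (2 : ℝ) = ((2 : ℕ) : ℝ) by norm_num, Real.rpow_natCast] at h3
    simp only [mul_zero] at h3
    rw [← hM] at h3
    have h4 := hsh M hM2 n (by omega) k 0 (hne k hk) (by
      rw [abs_zero, abs_of_nonneg (by omega : (0 : ℤ) ≤ k)]; omega)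
    have h5 := hla M hM2 n (by omega) k (by omega)
    have h6 := hla M hM2 (n - 2) (by omega) k (by omega)
    have h7 : (la n k 0 * la (n - 2) k 0 : ℝ) ≤
        ({f : ZMod M → ℤ × ℤ | IsLoop M f ∧ Wd k f}.ncard : ℝ) := by
      have h8 := wide_lower (m1 := n) (m2 := n - 2) (x := k)
      rw [show n + (n - 2) + 2 = M by omega] at h8
      exact_mod_cast h8
    have hq := q_pos M K1
    have hq3 := q_pos M K3
    have h9 : (a n k 0 : ℝ) ^ 2 ≤ (q M (2 * K1) * q M K3) * (la n k 0 * la (n - 2) k 0) := by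
      calc (a n k 0 : ℝ) ^ 2 = a n k 0 * a n k 0 := by ring
        _ ≤ (q M K1 * la n k 0) * (q M K3 * (q M K1 * la (n - 2) k 0)) := by
            apply mul_le_mul h5 (h4.trans (mul_le_mul_of_nonneg_left h6 hq3.le))
              (Nat.cast_nonneg _) (mul_nonneg hq.le (Nat.cast_nonneg _))
        _ = ((q M K1 * q M K1) * q M K3) * (la n k 0 * la (n - 2) k 0) := by ring
        _ = _ := by rw [q_mul, two_mul]
    have h10 : q M (2 * K1) * q M K3 ≤ q4 M (4 * K1 + 2 * K3) := by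
      rw [q_mul]
      refine (q_le_q4 hM2 (by positivity)).trans (q4_mono hM2 (by linarith))
    calc (a M (2 * k) 0 : ℝ) ≤ (a n k 0 : ℝ) ^ 2 * Real.exp (K2 * Real.log M ^ 4) := h3
      _ ≤ (q4 M (4 * K1 + 2 * K3) *
          ({f : ZMod M → ℤ × ℤ | IsLoop M f ∧ Wd k f}.ncard : ℝ)) *
          Real.exp (K2 * Real.log M ^ 4) := by
          apply mul_le_mul_of_nonneg_right _ (Real.exp_pos _).le
          refine h9.trans ?_
          exact mul_le_mul h10 h7 (by positivity) (q4_pos _ _).le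
      _ = (q4 M (4 * K1 + 2 * K3) * q4 M K2) *
          ({f : ZMod M → ℤ × ℤ | IsLoop M f ∧ Wd k f}.ncard : ℝ) := by unfold q4; ring
      _ = _ := by rw [q4_mul]; congr 2; ring
  · -- `m₁ = m₂ = n - 1`
    have hok : Ok (2 * (n - 1), 2 * k, 2 * 0) := by
      have := one_le_a (n := 2 * (n - 1)) (x := 2 * k) (y := 2 * 0)
        (by rw [mul_zero]; exact hne _ (by omega))
        (by push_cast; omega) (by
          rw [mul_zero, abs_zero, abs_of_nonneg (by omega : (0 : ℤ) ≤ 2 * k)]; push_cast; omega)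
      exact this
    obtain ⟨h1, h2⟩ := hhalf M hM2 (n - 1) (by omega) k 0 (hne k hk) (by omega) hok
    have h3 := a_le_of_lg h1 h2 hok
    rw [show (2 : ℝ) = ((2 : ℕ) : ℝ) by norm_num, Real.rpow_natCast] at h3
    simp only [mul_zero] at h3
    have h4 := hsh M hM2 M le_rfl (2 * k) 0 (hne _ (by omega)) (by
      rw [abs_zero, abs_of_nonneg (by omega : (0 : ℤ) ≤ 2 * k)]; omega)
    rw [show M - 2 = 2 * (n - 1) by omega] at h4
    have h5 := hla M hM2 (n - 1) (by omega) k (by omega)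
    have h7 : (la (n - 1) k 0 * la (n - 1) k 0 : ℝ) ≤
        ({f : ZMod M → ℤ × ℤ | IsLoop M f ∧ Wd k f}.ncard : ℝ) := by
      have h8 := wide_lower (m1 := n - 1) (m2 := n - 1) (x := k)
      rw [show n - 1 + (n - 1) + 2 = M by omega] at h8
      exact_mod_cast h8
    have hq := q_pos M K1
    have hq3 := q_pos M K3
    have h9 : (a (n - 1) k 0 : ℝ) ^ 2 ≤ q M (2 * K1) * (la (n - 1) k 0 * la (n - 1) k 0) := by
      calc (a (n - 1) k 0 : ℝ) ^ 2 = a (n - 1) k 0 * a (n - 1) k 0 := by ring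
        _ ≤ (q M K1 * la (n - 1) k 0) * (q M K1 * la (n - 1) k 0) := by
            apply mul_le_mul h5 h5 (Nat.cast_nonneg _) (mul_nonneg hq.le (Nat.cast_nonneg _))
        _ = (q M K1 * q M K1) * (la (n - 1) k 0 * la (n - 1) k 0) := by ring
        _ = _ := by rw [q_mul, two_mul]
    have h10 : q M K3 * q M (2 * K1) ≤ q4 M (4 * K1 + 2 * K3) := by
      rw [q_mul]
      refine (q_le_q4 hM2 (by positivity)).trans (q4_mono hM2 (by linarith))
    calc (a M (2 * k) 0 : ℝ) ≤ q M K3 * a (2 * (n - 1)) (2 * k) 0 := h4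
      _ ≤ q M K3 * ((a (n - 1) k 0 : ℝ) ^ 2 * Real.exp (K2 * Real.log M ^ 4)) :=
          mul_le_mul_of_nonneg_left h3 hq3.le
      _ ≤ q M K3 * ((q M (2 * K1) *
          ({f : ZMod M → ℤ × ℤ | IsLoop M f ∧ Wd k f}.ncard : ℝ)) *
          Real.exp (K2 * Real.log M ^ 4)) := by
          apply mul_le_mul_of_nonneg_left _ hq3.le
          apply mul_le_mul_of_nonneg_right _ (Real.exp_pos _).le
          refine h9.trans ?_
          exact mul_le_mul_of_nonneg_left h7 (q_pos _ _).le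
      _ = (q M K3 * q M (2 * K1)) * (({f : ZMod M → ℤ × ℤ | IsLoop M f ∧ Wd k f}.ncard : ℝ) *
          Real.exp (K2 * Real.log M ^ 4)) := by ring
      _ ≤ q4 M (4 * K1 + 2 * K3) * (({f : ZMod M → ℤ × ℤ | IsLoop M f ∧ Wd k f}.ncard : ℝ) *
          Real.exp (K2 * Real.log M ^ 4)) := by
          apply mul_le_mul_of_nonneg_right h10
          exact mul_nonneg (Nat.cast_nonneg _) (Real.exp_pos _).le
      _ = (q4 M (4 * K1 + 2 * K3) * q4 M K2) *
          ({f : ZMod M → ℤ × ℤ | IsLoop M f ∧ Wd k f}.ncard : ℝ) := by unfold q4; ring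
      _ = _ := by rw [q4_mul]; congr 2; ring

/-- the number of rooted oriented loops -/
noncomputable def ln (n : ℕ) : ℕ := {f : ZMod (2 * n) → ℤ × ℤ | IsLoop (2 * n) f}.ncard

theorem ln_eq {n : ℕ} (hn : 1 ≤ n) : (ln n : ℝ) = 4 * n * PP n := by
  unfold PP ln
  have : (0 : ℝ) < n := by exact_mod_cast hn
  rw [mul_div_cancel₀ _ (by positivity)]
  rfl

theorem log_two_mul {n : ℕ} (hn : 2 ≤ n) : Real.log ((2 * n : ℕ) : ℝ) ≤ 2 * Real.log n := by
  have hn0 : (0 : ℝ) < n := by exact_mod_cast (by omega : 0 < n)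
  push_cast
  rw [Real.log_mul (by norm_num) hn0.ne']
  have := log_ge hn
  linarith

/-- the law of the width against the law of the end point -/
theorem width_law : ∃ K : ℝ, 0 ≤ K ∧ ∀ n : ℕ, 2 ≤ n → ∀ k : ℤ, 1 ≤ k → k < n →
    0 < (ln n : ℝ) ∧ 0 < (c (2 * n) : ℝ) ∧
    (wn n k : ℝ) / ln n ≤ q4 n K * ((a (2 * n) (2 * k) 0 : ℝ) / c (2 * n)) ∧
    (a (2 * n) (2 * k) 0 : ℝ) / c (2 * n) ≤ q4 n K * ((wn n k : ℝ) / ln n) := by
  obtain ⟨K1, hK1, hup⟩ := wide_le
  obtain ⟨K2, hK2, hlo⟩ := le_wide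
  obtain ⟨K3, hK3, hPP⟩ := Pool.Agent.W387.S.sq_PP3
  obtain ⟨K4, hK4, hc, -⟩ := exists_K
  refine ⟨16 * K1 + 16 * K2 + 2 * K3 + 32 * K4 + 48, by positivity, ?_⟩
  intro n hn k hk hkn
  have hn0 : (0 : ℝ) < n := by exact_mod_cast (by omega : 0 < n)
  have hmu := mu_pos
  have hlog := log_pos' hn
  have hl : Real.log 2 ≤ Real.log n := log_ge hn
  have hl2 := Real.log_two_gt_d9
  have hM2 : 2 ≤ 2 * n := by omega
  obtain ⟨p1, p2⟩ := hPP n hn
  have hcn : mu ^ (2 * n) ≤ (c (2 * n) : ℝ) := by rw [c_eq]; exact mu_pow_le _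
  have hmun : 0 < mu ^ (2 * n) := pow_pos hmu _
  have hc0 : (0 : ℝ) < c (2 * n) := hmun.trans_le hcn
  have hln := ln_eq (show 1 ≤ n by omega)
  have hP0 : 0 < PP n := lt_of_lt_of_le (by positivity) p1
  have hl0 : (0 : ℝ) < ln n := by rw [hln]; positivity
  have hcu := hc (2 * n) hM2 (2 * n) le_rfl
  -- conversions of the errors
  have hlogM : Real.log ((2 * n : ℕ) : ℝ) ≤ 2 * Real.log n := log_two_mul hn
  have hlogM0 : 0 ≤ Real.log ((2 * n : ℕ) : ℝ) := (log_pos' hM2).le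
  have hq4 : ∀ A : ℝ, 0 ≤ A → q4 (2 * n) A ≤ q4 n (16 * A) := by
    intro A hA
    unfold q4
    apply Real.exp_le_exp.2
    have h1 := pow_le_pow_left₀ hlogM0 hlogM 4
    have h2 : (2 * Real.log (n : ℝ)) ^ 4 = 16 * Real.log n ^ 4 := by ring
    rw [h2] at h1
    calc A * Real.log ((2 * n : ℕ) : ℝ) ^ 4 ≤ A * (16 * Real.log n ^ 4) :=
          mul_le_mul_of_nonneg_left h1 hA
      _ = _ := by ring
  have hl34 : Real.log (n : ℝ) ^ 3 ≤ 2 * Real.log n ^ 4 := by
    have h1 : 1 ≤ 2 * Real.log (n : ℝ) := by linarith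
    have h5 := pow_pos hlog 3
    nlinarith
  have hl14 : Real.log (n : ℝ) ≤ 8 * Real.log n ^ 4 := by
    have h8 : 1 ≤ 2 * Real.log (n : ℝ) := by linarith
    have h9 : 1 ≤ 8 * Real.log (n : ℝ) ^ 3 := by
      have := one_le_pow₀ (n := 3) h8
      calc (1 : ℝ) ≤ (2 * Real.log (n : ℝ)) ^ 3 := this
        _ = _ := by ring
    nlinarith
  refine ⟨hl0, hc0, ?_, ?_⟩
  · -- upper bound
    have h1 := (hup n hn k hk).trans
      (mul_le_mul_of_nonneg_right (hq4 K1 hK1) (Nat.cast_nonneg _))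
    have h2 : (c (2 * n) : ℝ) ≤ q4 n (2 * K3 + 32 * K4) * ln n := by
      have h3 : mu ^ (2 * n) ≤ q4 n (2 * K3) * ln n := by
        have h4 : mu ^ (2 * n) * Real.exp (-(K3 * Real.log n ^ 3)) ≤ ln n := by
          refine p1.trans ?_
          rw [hln]
          have : (1 : ℝ) ≤ 4 * n := by
            have : (2 : ℝ) ≤ n := by exact_mod_cast hn
            linarith
          nlinarith
        have h5 : q4 n (2 * K3) * Real.exp (-(K3 * Real.log n ^ 3)) ≥ 1 := by
          unfold q4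
          rw [← Real.exp_add]
          apply Real.one_le_exp
          nlinarith
        calc mu ^ (2 * n) = mu ^ (2 * n) * 1 := by ring
          _ ≤ mu ^ (2 * n) * (q4 n (2 * K3) * Real.exp (-(K3 * Real.log n ^ 3))) :=
              mul_le_mul_of_nonneg_left h5 hmun.le
          _ = q4 n (2 * K3) * (mu ^ (2 * n) * Real.exp (-(K3 * Real.log n ^ 3))) := by ring
          _ ≤ _ := mul_le_mul_of_nonneg_left h4 (q4_pos _ _).le
      have h6 : q (2 * n) K4 ≤ q4 n (32 * K4) := by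
        refine (q_le_q4 hM2 hK4).trans ?_
        refine (hq4 _ (by positivity)).trans ?_
        exact q4_mono hn (by linarith)
      calc (c (2 * n) : ℝ) ≤ mu ^ (2 * n) * q (2 * n) K4 := hcu
        _ ≤ (q4 n (2 * K3) * ln n) * q4 n (32 * K4) := by
            apply mul_le_mul h3 h6 (q_pos _ _).le
            exact mul_nonneg (q4_pos _ _).le hl0.le
        _ = (q4 n (2 * K3) * q4 n (32 * K4)) * ln n := by ring
        _ = _ := by rw [q4_mul]
    rw [div_le_iff₀ hl0]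
    calc (wn n k : ℝ) ≤ q4 n (16 * K1) * a (2 * n) (2 * k) 0 := h1
      _ = q4 n (16 * K1) * ((a (2 * n) (2 * k) 0 : ℝ) / c (2 * n)) * c (2 * n) := by
          field_simp
      _ ≤ q4 n (16 * K1) * ((a (2 * n) (2 * k) 0 : ℝ) / c (2 * n)) *
          (q4 n (2 * K3 + 32 * K4) * ln n) := by
          apply mul_le_mul_of_nonneg_left h2
          exact mul_nonneg (q4_pos _ _).le (by positivity)
      _ = (q4 n (16 * K1) * q4 n (2 * K3 + 32 * K4)) *
          ((a (2 * n) (2 * k) 0 : ℝ) / c (2 * n)) * ln n := by ring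
      _ ≤ _ := by
          rw [q4_mul]
          apply mul_le_mul_of_nonneg_right _ hl0.le
          apply mul_le_mul_of_nonneg_right _ (by positivity)
          exact q4_mono hn (by linarith)
  · -- lower bound
    have h1 := (hlo n hn k hk hkn).trans
      (mul_le_mul_of_nonneg_right (hq4 K2 hK2) (Nat.cast_nonneg _))
    have h2 : (ln n : ℝ) ≤ q4 n (2 * K3 + 48) * c (2 * n) := by
      rw [hln]
      have h4 : (4 * n : ℝ) ≤ q4 n 48 := by
        unfold q4
        have e1 : (4 * n : ℝ) ≤ (n : ℝ) ^ 3 := by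
          have : (2 : ℝ) ≤ n := by exact_mod_cast hn
          nlinarith [mul_le_mul this this (by norm_num) hn0.le]
        refine e1.trans ?_
        rw [← Real.exp_log (pow_pos hn0 3), Real.log_pow]
        apply Real.exp_le_exp.2
        push_cast
        linarith
      have h5 : PP n ≤ mu ^ (2 * n) * q4 n (2 * K3) := by
        refine p2.trans (mul_le_mul_of_nonneg_left ?_ hmun.le)
        unfold q4
        apply Real.exp_le_exp.2
        nlinarith
      calc (4 * n : ℝ) * PP n ≤ q4 n 48 * (mu ^ (2 * n) * q4 n (2 * K3)) :=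
            mul_le_mul h4 h5 hP0.le (q4_pos _ _).le
        _ = (q4 n (2 * K3) * q4 n 48) * mu ^ (2 * n) := by ring
        _ ≤ _ := by
            rw [q4_mul]
            exact mul_le_mul_of_nonneg_left hcn (q4_pos _ _).le
    rw [div_le_iff₀ hc0]
    calc (a (2 * n) (2 * k) 0 : ℝ) ≤ q4 n (16 * K2) * wn n k := h1
      _ = q4 n (16 * K2) * ((wn n k : ℝ) / ln n) * ln n := by field_simp
      _ ≤ q4 n (16 * K2) * ((wn n k : ℝ) / ln n) * (q4 n (2 * K3 + 48) * c (2 * n)) := by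
          apply mul_le_mul_of_nonneg_left h2
          exact mul_nonneg (q4_pos _ _).le (by positivity)
      _ = (q4 n (16 * K2) * q4 n (2 * K3 + 48)) * ((wn n k : ℝ) / ln n) * c (2 * n) := by ring
      _ ≤ _ := by
          rw [q4_mul]
          apply mul_le_mul_of_nonneg_right _ hc0.le
          apply mul_le_mul_of_nonneg_right _ (by positivity)
          exact q4_mono hn (by linarith)

end Pool.Agent.TH262.SawL
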