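import Pool.Agent.TH262.SawL.HalfZ

/-!
Self-avoiding words that stay in the open half plane after their starting point.
-/

set_option autoImplicit false

namespace Pool.Agent.TH262.SawL

open Pool.Agent.TH795.EP Pool.Agent.TH262.SawE H981 Finset

/-- strictly below the starting point -/
def Ls (w : List St) : Prop := ∀ k, 1 ≤ k → k ≤ w.length → (path w k).2 ≤ -1

/-- number of such words with displacement `(x, y)` -/
noncomputable def ls (m : ℕ) (x y : ℤ) : ℕ :=
  (fs (fun w => (Saw w ∧ dx w = x ∧ dy w = y) ∧ Ls w) m).card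

/-- the cyclic shift at the last highest point -/
theorem cyc_last (w : List St) : ∃ t, t ≤ w.length ∧ Ls (w.drop t) ∧
    ∀ k, (path (w.take t) k).2 ≤ dy (w.take t) := by
  classical
  obtain ⟨t, ht, hmax⟩ : ∃ t ∈ range (w.length + 1), ∀ k ∈ range (w.length + 1),
      (path w k).2 * (w.length + 2) + k ≤ (path w t).2 * (w.length + 2) + t :=
    Finset.exists_max_image (range (w.length + 1)) (fun k => (path w k).2 * (w.length + 2) + (k : ℤ))
      ⟨0, by simp⟩
  rw [Finset.mem_range] at ht
  have hle : ∀ k, k ≤ w.length → (path w k).2 ≤ (path w t).2 := by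
    intro k hk
    have h1 := hmax k (by rw [Finset.mem_range]; omega)
    by_contra h2
    have h3 : (path w t).2 + 1 ≤ (path w k).2 := by omega
    have h4 : (0 : ℤ) ≤ (w.length : ℤ) := Int.natCast_nonneg _
    have h5 : (t : ℤ) ≤ w.length := by omega
    have h6 : ((path w t).2 + 1) * ((w.length : ℤ) + 2) ≤ (path w k).2 * ((w.length : ℤ) + 2) :=
      mul_le_mul_of_nonneg_right h3 (by omega)
    have h7 : (0 : ℤ) ≤ (k : ℤ) := Int.natCast_nonneg _
    linarith
  have hlt : ∀ k, t < k → k ≤ w.length → (path w k).2 ≤ (path w t).2 - 1 := by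
    intro k hk hk2
    have h1 := hmax k (by rw [Finset.mem_range]; omega)
    have h2 := hle k hk2
    by_contra h3
    have h4 : (path w k).2 = (path w t).2 := by omega
    rw [h4] at h1
    omega
  have hmax' : ∀ k, (path w k).2 ≤ (path w t).2 := by
    intro k
    rcases le_or_gt k w.length with h | h
    · exact hle k h
    · rw [path_ge h.le]
      exact hle _ le_rfl
  refine ⟨t, by omega, fun k hk1 hk2 => ?_, fun k => ?_⟩
  · have h1 := congrArg Prod.snd (path_drop w t k)
    simp only at h1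
    rw [List.length_drop] at hk2
    have h2 := hlt (t + k) (by omega) (by omega)
    omega
  · have h1 : (path w t).2 = dy (w.take t) := rfl
    rw [← h1]
    rcases le_or_gt k t with h | h
    · rw [path_take h]
      exact hmax' k
    · have h2 : (w.take t).length = t := by rw [List.length_take]; omega
      rw [path_ge (by omega : (w.take t).length ≤ k), h2, path_take le_rfl]

theorem ls_glue {u v : List St} {i j : ℕ} (hi : i ≤ u.length)
    (hu : Ls u) (hv : ∀ k, (path v k).2 ≤ dy v) (huv : dy u + dy v ≤ -1)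
    (h : dy (u.take i ++ v.drop j) = dy u + dy v) : Ls (u.take i ++ v.drop j) := by
  have hlen : (u.take i).length = i := by rw [List.length_take]; omega
  intro k hk1 hk2
  rcases le_or_gt k i with h1 | h1
  · rw [path_append_left (by omega), path_take h1]
    exact hu k hk1 (by omega)
  · obtain ⟨l, rfl⟩ : ∃ l, k = i + l := ⟨k - i, by omega⟩
    have g := path_append_right (u.take i) (v.drop j) l
    rw [hlen] at g
    rw [g]
    simp only
    have g1 := congrArg Prod.snd (path_drop v j l)
    simp only at g1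
    have g2 : (path v j).2 = dy (v.take j) := rfl
    have f2 : dy v = dy (v.take j) + dy (v.drop j) := by
      rw [← dy_append, List.take_append_drop]
    rw [dy_append] at h
    have g3 := hv (j + l)
    omega

theorem cyc_card_s (m : ℕ) {x y : ℤ} (hy : y ≤ -1) :
    a m x y ≤ ∑ p ∈ (range (m + 1)).sigma (fun t => range (m - t + 1) ×ˢ range (t + 1)),
      ls (p.2.1 + (p.1 - p.2.2)) x y * (c (m - p.1 - p.2.1) * c p.2.2) := by
  classical
  unfold a ls c
  have e : ∀ p : (_ : ℕ) × (ℕ × ℕ),
      (fs (fun w => (Saw w ∧ dx w = x ∧ dy w = y) ∧ Ls w) (p.2.1 + (p.1 - p.2.2))).card *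
        ((fs Saw (m - p.1 - p.2.1)).card * (fs Saw p.2.2).card) =
      (fs (fun w => (Saw w ∧ dx w = x ∧ dy w = y) ∧ Ls w) (p.2.1 + (p.1 - p.2.2)) ×ˢ
        (fs Saw (m - p.1 - p.2.1) ×ˢ fs Saw p.2.2)).card := by
    intro p
    rw [Finset.card_product, Finset.card_product]
  simp only [e]
  rw [← Finset.card_sigma]
  apply card_le_of_decode (fun q => (q.2.2.2 ++ q.2.1.drop q.1.2.1) ++
    (q.2.1.take q.1.2.1 ++ q.2.2.1))
  intro w hw
  rw [mem_fs] at hw
  obtain ⟨⟨hw1, hwx, hwy⟩, hwl⟩ := hw
  obtain ⟨t, ht, hu, hv⟩ := cyc_last w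
  have hsu : Saw (w.drop t) := hw1.subw (List.drop_suffix _ _).isInfix
  have hsv : Saw (w.take t) := hw1.subw (List.take_prefix _ _).isInfix
  have hlu : (w.drop t).length = m - t := by rw [List.length_drop, hwl]
  have hlv : (w.take t).length = t := by rw [List.length_take]; omega
  have f1 : dx w = dx (w.take t) + dx (w.drop t) := by rw [← dx_append, List.take_append_drop]
  have f2 : dy w = dy (w.take t) + dy (w.drop t) := by rw [← dy_append, List.take_append_drop]
  obtain ⟨i, j, hi, hj, h1, h2, h3⟩ := glue_exists hsu hsv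
  have hlen : ((w.drop t).take i).length = i := by rw [List.length_take]; omega
  refine ⟨⟨⟨t, (i, j)⟩, ((w.drop t).take i ++ (w.take t).drop j, (w.drop t).drop i,
    (w.take t).take j)⟩, ?_, ?_⟩
  · rw [Finset.mem_sigma, Finset.mem_sigma, Finset.mem_product, Finset.mem_product,
      Finset.mem_product, mem_fs, mem_fs, mem_fs, Finset.mem_range, Finset.mem_range,
      Finset.mem_range]
    simp only
    refine ⟨⟨by omega, by omega, by omega⟩, ⟨⟨⟨h1, by omega, by omega⟩, ?_⟩, ?_⟩, ⟨?_, ?_⟩, ?_, ?_⟩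
    · exact ls_glue hi hu hv (by omega) h3
    · rw [List.length_append, hlen, List.length_drop, hlv]
    · exact hsu.subw (List.drop_suffix _ _).isInfix
    · rw [List.length_drop, hlu]
    · exact hsv.subw (List.take_prefix _ _).isInfix
    · rw [List.length_take]; omega
  · simp only
    have g1 : ((w.drop t).take i ++ (w.take t).drop j).take i = (w.drop t).take i := by
      have := List.take_left (l₁ := (w.drop t).take i) (l₂ := (w.take t).drop j)
      rwa [hlen] at this
    have g2 : ((w.drop t).take i ++ (w.take t).drop j).drop i = (w.take t).drop j := by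
      have := List.drop_left (l₁ := (w.drop t).take i) (l₂ := (w.take t).drop j)
      rwa [hlen] at this
    rw [g1, g2, List.take_append_drop, List.take_append_drop, List.take_append_drop]

/-- strictly lower words are `S` followed by a lower word -/
theorem ls_cons {s : St} {v : List St} : Ls (s :: v) ↔ s = St.S ∧ Lo v := by
  constructor
  · intro h
    have h1 := h 1 le_rfl (by simp)
    rw [path_cons_succ, path_zero'] at h1
    have hs : s = St.S := by
      cases s with
      | E => simp at h1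
      | W => simp at h1
      | N => simp at h1
      | S => rfl
    subst hs
    refine ⟨rfl, ?_⟩
    have key : ∀ k, k ≤ v.length → (path v k).2 ≤ 0 := by
      intro k hk
      have h2 := h (k + 1) (by omega) (by simp; omega)
      rw [path_snd_S] at h2
      simp only at h2
      omega
    intro k
    rcases le_or_gt k v.length with h2 | h2
    · exact key k h2
    · rw [path_ge h2.le]; exact key _ le_rfl
  · rintro ⟨rfl, hlo⟩
    intro k hk1 _
    obtain ⟨l, rfl⟩ : ∃ l, k = l + 1 := ⟨k - 1, by omega⟩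
    rw [path_snd_S]
    have := hlo l
    simp only
    omega

theorem ls_succ (m : ℕ) (x y : ℤ) : ls (m + 1) x y = la m x (y + 1) := by
  classical
  unfold ls la
  apply le_antisymm
  · apply card_le_of_decode (fun v => St.S :: v)
    intro w hw
    rw [mem_fs] at hw
    obtain ⟨⟨⟨h1, h2, h3⟩, h4⟩, h5⟩ := hw
    obtain ⟨s, v, rfl⟩ : ∃ s v, w = s :: v := by
      cases w with
      | nil => simp at h5
      | cons s v => exact ⟨s, v, rfl⟩
    obtain ⟨rfl, hlo⟩ := ls_cons.1 h4
    refine ⟨v, mem_fs.2 ⟨⟨⟨h1.subw (List.suffix_cons _ _).isInfix, ?_, ?_⟩, hlo⟩, ?_⟩, rfl⟩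
    · rw [dx_cons, St.x_S] at h2; omega
    · rw [dy_cons, St.y_S] at h3; omega
    · rw [List.length_cons] at h5; omega
  · apply card_le_of_decode (fun v => v.drop 1)
    intro v hv
    rw [mem_fs] at hv
    obtain ⟨⟨⟨h1, h2, h3⟩, h4⟩, h5⟩ := hv
    refine ⟨St.S :: v, mem_fs.2 ⟨⟨⟨saw_S_cons h1 h4, ?_, ?_⟩, ls_cons.2 ⟨rfl, h4⟩⟩, ?_⟩, by simp⟩
    · rw [dx_cons, St.x_S]; omega
    · rw [dy_cons, St.y_S]; omega
    · rw [List.length_cons]; omega

theorem exists_of_ls {m : ℕ} {x y : ℤ} (h : 0 < ls m x y) :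
    ∃ w, Saw w ∧ dx w = x ∧ dy w = y ∧ w.length = m := by
  unfold ls at h
  obtain ⟨w, hw⟩ := Finset.card_pos.1 h
  rw [mem_fs] at hw
  exact ⟨w, hw.1.1.1, hw.1.1.2.1, hw.1.1.2.2, hw.2⟩

/-- **Words that never return to the line are as numerous as all words with the same ends.** -/
theorem a_le_ls : ∃ K : ℝ, 0 ≤ K ∧ ∀ n : ℕ, 2 ≤ n → ∀ m ≤ n, ∀ x y : ℤ, y ≤ -1 →
    (x, y) ≠ (0, -1) → (a m x y : ℝ) ≤ q n K * ls m x y := by
  obtain ⟨K, hK0, hup, hlow⟩ := exists_K
  refine ⟨3 * K + 66, by positivity, ?_⟩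
  intro n hn m hm x y hy hz
  have hmu := mu_pos
  rcases Nat.eq_zero_or_pos (a m x y) with h1 | h1
  · rw [h1]
    have := q_pos n (3 * K + 66)
    simp only [Nat.cast_zero]
    positivity
  obtain ⟨w1, hw1, hx1, hy1, hl1⟩ := exists_of_a h1
  have p1 := parity w1
  have hcard : (a m x y : ℝ) ≤
      ∑ p ∈ (range (m + 1)).sigma (fun t => range (m - t + 1) ×ˢ range (t + 1)),
      (ls (p.2.1 + (p.1 - p.2.2)) x y : ℝ) * (c (m - p.1 - p.2.1) * c p.2.2) := by
    exact_mod_cast cyc_card_s m (x := x) hy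
  have hA : (0 : ℝ) ≤ ls m x y := Nat.cast_nonneg _
  have hterm : ∀ p ∈ (range (m + 1)).sigma (fun t => range (m - t + 1) ×ˢ range (t + 1)),
      (ls (p.2.1 + (p.1 - p.2.2)) x y : ℝ) * (c (m - p.1 - p.2.1) * c p.2.2) ≤
        q n (3 * K + 42) * ls m x y := by
    intro p hp
    rw [Finset.mem_sigma, Finset.mem_product, Finset.mem_range, Finset.mem_range,
      Finset.mem_range] at hp
    obtain ⟨ht, hp1, hp2⟩ := hp
    rcases Nat.eq_zero_or_pos (ls (p.2.1 + (p.1 - p.2.2)) x y) with h3 | h3
    · rw [h3]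
      have := q_pos n (3 * K + 42)
      simp only [Nat.cast_zero, zero_mul]
      positivity
    obtain ⟨w3, hw3, hx3, hy3, hl3⟩ := exists_of_ls h3
    have p3 := parity w3
    have hm1 : 2 ≤ p.2.1 + (p.1 - p.2.2) := by
      by_contra hcon
      have h4 := abs_add_abs_le w3
      rw [hx3, hy3, hl3] at h4
      have h5 := abs_nonneg x
      have h6 : |y| = -y := abs_of_nonpos (by omega)
      apply hz
      have h7 : y = -1 := by omega
      have h8 : |x| = 0 := by omega
      rw [h7, abs_eq_zero.1 h8]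
    obtain ⟨j, hj⟩ : ∃ j : ℕ, (m - p.1 - p.2.1) + p.2.2 = 2 * j := by
      refine ⟨((m - p.1 - p.2.1) + p.2.2) / 2, ?_⟩
      omega
    have e1 : (p.2.1 + (p.1 - p.2.2)) + 2 * j = m := by omega
    have e2 := hup n hn (m - p.1 - p.2.1) (by omega)
    have e3 := hup n hn p.2.2 (by omega)
    obtain ⟨m', hm'⟩ : ∃ m', p.2.1 + (p.1 - p.2.2) = m' + 1 := ⟨p.2.1 + (p.1 - p.2.2) - 1, by omega⟩
    have e4 := la_lengthen' hn hK0 (hlow n hn) (m := m') (j := j) (by omega) (by omega) x (y + 1)
    have e5 : m' + 2 * j + 1 = m := by omega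
    rw [← ls_succ, ← ls_succ, e5, ← hm'] at e4
    have g2 := q_pos n K
    calc (ls (p.2.1 + (p.1 - p.2.2)) x y : ℝ) * (c (m - p.1 - p.2.1) * c p.2.2)
        ≤ (ls (p.2.1 + (p.1 - p.2.2)) x y : ℝ) *
          ((mu ^ (m - p.1 - p.2.1) * q n K) * (mu ^ p.2.2 * q n K)) := by
          gcongr
      _ = ((ls (p.2.1 + (p.1 - p.2.2)) x y : ℝ) * (mu ^ (m - p.1 - p.2.1) * mu ^ p.2.2)) *
          (q n K * q n K) := by ring
      _ = ((ls (p.2.1 + (p.1 - p.2.2)) x y : ℝ) * mu ^ (2 * j)) * q n (K + K) := by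
          rw [← pow_add, hj, q_mul]
      _ ≤ (q n (K + 42) * ls m x y) * q n (K + K) :=
          mul_le_mul_of_nonneg_right e4 (q_pos _ _).le
      _ = (q n (K + 42) * q n (K + K)) * ls m x y := by ring
      _ = _ := by rw [q_mul]; congr 2; ring
  have hsum := Finset.sum_le_card_nsmul _ _ _ hterm
  have hcardS : ((range (m + 1)).sigma (fun t => range (m - t + 1) ×ˢ range (t + 1))).card ≤
      n ^ 6 := by
    rw [Finset.card_sigma]
    have h1 : ∀ t ∈ range (m + 1), (range (m - t + 1) ×ˢ range (t + 1)).card ≤ (n + 1) * (n + 1) := by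
      intro t ht
      rw [Finset.mem_range] at ht
      rw [Finset.card_product, Finset.card_range, Finset.card_range]
      exact Nat.mul_le_mul (by omega) (by omega)
    refine (Finset.sum_le_card_nsmul _ _ _ h1).trans ?_
    rw [Finset.card_range, smul_eq_mul]
    have h2 : n + 1 ≤ n ^ 2 := by nlinarith
    calc (m + 1) * ((n + 1) * (n + 1)) ≤ n ^ 2 * (n ^ 2 * n ^ 2) :=
          Nat.mul_le_mul (by omega) (Nat.mul_le_mul h2 h2)
      _ = n ^ 6 := by ring
  rw [nsmul_eq_mul] at hsum
  have hnum : ((((range (m + 1)).sigma (fun t => range (m - t + 1) ×ˢ range (t + 1))).card : ℕ) : ℝ)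
      ≤ q n 18 := by
    have h3 := pow_le_q hn 6
    norm_num at h3
    refine le_trans ?_ h3
    exact_mod_cast hcardS
  have hQ := q_pos n (3 * K + 42)
  calc (a m x y : ℝ) ≤ _ := hcard.trans hsum
    _ ≤ q n 18 * (q n (3 * K + 42) * ls m x y) :=
        mul_le_mul_of_nonneg_right hnum (by positivity)
    _ = (q n 18 * q n (3 * K + 42)) * ls m x y := by ring
    _ = q n (18 + (3 * K + 42)) * ls m x y := by rw [q_mul]
    _ ≤ _ := mul_le_mul_of_nonneg_right (q_mono hn (by linarith)) hA

end Pool.Agent.TH262.SawL
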